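import Mathlib
import Pool.Agent.CW71.RM

set_option autoImplicit false

/-!
Groups acting on the rooted tree of words over a finite alphabet: definitions, sections, insertion
of elements at a level.
-/

namespace Pool.Agent.CB71

open scoped commutatorElement
open Pool.Agent.CW71

/-- Permutations of the set of words over `X` (the vertices of the rooted tree). -/
abbrev Tr (X : Type) := Equiv.Perm (List X)

variable {X : Type}

/-- A group of permutations of the words is self-similar if for all `g` in the group and all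
letters `x` there are a letter `y` and an element `h` of the group with `g (x w) = y h(w)` for all
words `w`. -/
def SelfSimilar (G : Subgroup (Tr X)) : Prop :=
  ∀ g ∈ G, ∀ x : X, ∃ y : X, ∃ h ∈ G, ∀ w : List X, g (x :: w) = y :: h w

/-- `h` is the section of `g` at the word `v`: `g (v w) = g(v) h(w)` for all words `w`. -/
def IsSection (g : Tr X) (v : List X) (h : Tr X) : Prop := ∀ w : List X, g (v ++ w) = g v ++ h w

/-- A self-similar group is contracting if there is a finite set `N` of its elements such that for
every element of the group all sections at sufficiently long words belong to `N`. -/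
def Contracting (G : Subgroup (Tr X)) : Prop :=
  ∃ N : Set (Tr X), N.Finite ∧ N ⊆ G ∧
    ∀ g ∈ G, ∃ n : ℕ, ∀ v : List X, n ≤ v.length → ∃ h ∈ N, IsSection g v h

/-- The group acts transitively on the words of every length. -/
def LevelTransitive (G : Subgroup (Tr X)) : Prop :=
  ∀ v w : List X, v.length = w.length → ∃ g ∈ G, g v = w

/-- `K` geometrically contains its power `K^X`: for all choices of `k x` in `K` (`x` a letter) the
permutation `x w ↦ x (k x)(w)` belongs to `K`. -/
def ContainsPower (K : Subgroup (Tr X)) : Prop :=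
  ∀ k : X → Tr X, (∀ x, k x ∈ K) → ∃ g ∈ K, ∀ (x : X) (w : List X), g (x :: w) = x :: k x w

lemma inv_map (g : Tr X) (w : List X) : g⁻¹ (g w) = w := Equiv.symm_apply_apply g w

lemma map_inv_map (g : Tr X) (w : List X) : g (g⁻¹ w) = w := Equiv.apply_symm_apply g w

section basic

variable {G : Subgroup (Tr X)}

lemma map_nil (hG : SelfSimilar G) {g : Tr X} (hg : g ∈ G) : g [] = [] := by
  by_contra h
  obtain ⟨y, w, hyw⟩ := List.exists_cons_of_ne_nil h
  obtain ⟨z, h', _, hz⟩ := hG g⁻¹ (G.inv_mem hg) y
  have h1 : g⁻¹ (y :: w) = [] := by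
    rw [← hyw, inv_map]
  rw [hz] at h1
  exact List.cons_ne_nil _ _ h1

lemma length_map (hG : SelfSimilar G) {g : Tr X} (hg : g ∈ G) (v : List X) :
    (g v).length = v.length := by
  induction v generalizing g with
  | nil => rw [map_nil hG hg]
  | cons x v ih =>
    obtain ⟨y, h, hh, e⟩ := hG g hg x
    rw [e, List.length_cons, ih hh, List.length_cons]

lemma sec_exists (hG : SelfSimilar G) {g : Tr X} (hg : g ∈ G) (v : List X) :
    ∃ h ∈ G, IsSection g v h := by
  induction v generalizing g with
  | nil => exact ⟨g, hg, fun w => by rw [map_nil hG hg]; rfl⟩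
  | cons x v ih =>
    obtain ⟨y, h, hh, e⟩ := hG g hg x
    obtain ⟨h', hh', e'⟩ := ih hh
    refine ⟨h', hh', fun w => ?_⟩
    rw [List.cons_append, e, e', e, List.cons_append]

lemma IsSection.uniq {g : Tr X} {v : List X} {h h' : Tr X} (h1 : IsSection g v h)
    (h2 : IsSection g v h') : h = h' := by
  apply Equiv.ext
  intro w
  have := (h1 w).symm.trans (h2 w)
  exact List.append_cancel_left this

lemma IsSection.mul {g g' : Tr X} {v : List X} {h h' : Tr X} (h1 : IsSection g v h)
    (h2 : IsSection g' (g v) h') : IsSection (g' * g) v (h' * h) := by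
  intro w
  rw [Equiv.Perm.mul_apply, h1, h2, Equiv.Perm.mul_apply, Equiv.Perm.mul_apply]

lemma IsSection.inv {g : Tr X} {v : List X} {h : Tr X} (h1 : IsSection g v h) :
    IsSection g⁻¹ (g v) h⁻¹ := by
  intro w
  rw [inv_map, Equiv.Perm.inv_eq_iff_eq, h1, map_inv_map]

lemma IsSection.append {g : Tr X} {v u : List X} {h h' : Tr X} (h1 : IsSection g v h)
    (h2 : IsSection h u h') : IsSection g (v ++ u) h' := by
  intro w
  rw [List.append_assoc, h1, h2, h1 u, List.append_assoc]

lemma isSection_one (v : List X) : IsSection (1 : Tr X) v 1 := fun _ => rfl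

lemma isSection_nil (hG : SelfSimilar G) {g : Tr X} (hg : g ∈ G) : IsSection g [] g := by
  intro w
  rw [map_nil hG hg]; rfl

end basic

/-! ### Insertion at a level -/

/-- `g` fixes the words of length `m` and its section at each such word `v` is `k v`. -/
def Ins (m : ℕ) (k : List X → Tr X) (g : Tr X) : Prop :=
  ∀ v : List X, v.length = m → ∀ w : List X, g (v ++ w) = v ++ k v w

section ins

variable {m : ℕ} {k k' : List X → Tr X} {g g' : Tr X}

lemma Ins.mul (h : Ins m k g) (h' : Ins m k' g') : Ins m (fun v => k v * k' v) (g * g') := by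
  intro v hv w
  rw [Equiv.Perm.mul_apply, h' v hv, h v hv, Equiv.Perm.mul_apply]

lemma Ins.inv (h : Ins m k g) : Ins m (fun v => (k v)⁻¹) g⁻¹ := by
  intro v hv w
  rw [Equiv.Perm.inv_eq_iff_eq, h v hv, map_inv_map]

lemma ins_one (m : ℕ) : Ins m (fun _ => (1 : Tr X)) 1 := fun _ _ _ => rfl

lemma Ins.congr (h : Ins m k g) (hk : ∀ v : List X, v.length = m → k v = k' v) : Ins m k' g := by
  intro v hv w
  rw [h v hv, hk v hv]

variable {G : Subgroup (Tr X)}

lemma Ins.fix (hG : SelfSimilar G) (hk : ∀ v, k v ∈ G) (h : Ins m k g) {v : List X}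
    (hv : v.length = m) : g v = v := by
  have := h v hv []
  rw [map_nil hG (hk v)] at this
  simpa using this

lemma Ins.sec (hG : SelfSimilar G) (hk : ∀ v, k v ∈ G) (h : Ins m k g) {v : List X}
    (hv : v.length = m) : IsSection g v (k v) := by
  intro w
  rw [h v hv, h.fix hG hk hv]

lemma ins_unique [Nonempty X] (hG : SelfSimilar G) (hg : g ∈ G) (hg' : g' ∈ G) (h : Ins m k g)
    (h' : Ins m k' g') (hk : ∀ v : List X, v.length = m → k v = k' v) : g = g' := by
  apply Equiv.ext
  intro w
  by_cases hw : m ≤ w.length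
  · have e : w = w.take m ++ w.drop m := (List.take_append_drop m w).symm
    have hl : (w.take m).length = m := by rw [List.length_take]; omega
    rw [e, h _ hl, h' _ hl, hk _ hl]
  · push Not at hw
    obtain ⟨x⟩ := ‹Nonempty X›
    have hl : (w ++ List.replicate (m - w.length) x).length = m := by
      rw [List.length_append, List.length_replicate]; omega
    have e1 := h _ hl []
    have e2 := h' _ hl []
    rw [hk _ hl, ← e2, List.append_nil] at e1
    obtain ⟨s, _, hs⟩ := sec_exists hG hg w
    obtain ⟨s', _, hs'⟩ := sec_exists hG hg' w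
    rw [hs, hs'] at e1
    exact (List.append_inj e1 (by rw [length_map hG hg, length_map hG hg'])).1

lemma ins_exists {K : Subgroup (Tr X)} (hK : ContainsPower K) (m : ℕ) (k : List X → Tr X)
    (hk : ∀ v, k v ∈ K) : ∃ g ∈ K, Ins m k g := by
  induction m generalizing k with
  | zero =>
    refine ⟨k [], hk [], ?_⟩
    intro v hv w
    rw [List.length_eq_zero_iff] at hv
    subst hv
    rfl
  | succ m ih =>
    choose g hg1 hg2 using fun x : X => ih (fun v => k (x :: v)) (fun v => hk _)
    obtain ⟨g', hg', e⟩ := hK g hg1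
    refine ⟨g', hg', ?_⟩
    intro v hv w
    cases v with
    | nil => simp at hv
    | cons x v =>
      rw [List.cons_append, e, hg2 x v (by simpa using hv)]
      rfl

/-- the sections of `[a, i]` for `i` concentrated at the word `j` -/
lemma move_sec [DecidableEq X] (hG : SelfSimilar G) {a i κ s : Tr X} {j : List X} (ha : a ∈ G)
    (hs : IsSection a j s) (hi : Ins m (fun v => if v = j then κ else 1) i) :
    Ins m (fun v => (if v = a j then s * κ * s⁻¹ else 1) * (if v = j then κ⁻¹ else 1)) ⁅a, i⁆ := by
  have h1 : Ins m (fun v => if v = a j then s * κ * s⁻¹ else 1) (a * i * a⁻¹) := by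
    intro v hv w
    have hv' : (a⁻¹ v).length = m := by rw [length_map hG (G.inv_mem ha), hv]
    obtain ⟨s', _, hs'⟩ := sec_exists hG ha (a⁻¹ v)
    have e1 : a⁻¹ (v ++ w) = a⁻¹ v ++ s'⁻¹ w := by
      have := hs'.inv w
      rwa [map_inv_map] at this
    rw [Equiv.Perm.mul_apply, Equiv.Perm.mul_apply, e1, hi _ hv', hs', map_inv_map]
    show v ++ s' ((if a⁻¹ v = j then κ else 1) (s'⁻¹ w)) =
      v ++ (if v = a j then s * κ * s⁻¹ else 1) w
    by_cases hvj : v = a j
    · have hvj' : a⁻¹ v = j := by rw [hvj, inv_map]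
      rw [hvj'] at hs'
      rw [if_pos hvj', if_pos hvj, hs'.uniq hs]
      rfl
    · have hvj' : a⁻¹ v ≠ j := fun h => hvj (by rw [← h, map_inv_map])
      rw [if_neg hvj', if_neg hvj, Equiv.Perm.one_apply, map_inv_map, Equiv.Perm.one_apply]
  have h2 : Ins m (fun v => if v = j then κ⁻¹ else 1) i⁻¹ := by
    refine hi.inv.congr fun v _ => ?_
    by_cases h : v = j
    · rw [if_pos h, if_pos h]
    · rw [if_neg h, if_neg h, inv_one]
  rw [commutatorElement_def]
  exact h1.mul h2

end ins

end Pool.Agent.CB71
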