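import Mathlib
import Pool.Agent.CB71.Tree

set_option autoImplicit false

/-!
Word lengths adapted to a contracting group.
-/

namespace Pool.Agent.CB71

open scoped commutatorElement
open Pool.Agent.CW71

variable {X : Type}

/-- products of at most `n` elements of `B` -/
def Len (B : Set (Tr X)) (n : ℕ) (g : Tr X) : Prop :=
  ∃ l : List (Tr X), (∀ x ∈ l, x ∈ B) ∧ l.length ≤ n ∧ l.prod = g

lemma Len.mono {B : Set (Tr X)} {n m : ℕ} {g : Tr X} (h : Len B n g) (hnm : n ≤ m) :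
    Len B m g := by
  obtain ⟨l, h1, h2, h3⟩ := h
  exact ⟨l, h1, by omega, h3⟩

lemma Len.mul {B : Set (Tr X)} {n m : ℕ} {g g' : Tr X} (h : Len B n g) (h' : Len B m g') :
    Len B (n + m) (g * g') := by
  obtain ⟨l, h1, h2, h3⟩ := h
  obtain ⟨l', h1', h2', h3'⟩ := h'
  refine ⟨l ++ l', ?_, ?_, ?_⟩
  · intro x hx
    rcases List.mem_append.1 hx with hx | hx
    · exact h1 x hx
    · exact h1' x hx
  · rw [List.length_append]; omega
  · rw [List.prod_append, h3, h3']

lemma len_one (B : Set (Tr X)) (n : ℕ) : Len B n 1 := ⟨[], by simp, by simp, rfl⟩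

lemma len_mem {B : Set (Tr X)} {b : Tr X} (hb : b ∈ B) : Len B 1 b :=
  ⟨[b], by simpa using hb, by simp, by simp⟩

/-- A finite generating set adapted to the contraction. -/
structure Base (G : Subgroup (Tr X)) (B : Set (Tr X)) (k₀ : ℕ) : Prop where
  fin : B.Finite
  sub : B ⊆ G
  inv : ∀ b ∈ B, b⁻¹ ∈ B
  gen : ∀ g ∈ G, ∃ n, Len B n g
  sec : ∀ b ∈ B, ∀ v h, IsSection b v h → h ∈ B
  sec2 : ∀ a ∈ B, ∀ b ∈ B, ∀ v : List X, v.length = k₀ → ∀ h, IsSection (a * b) v h → h ∈ B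

lemma Len.inv {G : Subgroup (Tr X)} {B : Set (Tr X)} {k₀ : ℕ} (hB : Base G B k₀) {n : ℕ}
    {g : Tr X} (h : Len B n g) : Len B n g⁻¹ := by
  obtain ⟨l, h1, h2, h3⟩ := h
  refine ⟨(l.map (fun x => x⁻¹)).reverse, ?_, by simpa using h2, ?_⟩
  · intro x hx
    rw [List.mem_reverse, List.mem_map] at hx
    obtain ⟨y, hy, rfl⟩ := hx
    exact hB.inv y (h1 y hy)
  · rw [← List.prod_inv_reverse, h3]

lemma len_mem_group {G : Subgroup (Tr X)} {B : Set (Tr X)} {k₀ : ℕ} (hB : Base G B k₀) {n : ℕ}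
    {g : Tr X} (h : Len B n g) : g ∈ G := by
  obtain ⟨l, h1, _, rfl⟩ := h
  exact G.list_prod_mem fun x hx => hB.sub (h1 x hx)

theorem exists_base [Finite X] {G : Subgroup (Tr X)} (hG : SelfSimilar G) (hfg : G.FG)
    (hc : Contracting G) : ∃ B k₀, Base G B k₀ := by
  obtain ⟨S, hS⟩ := hfg
  obtain ⟨N, hNf, hNG, hN⟩ := hc
  have hSG : ∀ s ∈ S, s ∈ G := fun s hs => by rw [← hS]; exact Subgroup.subset_closure hs
  set S₁ : Set (Tr X) := ((S : Set (Tr X)) ∪ (S : Set (Tr X))⁻¹) ∪ ((N ∪ N⁻¹) ∪ {1}) with hS₁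
  have fS₁ : S₁.Finite :=
    (S.finite_toSet.union S.finite_toSet.inv).union ((hNf.union hNf.inv).union
      (Set.finite_singleton _))
  have gS₁ : ∀ s ∈ S₁, s ∈ G := by
    rintro s ((hs | hs) | ((hs | hs) | hs))
    · exact hSG s hs
    · have := hSG _ (Set.mem_inv.1 hs)
      rw [← inv_inv s]; exact G.inv_mem this
    · exact hNG hs
    · have := hNG (Set.mem_inv.1 hs)
      rw [← inv_inv s]; exact G.inv_mem this
    · rw [Set.mem_singleton_iff] at hs
      rw [hs]; exact G.one_mem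
  have iS₁ : ∀ s ∈ S₁, s⁻¹ ∈ S₁ := by
    rintro s ((hs | hs) | ((hs | hs) | hs))
    · exact Or.inl (Or.inr (by rw [Set.mem_inv, inv_inv]; exact hs))
    · exact Or.inl (Or.inl (Set.mem_inv.1 hs))
    · exact Or.inr (Or.inl (Or.inr (by rw [Set.mem_inv, inv_inv]; exact hs)))
    · exact Or.inr (Or.inl (Or.inl (Set.mem_inv.1 hs)))
    · rw [Set.mem_singleton_iff] at hs
      rw [hs, inv_one]; exact Or.inr (Or.inr rfl)
  have nS₁ : N ⊆ S₁ := fun x hx => Or.inr (Or.inl (Or.inl hx))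
  set B : Set (Tr X) := {h | ∃ s ∈ S₁, ∃ v, IsSection s v h} with hB
  have sB : S₁ ⊆ B := fun s hs => ⟨s, hs, [], isSection_nil hG (gS₁ s hs)⟩
  have bG : B ⊆ G := by
    rintro h ⟨s, hs, v, hv⟩
    obtain ⟨h', hh', e⟩ := sec_exists hG (gS₁ s hs) v
    rw [hv.uniq e]; exact hh'
  have fB : B.Finite := by
    have h1 : B = ⋃ s ∈ S₁, {h | ∃ v, IsSection s v h} := by
      ext h; simp [hB]
    rw [h1]
    refine fS₁.biUnion fun s hs => ?_
    obtain ⟨n, hn⟩ := hN s (gS₁ s hs)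
    have h2 : {h | ∃ v, IsSection s v h} ⊆
        N ∪ ⋃ v ∈ {v : List X | v.length < n}, {h | IsSection s v h} := by
      rintro h ⟨v, hv⟩
      by_cases hl : n ≤ v.length
      · obtain ⟨h', hh', e⟩ := hn v hl
        left
        rw [hv.uniq e]; exact hh'
      · right
        simp only [Set.mem_iUnion]
        exact ⟨v, by simpa using hl, hv⟩
    refine Set.Finite.subset (hNf.union ?_) h2
    refine (List.finite_length_lt X n).biUnion fun v _ => ?_
    apply Set.Subsingleton.finite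
    intro h hh h' hh'
    exact IsSection.uniq hh hh'
  -- the level for products of two elements
  have hk : ∃ k₀, ∀ a ∈ B, ∀ b ∈ B, ∀ v : List X, k₀ ≤ v.length → ∀ h, IsSection (a * b) v h →
      h ∈ B := by
    have fBB : (B ×ˢ B).Finite := fB.prod fB
    choose f hf using fun (g : G) => hN g.1 g.2
    have h1 : ∀ p ∈ B ×ˢ B, p.1 * p.2 ∈ G := fun p hp => G.mul_mem (bG hp.1) (bG hp.2)
    classical
    let F : Tr X × Tr X → ℕ := fun p => if h : p.1 * p.2 ∈ G then f ⟨p.1 * p.2, h⟩ else 0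
    obtain ⟨k₀, hk₀⟩ : ∃ k₀, ∀ p ∈ B ×ˢ B, F p ≤ k₀ := by
      obtain ⟨k, hk⟩ := (fBB.image F).bddAbove
      exact ⟨k, fun p hp => hk ⟨p, hp, rfl⟩⟩
    refine ⟨k₀, fun a ha b hb v hv h hs => ?_⟩
    have hab : a * b ∈ G := G.mul_mem (bG ha) (bG hb)
    have h2 := hk₀ (a, b) ⟨ha, hb⟩
    simp only [F, hab, dif_pos] at h2
    obtain ⟨h', hh', e⟩ := hf ⟨a * b, hab⟩ v (h2.trans hv)
    have h3 : IsSection (a * b) v h' := e
    rw [hs.uniq h3]
    exact sB (nS₁ hh')
  obtain ⟨k₀, hk₀⟩ := hk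
  refine ⟨B, k₀, fB, bG, ?_, ?_, ?_, fun a ha b hb v hv h hs => hk₀ a ha b hb v hv.ge h hs⟩
  · rintro b ⟨s, hs, v, hv⟩
    exact ⟨s⁻¹, iS₁ s hs, s v, hv.inv⟩
  · intro g hg
    rw [← hS] at hg
    induction hg using Subgroup.closure_induction with
    | mem x hx => exact ⟨1, len_mem (sB (Or.inl (Or.inl hx)))⟩
    | one => exact ⟨0, len_one B 0⟩
    | mul x y _ _ hx hy =>
      obtain ⟨n, hn⟩ := hx
      obtain ⟨m, hm⟩ := hy
      exact ⟨n + m, hn.mul hm⟩
    | inv x _ hx =>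
      obtain ⟨n, l, h1, h2, h3⟩ := hx
      refine ⟨n, (l.map (fun x => x⁻¹)).reverse, ?_, by simpa using h2, ?_⟩
      · intro x hx
        rw [List.mem_reverse, List.mem_map] at hx
        obtain ⟨y, hy, rfl⟩ := hx
        obtain ⟨s, hs, v, hv⟩ := h1 y hy
        exact ⟨s⁻¹, iS₁ s hs, s v, hv.inv⟩
      · rw [← List.prod_inv_reverse, h3]
  · rintro b ⟨s, hs, v, hv⟩ u h hu
    exact ⟨s, hs, v ++ u, hv.append hu⟩

section base

variable {G : Subgroup (Tr X)} {B : Set (Tr X)} {k₀ : ℕ}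

lemma Len.sec (hG : SelfSimilar G) (hB : Base G B k₀) {n : ℕ} {g h : Tr X} {v : List X}
    (hg : Len B n g) (hs : IsSection g v h) : Len B n h := by
  obtain ⟨l, h1, h2, rfl⟩ := hg
  refine Len.mono ?_ h2
  clear h2
  induction l generalizing h v with
  | nil =>
    have : h = 1 := hs.uniq (isSection_one v)
    rw [this]; exact len_one B _
  | cons a l ih =>
    have hl : l.prod ∈ G := G.list_prod_mem fun x hx => hB.sub (h1 x (List.mem_cons_of_mem _ hx))
    obtain ⟨h', hh', e'⟩ := sec_exists hG hl v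
    obtain ⟨h'', hh'', e''⟩ := sec_exists hG (hB.sub (h1 a List.mem_cons_self)) (l.prod v)
    have e : h = h'' * h' := hs.uniq (e'.mul e'')
    rw [e, List.length_cons, add_comm]
    exact (len_mem (hB.sec a (h1 a List.mem_cons_self) _ _ e'')).mul
      (ih (fun x hx => h1 x (List.mem_cons_of_mem _ hx)) e')

lemma Len.half (hG : SelfSimilar G) (hB : Base G B k₀) {n : ℕ} {g h : Tr X} {v : List X}
    (hv : v.length = k₀) (hg : Len B n g) (hs : IsSection g v h) : Len B ((n + 1) / 2) h := by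
  obtain ⟨l, h1, h2, rfl⟩ := hg
  refine Len.mono (n := (l.length + 1) / 2) ?_ (by omega)
  clear h2
  induction l using List.twoStepInduction generalizing h v with
  | nil =>
    have : h = 1 := hs.uniq (isSection_one v)
    rw [this]; exact len_one B _
  | singleton a =>
    rw [List.prod_singleton] at hs
    exact (len_mem (hB.sec a (h1 a List.mem_cons_self) _ _ hs)).mono (by simp)
  | cons_cons a b l ih _ =>
    have ha := h1 a List.mem_cons_self
    have hb := h1 b (List.mem_cons_of_mem _ List.mem_cons_self)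
    have hl' : ∀ x ∈ l, x ∈ B := fun x hx =>
      h1 x (List.mem_cons_of_mem _ (List.mem_cons_of_mem _ hx))
    have hl : l.prod ∈ G := G.list_prod_mem fun x hx => hB.sub (hl' x hx)
    obtain ⟨h', hh', e'⟩ := sec_exists hG hl v
    obtain ⟨h'', hh'', e''⟩ := sec_exists hG (G.mul_mem (hB.sub ha) (hB.sub hb)) (l.prod v)
    have e : h = h'' * h' := by
      apply hs.uniq
      rw [List.prod_cons, List.prod_cons, ← mul_assoc]
      exact e'.mul e''
    have hlv : (l.prod v).length = k₀ := by rw [length_map hG hl, hv]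
    have h3 := (len_mem (hB.sec2 a ha b hb _ hlv _ e'')).mul (ih hv hl' e')
    rw [e]
    refine h3.mono ?_
    simp only [List.length_cons]
    omega

lemma Len.level (hG : SelfSimilar G) (hB : Base G B k₀) (q : ℕ) {n : ℕ} {g h : Tr X}
    {v : List X} (hv : v.length = q * k₀) (hg : Len B n g) (hs : IsSection g v h) :
    ∃ n', Len B n' h ∧ 2 ^ q * n' ≤ n + 2 ^ q := by
  induction q generalizing v h with
  | zero =>
    refine ⟨n, hg.sec hG hB hs, by simp⟩
  | succ q ih =>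
    have hgG := len_mem_group hB hg
    have hv1 : (v.take (q * k₀)).length = q * k₀ := by
      rw [List.length_take, hv, add_mul]; omega
    have hv2 : (v.drop (q * k₀)).length = k₀ := by
      rw [List.length_drop, hv, add_mul]; omega
    obtain ⟨h₁, hh₁, e₁⟩ := sec_exists hG hgG (v.take (q * k₀))
    obtain ⟨h₂, hh₂, e₂⟩ := sec_exists hG hh₁ (v.drop (q * k₀))
    have e₃ := e₁.append e₂
    rw [List.take_append_drop] at e₃
    obtain ⟨n₁, hn₁, hle⟩ := ih hv1 e₁
    have h4 := hn₁.half hG hB hv2 e₂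
    rw [hs.uniq e₃]
    refine ⟨_, h4, ?_⟩
    have h5 : 2 * ((n₁ + 1) / 2) ≤ n₁ + 1 := Nat.mul_div_le _ _
    calc 2 ^ (q + 1) * ((n₁ + 1) / 2) = 2 ^ q * (2 * ((n₁ + 1) / 2)) := by ring
      _ ≤ 2 ^ q * (n₁ + 1) := Nat.mul_le_mul_left _ h5
      _ = 2 ^ q * n₁ + 2 ^ q := by ring
      _ ≤ n + 2 ^ q + 2 ^ q := by omega
      _ = n + 2 ^ (q + 1) := by ring

lemma len_finite (hB : Base G B k₀) (n : ℕ) : {g | Len B n g}.Finite := by
  have : Finite B := hB.fin
  have h1 : {g | Len B n g} ⊆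
      (fun l : List B => (l.map Subtype.val).prod) '' {l : List B | l.length ≤ n} := by
    rintro g ⟨l, h1, h2, rfl⟩
    refine ⟨l.attach.map (fun x => ⟨x.1, h1 x.1 x.2⟩), ?_, ?_⟩
    · simpa using h2
    · simp
  exact ((List.finite_length_le B n).image _).subset h1

open Classical in
/-- the word length -/
noncomputable def L (B : Set (Tr X)) (g : Tr X) : ℕ := sInf {n | Len B n g}

lemma L_le {n : ℕ} {g : Tr X} (h : Len B n g) : L B g ≤ n := Nat.sInf_le h

lemma len_L (hB : Base G B k₀) {g : Tr X} (hg : g ∈ G) : Len B (L B g) g :=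
  Nat.sInf_mem (s := {n | Len B n g}) (hB.gen g hg)

lemma L_mul (hB : Base G B k₀) {g h : Tr X} (hg : g ∈ G) (hh : h ∈ G) :
    L B (g * h) ≤ L B g + L B h := L_le ((len_L hB hg).mul (len_L hB hh))

lemma L_inv (hB : Base G B k₀) {g : Tr X} (hg : g ∈ G) : L B g⁻¹ ≤ L B g :=
  L_le ((len_L hB hg).inv hB)

lemma L_one : L B (1 : Tr X) = 0 := Nat.le_zero.1 (L_le (len_one B 0))

lemma L_sec (hG : SelfSimilar G) (hB : Base G B k₀) {g h : Tr X} {v : List X} (hg : g ∈ G)
    (hs : IsSection g v h) : L B h ≤ L B g := L_le ((len_L hB hg).sec hG hB hs)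

end base

end Pool.Agent.CB71
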