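import Mathlib
import Pool.Agent.CB71.Len

set_option autoImplicit false

/-!
Sections, insertion at a level and moves inside a self-similar group `G`; the groups of sections
`secG H v`.
-/

namespace Pool.Agent.CB71

open scoped commutatorElement
open Pool.Agent.CW71

variable {X : Type} {G : Subgroup (Tr X)}

/-- the section of `g` at `v` as an element of `G` -/
noncomputable def sec (hG : SelfSimilar G) (g : G) (v : List X) : G :=
  ⟨Classical.choose (sec_exists hG g.2 v), (Classical.choose_spec (sec_exists hG g.2 v)).1⟩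

lemma sec_spec (hG : SelfSimilar G) (g : G) (v : List X) :
    IsSection (g : Tr X) v (sec hG g v : Tr X) :=
  (Classical.choose_spec (sec_exists hG g.2 v)).2

lemma sec_eq (hG : SelfSimilar G) {g s : G} {v : List X} (h : IsSection (g : Tr X) v (s : Tr X)) :
    sec hG g v = s := Subtype.ext ((sec_spec hG g v).uniq h)

lemma sec_mul (hG : SelfSimilar G) (g h : G) (v : List X) :
    sec hG (g * h) v = sec hG g (h • v) * sec hG h v :=
  sec_eq hG ((sec_spec hG h v).mul (sec_spec hG g _))

lemma sec_inv (hG : SelfSimilar G) (g : G) (v : List X) :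
    sec hG g⁻¹ (g • v) = (sec hG g v)⁻¹ :=
  sec_eq hG (sec_spec hG g v).inv

lemma sec_inv' (hG : SelfSimilar G) (g : G) (v : List X) :
    sec hG g⁻¹ v = (sec hG g (g⁻¹ • v))⁻¹ := by
  have := sec_inv hG g (g⁻¹ • v)
  rwa [smul_inv_smul] at this

lemma sec_one (hG : SelfSimilar G) (v : List X) : sec hG 1 v = 1 :=
  sec_eq hG (isSection_one v)

lemma len_act (hG : SelfSimilar G) (g : G) (v : List X) : (g • v).length = v.length :=
  length_map hG g.2 v

/-- insertion at level `m` inside `G` -/
def InsG (m : ℕ) (k : List X → G) (g : G) : Prop := Ins m (fun v => (k v : Tr X)) (g : Tr X)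

section insG

variable {m : ℕ} {k k' : List X → G} {g g' : G}

lemma InsG.mul (h : InsG m k g) (h' : InsG m k' g') : InsG m (fun v => k v * k' v) (g * g') :=
  Ins.mul h h'

lemma InsG.inv (h : InsG m k g) : InsG m (fun v => (k v)⁻¹) g⁻¹ := Ins.inv h

lemma insG_one (m : ℕ) : InsG m (fun _ => (1 : G)) 1 := ins_one m

lemma InsG.congr (h : InsG m k g) (hk : ∀ v : List X, v.length = m → k v = k' v) :
    InsG m k' g := Ins.congr h fun v hv => congrArg Subtype.val (hk v hv)

lemma InsG.fix (hG : SelfSimilar G) (h : InsG m k g) {v : List X} (hv : v.length = m) :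
    g • v = v := Ins.fix hG (fun v => (k v).2) h hv

lemma InsG.sec (hG : SelfSimilar G) (h : InsG m k g) {v : List X} (hv : v.length = m) :
    CB71.sec hG g v = k v := sec_eq hG (Ins.sec hG (fun v => (k v).2) h hv)

lemma insG_of_sec (hG : SelfSimilar G) (hg : ∀ v : List X, v.length = m → g • v = v)
    (hk : ∀ v : List X, v.length = m → CB71.sec hG g v = k v) : InsG m k g := by
  intro v hv w
  have h1 := sec_spec hG g v w
  have h2 : (g : Tr X) v = v := hg v hv
  rw [h1, h2, hk v hv]

lemma insG_unique [Nonempty X] (hG : SelfSimilar G) (h : InsG m k g) (h' : InsG m k' g')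
    (hk : ∀ v : List X, v.length = m → k v = k' v) : g = g' :=
  Subtype.ext (ins_unique hG g.2 g'.2 h h' fun v hv => congrArg Subtype.val (hk v hv))

lemma InsG.conj (hG : SelfSimilar G) (h : InsG m k g) (a : G) :
    InsG m (fun v => CB71.sec hG a (a⁻¹ • v) * k (a⁻¹ • v) * (CB71.sec hG a (a⁻¹ • v))⁻¹)
      (a * g * a⁻¹) := by
  have hl : ∀ v : List X, v.length = m → (a⁻¹ • v).length = m := fun v hv => by
    rw [len_act hG, hv]
  apply insG_of_sec hG
  · intro v hv
    rw [mul_smul, mul_smul, h.fix hG (hl v hv), smul_inv_smul]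
  · intro v hv
    rw [sec_mul, sec_mul, h.fix hG (hl v hv), h.sec hG (hl v hv), sec_inv']

end insG

/-- Standing hypotheses: self-similarity and insertion of elements of `K`. -/
structure Br (G : Subgroup (Tr X)) (K : Subgroup G) : Prop where
  self : SelfSimilar G
  ins : ∀ (m : ℕ) (k : List X → G), (∀ v, k v ∈ K) → ∃ g ∈ K, InsG m k g

section br

variable {K : Subgroup G} [hKn : K.Normal]

open Classical in
/-- the function with value `κ` at `j` and `1` elsewhere -/
noncomputable def del (j : List X) (κ : G) : List X → G := fun v => if v = j then κ else 1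

lemma del_self (j : List X) (κ : G) : del j κ j = κ := by
  classical
  exact if_pos rfl

lemma del_ne {j v : List X} (κ : G) (h : v ≠ j) : del j κ v = 1 := by
  classical
  exact if_neg h

lemma del_mem {j : List X} {κ : G} (h : κ ∈ K) (v : List X) : del j κ v ∈ K := by
  by_cases hv : v = j
  · rw [hv, del_self]; exact h
  · rw [del_ne κ hv]; exact K.one_mem

/-- the commutator of an element with an element concentrated at one word -/
lemma comm_del (hG : SelfSimilar G) {m : ℕ} {a i κ : G} {j : List X}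
    (hi : InsG m (del j κ) i) :
    InsG m (fun v => del (a • j) (sec hG a j * κ * (sec hG a j)⁻¹) v * del j κ⁻¹ v) ⁅a, i⁆ := by
  have h1 := hi.conj hG a
  have h2 : InsG m (del j κ⁻¹) i⁻¹ := by
    refine hi.inv.congr fun v _ => ?_
    by_cases h : v = j
    · rw [h, del_self, del_self]
    · rw [del_ne _ h, del_ne _ h, inv_one]
  rw [commutatorElement_def]
  refine (h1.mul h2).congr fun v _ => ?_
  congr 1
  by_cases h : v = a • j
  · rw [h, inv_smul_smul, del_self, del_self]
  · have h' : a⁻¹ • v ≠ j := fun e => h (by rw [← e, smul_inv_smul])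
    rw [del_ne _ h, del_ne _ h']
    group

open Classical in
/-- the function after the move of `κ` from `j` to `a • j` -/
noncomputable def mv (hG : SelfSimilar G) (h : List X → G) (a : G) (j : List X) (κ : G) :
    List X → G := fun v =>
  if v = a • j then h v * (sec hG a j * κ * (sec hG a j)⁻¹) else if v = j then h v * κ⁻¹ else h v

lemma mv_target (hG : SelfSimilar G) (h : List X → G) (a : G) (j : List X) (κ : G) :
    mv hG h a j κ (a • j) = h (a • j) * (sec hG a j * κ * (sec hG a j)⁻¹) := by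
  classical
  exact if_pos rfl

lemma mv_source (hG : SelfSimilar G) (h : List X → G) {a : G} {j : List X} (haj : a • j ≠ j)
    (κ : G) : mv hG h a j κ j = h j * κ⁻¹ := by
  classical
  unfold mv
  rw [if_neg (Ne.symm haj), if_pos rfl]

lemma mv_other (hG : SelfSimilar G) (h : List X → G) {a : G} {j v : List X} (hv : v ≠ a • j)
    (hv' : v ≠ j) (κ : G) : mv hG h a j κ v = h v := by
  classical
  unfold mv
  rw [if_neg hv, if_neg hv']

lemma mv_mem (hG : SelfSimilar G) {h : List X → G} (hh : ∀ v, h v ∈ K) (a : G) (j : List X)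
    {κ : G} (hκ : κ ∈ K) (v : List X) : mv hG h a j κ v ∈ K := by
  classical
  unfold mv
  split
  · exact K.mul_mem (hh v) (hKn.conj_mem κ hκ _)
  · split
    · exact K.mul_mem (hh v) (K.inv_mem hκ)
    · exact hh v

/-- moving an element of `K` from `j` to `a • j` -/
lemma moveG (hB : Br G K) {m : ℕ} {h : List X → G} {g a κ : G} {j : List X}
    (hg : g ∈ K) (hi : InsG m h g) (haj : a • j ≠ j) (hκ : κ ∈ K) :
    ∃ g' ∈ K, ∃ k ∈ K, g = g' * ⁅a⁻¹, k⁆ ∧ InsG m (mv hB.self h a j κ) g' := by
  obtain ⟨i, hiK, hii⟩ := hB.ins m (del j κ) (del_mem hκ)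
  have h1 := comm_del hB.self (a := a) hii
  have hc : ⁅a, i⁆ ∈ K := comm_mem_of_normal a hiK
  refine ⟨g * ⁅a, i⁆, K.mul_mem hg hc, a * i * a⁻¹, hKn.conj_mem i hiK a, ?_, ?_⟩
  · simp only [commutatorElement_def]; group
  · refine (hi.mul h1).congr fun v _ => ?_
    by_cases h2 : v = a • j
    · have h3 : v ≠ j := by rw [h2]; exact haj
      rw [h2] at h3 ⊢
      rw [mv_target, del_self, del_ne _ h3, mul_one]
    · by_cases h3 : v = j
      · rw [h3, mv_source _ _ haj, del_ne _ (Ne.symm haj), del_self, one_mul]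
      · rw [mv_other _ _ h2 h3, del_ne _ h2, del_ne _ h3, one_mul, mul_one]

/-! ### Groups of sections -/

/-- the group of the sections at `v` of the elements of `H` fixing `v` -/
def secG (hG : SelfSimilar G) (H : Subgroup G) (v : List X) : Subgroup G where
  carrier := {s | ∃ g ∈ H, g • v = v ∧ sec hG g v = s}
  one_mem' := ⟨1, H.one_mem, one_smul _ _, sec_one hG v⟩
  mul_mem' := by
    rintro s t ⟨g, hg, hgv, rfl⟩ ⟨g', hg', hgv', rfl⟩
    exact ⟨g * g', H.mul_mem hg hg', by rw [mul_smul, hgv', hgv], by rw [sec_mul, hgv']⟩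
  inv_mem' := by
    rintro s ⟨g, hg, hgv, rfl⟩
    refine ⟨g⁻¹, H.inv_mem hg, by rw [inv_smul_eq_iff, hgv], ?_⟩
    have := sec_inv hG g v
    rwa [hgv] at this

lemma K_le_secG (hB : Br G K) {H : Subgroup G} (hKH : K ≤ H) (v : List X) :
    K ≤ secG hB.self H v := by
  intro κ hκ
  obtain ⟨i, hiK, hii⟩ := hB.ins v.length (del v κ) (del_mem hκ)
  exact ⟨i, hKH hiK, hii.fix hB.self rfl, by rw [hii.sec hB.self rfl, del_self]⟩

lemma secG_conj (hG : SelfSimilar G) {H : Subgroup G} {a : G} (ha : a ∈ H) {v : List X} {s : G}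
    (hs : s ∈ secG hG H v) : sec hG a v * s * (sec hG a v)⁻¹ ∈ secG hG H (a • v) := by
  obtain ⟨g, hg, hgv, rfl⟩ := hs
  refine ⟨a * g * a⁻¹, H.mul_mem (H.mul_mem ha hg) (H.inv_mem ha), ?_, ?_⟩
  · rw [mul_smul, mul_smul, inv_smul_smul, hgv]
  · rw [sec_mul, sec_mul, inv_smul_smul, hgv, sec_inv', inv_smul_smul]

/-- conjugation maps `[A, K]` into `[A', K]` -/
lemma comm_conj {A A' : Subgroup G} (s : G) (h : ∀ x ∈ A, s * x * s⁻¹ ∈ A') {x : G}
    (hx : x ∈ ⁅A, K⁆) : s * x * s⁻¹ ∈ ⁅A', K⁆ := by
  have h1 : (⁅A, K⁆ : Subgroup G).map (MulAut.conj s).toMonoidHom ≤ ⁅A', K⁆ := by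
    rw [Subgroup.map_commutator]
    apply Subgroup.commutator_mono
    · rintro y ⟨z, hz, rfl⟩
      exact h z hz
    · rintro y ⟨z, hz, rfl⟩
      exact hKn.conj_mem z hz s
  exact h1 ⟨x, hx, rfl⟩

lemma secG_comm_conj (hG : SelfSimilar G) {H : Subgroup G} {a : G} (ha : a ∈ H) {v : List X}
    {x : G} (hx : x ∈ ⁅secG hG H v, K⁆) :
    sec hG a v * x * (sec hG a v)⁻¹ ∈ ⁅secG hG H (a • v), K⁆ :=
  comm_conj _ (fun _ hy => secG_conj hG ha hy) hx

lemma comm_le_self (A : Subgroup G) : ⁅A, K⁆ ≤ K := by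
  rw [Subgroup.commutator_le]
  intro g _ k hk
  exact comm_mem_of_normal g hk

/-! ### Orbit representatives -/

/-- the orbit relation of `H` on words -/
def orbG (H : Subgroup G) : Setoid (List X) where
  r v w := ∃ a ∈ H, a • v = w
  iseqv :=
    { refl := fun v => ⟨1, H.one_mem, one_smul _ _⟩
      symm := by
        rintro v w ⟨a, ha, rfl⟩
        exact ⟨a⁻¹, H.inv_mem ha, inv_smul_smul _ _⟩
      trans := by
        rintro u v w ⟨a, ha, rfl⟩ ⟨b, hb, rfl⟩
        exact ⟨b * a, H.mul_mem hb ha, mul_smul _ _ _⟩ }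

/-- the representative of the orbit -/
noncomputable def rtG (H : Subgroup G) (v : List X) : List X :=
  Quotient.out (Quotient.mk (orbG H) v)

lemma rtG_rel (H : Subgroup G) (v : List X) : ∃ a ∈ H, a • v = rtG H v := by
  have h : (orbG H).r (rtG H v) v := Quotient.exact (Quotient.out_eq (Quotient.mk (orbG H) v))
  exact (orbG H).symm h

lemma rtG_act {H : Subgroup G} {a : G} (ha : a ∈ H) (v : List X) : rtG H (a • v) = rtG H v := by
  have h : Quotient.mk (orbG H) (a • v) = Quotient.mk (orbG H) v :=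
    Quotient.sound ((orbG H).symm ⟨a, ha, rfl⟩)
  rw [rtG, h, rtG]

lemma rtG_rtG (H : Subgroup G) (v : List X) : rtG H (rtG H v) = rtG H v := by
  obtain ⟨a, ha, e⟩ := rtG_rel H v
  rw [← e, rtG_act ha, e]

lemma rtG_length (hG : SelfSimilar G) (H : Subgroup G) (v : List X) :
    (rtG H v).length = v.length := by
  obtain ⟨a, ha, e⟩ := rtG_rel H v
  rw [← e, len_act hG]

/-- elements of `H` moving the words to the representatives of their orbits, trivial at the
representatives -/
lemma exists_mover (H : Subgroup G) : ∃ a : List X → G, (∀ v, a v ∈ H) ∧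
    (∀ v, a v • v = rtG H v) ∧ ∀ v, rtG H v = v → a v = 1 := by
  classical
  choose a ha hav using fun v => rtG_rel (X := X) H v
  refine ⟨fun v => if rtG H v = v then 1 else a v, ?_, ?_, ?_⟩
  · intro v
    show (if rtG H v = v then 1 else a v) ∈ H
    split
    · exact H.one_mem
    · exact ha v
  · intro v
    show (if rtG H v = v then 1 else a v) • v = rtG H v
    split
    · rename_i h; rw [one_smul, h]
    · exact hav v
  · intro v hv
    exact if_pos hv

end br

end Pool.Agent.CB71
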