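import Mathlib
import Pool.Agent.CB71.GT

set_option autoImplicit false
set_option linter.unusedSectionVars false

/-!
Products of commutators of elements of `H` with elements of `K`, and their insertion at a level.
-/

namespace Pool.Agent.CB71

open scoped commutatorElement
open Pool.Agent.CW71

variable {X : Type} {G : Subgroup (Tr X)}

section gen

variable {Γ : Type*} [Group Γ] {K : Subgroup Γ} [hKn : K.Normal]

/-- `S` is a list of elements of `H` generating `H` as a monoid -/
structure GenList (H : Subgroup Γ) (S : List Γ) : Prop where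
  sub : ∀ s ∈ S, s ∈ H
  gen : ∀ g ∈ H, ∃ l : List Γ, (∀ x ∈ l, x ∈ S) ∧ l.prod = g

lemma exists_genList (H : Subgroup Γ) (hH : H.FG) : ∃ S, GenList H S := by
  classical
  obtain ⟨T, hT⟩ := hH
  refine ⟨T.toList ++ T.toList.map (fun x => x⁻¹), ?_, ?_⟩
  · intro s hs
    have hTH : ∀ x ∈ T, x ∈ H := fun x hx => by
      rw [← hT]; exact Subgroup.subset_closure hx
    rcases List.mem_append.1 hs with h | h
    · exact hTH s (Finset.mem_toList.1 h)
    · obtain ⟨x, hx, rfl⟩ := List.mem_map.1 h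
      exact H.inv_mem (hTH x (Finset.mem_toList.1 hx))
  · intro g hg
    rw [← hT] at hg
    induction hg using Subgroup.closure_induction'' with
    | mem x hx => exact ⟨[x], by simpa using Or.inl hx, by simp⟩
    | inv_mem x hx => exact ⟨[x⁻¹], by simpa using Or.inr hx, by simp⟩
    | one => exact ⟨[], by simp, by simp⟩
    | mul x y _ _ hx hy =>
      obtain ⟨l, h1, h2⟩ := hx
      obtain ⟨l', h1', h2'⟩ := hy
      refine ⟨l ++ l', ?_, by rw [List.prod_append, h2, h2']⟩
      intro z hz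
      rcases List.mem_append.1 hz with h | h
      · exact h1 z h
      · exact h1' z h

lemma R_word {H : Subgroup Γ} {S : List Γ} (hS : GenList H S) {a : Γ} (ha : a ∈ H) :
    ∃ C, ∀ k ∈ K, ⁅a, k⁆ ∈ R K S C := by
  obtain ⟨l, hl, rfl⟩ := hS.gen a ha
  exact ⟨_, fun k hk => R_comm_word l hl hk⟩

lemma exists_RH {H : Subgroup Γ} {S : List Γ} (hS : GenList H S) {x : Γ} (hx : x ∈ ⁅H, K⁆) :
    ∃ M, x ∈ R K S M := by
  rw [Subgroup.commutator_def] at hx
  induction hx using Subgroup.closure_induction'' with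
  | mem x hx =>
    obtain ⟨g, hg, k, hk, rfl⟩ := hx
    obtain ⟨C, hC⟩ := R_word (K := K) hS hg
    exact ⟨C, hC k hk⟩
  | inv_mem x hx =>
    obtain ⟨g, hg, k, hk, rfl⟩ := hx
    have e : ⁅g, k⁆⁻¹ = ⁅g⁻¹, g * k * g⁻¹⁆ := by simp only [commutatorElement_def]; group
    rw [e]
    obtain ⟨C, hC⟩ := R_word (K := K) hS (H.inv_mem hg)
    exact ⟨C, hC _ (hKn.conj_mem k hk g)⟩
  | one => exact ⟨0, one_mem_R S 0⟩
  | mul x y _ _ hx hy =>
    obtain ⟨M, hM⟩ := hx
    obtain ⟨M', hM'⟩ := hy
    exact ⟨_, R_mul hM hM'⟩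

lemma CK_comm {M : ℕ} {x : Γ} {H : Subgroup Γ} (hKH : K ≤ H) (hx : x ∈ CK K M) :
    x ∈ ⁅H, K⁆ := by
  induction M generalizing x with
  | zero =>
    have : x = 1 := hx
    rw [this]; exact Subgroup.one_mem _
  | succ n ih =>
    obtain ⟨p, hp, q, hq, z, hz, rfl⟩ := hx
    exact Subgroup.mul_mem _ (Subgroup.commutator_mem_commutator (hKH hp) hq) (ih hz)

lemma R_comm {H : Subgroup Γ} {S : List Γ} (hKH : K ≤ H) (hS : ∀ s ∈ S, s ∈ H) {M : ℕ} {x : Γ}
    (hx : x ∈ R K S M) : x ∈ ⁅H, K⁆ := by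
  induction S generalizing x with
  | nil => exact CK_comm hKH hx
  | cons s S ih =>
    obtain ⟨m, hm, y, hy, rfl⟩ := hx
    exact Subgroup.mul_mem _
      (Subgroup.commutator_mem_commutator (hS s List.mem_cons_self) hm)
      (ih (fun t ht => hS t (List.mem_cons_of_mem _ ht)) hy)

lemma R_split {S : List Γ} {M : ℕ} {x : Γ} (hx : x ∈ R K S M) :
    ∃ y ∈ R K S 0, ∃ κ ∈ CK K M, x = y * κ := by
  induction S generalizing x with
  | nil => exact ⟨1, rfl, x, hx, by simp⟩
  | cons s S ih =>
    obtain ⟨m, hm, y, hy, rfl⟩ := hx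
    obtain ⟨y', hy', κ, hκ, rfl⟩ := ih hy
    exact ⟨⁅s, m⁆ * y', ⟨m, hm, y', hy', rfl⟩, κ, hκ, by rw [mul_assoc]⟩

lemma R_join {S : List Γ} {M : ℕ} {y κ : Γ} (hy : y ∈ R K S 0) (hκ : κ ∈ CK K M) :
    y * κ ∈ R K S M := by
  have := R_mul_CK hy hκ
  rwa [Nat.zero_add] at this

lemma CK_R {S : List Γ} {M : ℕ} {κ : Γ} (hκ : κ ∈ CK K M) : κ ∈ R K S M := by
  have := R_join (one_mem_R (K := K) S 0) hκ
  rwa [one_mul] at this

/-- a uniform bound for a finite set -/
lemma finite_R {H : Subgroup Γ} {S : List Γ} (hS : GenList H S) {T : Set Γ} (hT : T.Finite)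
    (hTH : ∀ t ∈ T, t ∈ ⁅H, K⁆) : ∃ C, ∀ t ∈ T, t ∈ R K S C := by
  classical
  have h1 : ∀ t : Γ, ∃ n, t ∈ T → t ∈ R K S n := by
    intro t
    by_cases ht : t ∈ T
    · obtain ⟨n, hn⟩ := exists_RH hS (hTH t ht)
      exact ⟨n, fun _ => hn⟩
    · exact ⟨0, fun h => absurd h ht⟩
  choose f hf using h1
  obtain ⟨C, hC⟩ := (hT.image f).bddAbove
  exact ⟨C, fun t ht => R_mono (hC ⟨t, ht, rfl⟩) (hf t ht)⟩

end gen

section lift

variable {K : Subgroup G} [hKn : K.Normal]

lemma CK_par_existsG (hB : Br G K) (m : ℕ) {M : ℕ} {h : List X → G}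
    (hh : ∀ v, h v ∈ CK K M) : ∃ g ∈ CK K M, InsG m h g := by
  induction M generalizing h with
  | zero =>
    refine ⟨1, rfl, (insG_one m).congr fun v _ => ?_⟩
    exact (show h v = 1 from hh v).symm
  | succ M ih =>
    choose p hp q hq z hz e using hh
    obtain ⟨P, hP, hP'⟩ := hB.ins m p hp
    obtain ⟨Q, hQ, hQ'⟩ := hB.ins m q hq
    obtain ⟨Z, hZ, hZ'⟩ := ih hz
    refine ⟨⁅P, Q⁆ * Z, ⟨P, hP, Q, hQ, Z, hZ, rfl⟩, ?_⟩
    rw [commutatorElement_def]
    refine ((((hP'.mul hQ').mul hP'.inv).mul hQ'.inv).mul hZ').congr fun v _ => ?_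
    rw [e v, commutatorElement_def]

/-- restriction of a function to the words of length `m` -/
lemma exists_restrict (m : ℕ) (h : List X → G) (P : G → Prop) (h1 : P 1)
    (hh : ∀ v : List X, v.length = m → P (h v)) :
    ∃ h' : List X → G, (∀ v, P (h' v)) ∧ (∀ v : List X, v.length = m → h' v = h v) := by
  classical
  refine ⟨fun v => if v.length = m then h v else 1, ?_, ?_⟩
  · intro v
    show P (if v.length = m then h v else 1)
    split
    · rename_i hv; exact hh v hv
    · exact h1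
  · intro v hv
    exact if_pos hv

lemma CK_parG [Nonempty X] (hB : Br G K) {m M : ℕ} {h : List X → G} {g : G}
    (hi : InsG m h g) (hh : ∀ v : List X, v.length = m → h v ∈ CK K M) : g ∈ CK K M := by
  obtain ⟨h', h1, h2⟩ := exists_restrict m h (fun x => x ∈ CK K M) (one_mem_CK M) hh
  obtain ⟨g', hg', hi'⟩ := CK_par_existsG hB m h1
  have : g = g' := insG_unique hB.self hi hi' fun v hv => (h2 v hv).symm
  rw [this]; exact hg'

/-- insertion at one word of a product of commutators with generators -/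
lemma lift0 [Nonempty X] (hB : Br G K) {H : Subgroup G} {S : List G}
    (hS : GenList H S) {m : ℕ} {v : List X} (T : List G)
    (hT : ∀ s ∈ T, s ∈ secG hB.self H v) :
    ∃ C, ∀ x ∈ R K T 0, ∀ g, InsG m (del v x) g → g ∈ R K S C := by
  induction T with
  | nil =>
    refine ⟨0, fun x hx g hg => ?_⟩
    have hx' : x = 1 := hx
    have : g = 1 := insG_unique hB.self hg (insG_one m) fun u _ => by
      by_cases hu : u = v
      · rw [hu, del_self, hx']
      · rw [del_ne _ hu]
    rw [this]; exact one_mem_R S 0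
  | cons s T ih =>
    obtain ⟨C, hC⟩ := ih fun t ht => hT t (List.mem_cons_of_mem _ ht)
    obtain ⟨ŝ, hŝ, hŝv, hsec⟩ := hT s List.mem_cons_self
    obtain ⟨C', hC'⟩ := R_word (K := K) hS hŝ
    refine ⟨C' + C + S.length * S.length, ?_⟩
    rintro x ⟨μ, hμ, y, hy, rfl⟩ g hg
    have hyK : y ∈ K := R_sub hy
    obtain ⟨i, hiK, hii⟩ := hB.ins m (del v μ) (del_mem hμ)
    obtain ⟨g', hg'K, hg'⟩ := hB.ins m (del v y) (del_mem hyK)
    have h1 := comm_del hB.self (a := ŝ) hii
    have h2 : g = ⁅ŝ, i⁆ * g' := by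
      refine insG_unique hB.self hg (h1.mul hg') fun u _ => ?_
      rw [hŝv, hsec]
      by_cases hu : u = v
      · rw [hu, del_self, del_self, del_self, del_self, commutatorElement_def]
      · rw [del_ne _ hu, del_ne _ hu, del_ne _ hu, del_ne _ hu]; simp
    rw [h2]
    exact R_mul (hC' i hiK) (hC y hy g' hg')

/-- insertion of products of commutators with generators at all words of a list -/
lemma liftR_aux [Nonempty X] (hB : Br G K) {H : Subgroup G} {S : List G}
    (hS : GenList H S) (Sv : List X → List G)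
    (hSv : ∀ v, ∀ s ∈ Sv v, s ∈ secG hB.self H v) {m : ℕ} (l : List (List X)) :
    (∀ v ∈ l, v.length = m) → l.Nodup →
    ∃ C, ∀ (M : ℕ) (d : List X → G) (g : G), (∀ v ∈ l, d v ∈ R K (Sv v) M) →
      (∀ v : List X, v.length = m → v ∉ l → d v ∈ CK K M) → InsG m d g → g ∈ R K S (C + M) := by
  induction l with
  | nil =>
    intro _ _
    refine ⟨0, fun M d g _ h2 hi => ?_⟩
    rw [Nat.zero_add]
    exact CK_R (CK_parG hB hi fun v hv => h2 v hv (by simp))
  | cons v l ih =>
    intro hl hnd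
    obtain ⟨hvl, hnd'⟩ := List.nodup_cons.1 hnd
    obtain ⟨C, hC⟩ := ih (fun u hu => hl u (List.mem_cons_of_mem _ hu)) hnd'
    have hv : v.length = m := hl v List.mem_cons_self
    obtain ⟨C', hC'⟩ := lift0 (K := K) (m := m) hB hS (Sv v) (hSv v)
    refine ⟨C' + C + S.length * S.length, fun M d g h1 h2 hi => ?_⟩
    obtain ⟨x, hx, κ, hκ, e⟩ := R_split (h1 v List.mem_cons_self)
    have hd : ∀ u : List X, u.length = m → d u ∈ K := by
      intro u hu
      by_cases hul : u ∈ v :: l
      · exact R_sub (h1 u hul)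
      · exact CK_sub (h2 u hu hul)
    classical
    obtain ⟨d', hd'K, hd'⟩ := exists_restrict m (fun u => if u = v then κ else d u)
      (fun x => x ∈ K) K.one_mem (fun u hu => by
        show (if u = v then κ else d u) ∈ K
        split
        · exact CK_sub hκ
        · exact hd u hu)
    obtain ⟨g', hg'K, hg'⟩ := hB.ins m d' hd'K
    obtain ⟨i, hiK, hii⟩ := hB.ins m (del v x) (del_mem (R_sub hx))
    have h3 : g = i * g' := by
      refine insG_unique hB.self hi (hii.mul hg') fun u hu => ?_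
      rw [hd' u hu]
      by_cases huv : u = v
      · rw [if_pos huv, huv, del_self, e]
      · rw [if_neg huv, del_ne _ huv, one_mul]
    have h4 : g' ∈ R K S (C + M) := by
      refine hC M d' g' ?_ ?_ hg'
      · intro u hu
        rw [hd' u (hl u (List.mem_cons_of_mem _ hu))]
        have huv : u ≠ v := fun h => hvl (h ▸ hu)
        rw [if_neg huv]
        exact h1 u (List.mem_cons_of_mem _ hu)
      · intro u hu hul
        rw [hd' u hu]
        by_cases huv : u = v
        · rw [if_pos huv]; exact hκ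
        · rw [if_neg huv]
          refine h2 u hu ?_
          rw [List.mem_cons, not_or]
          exact ⟨huv, hul⟩
    rw [h3]
    refine R_mono ?_ (R_mul (hC' x hx i hii) h4)
    omega

/-- insertion of products of commutators with generators at a level -/
lemma liftR [Nonempty X] [Finite X] (hB : Br G K) {H : Subgroup G} {S : List G}
    (hS : GenList H S) (Sv : List X → List G)
    (hSv : ∀ v, ∀ s ∈ Sv v, s ∈ secG hB.self H v) (m : ℕ) :
    ∃ C, ∀ (M : ℕ) (d : List X → G) (g : G),
      (∀ v : List X, v.length = m → d v ∈ R K (Sv v) M) → InsG m d g → g ∈ R K S (C + M) := by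
  classical
  have fW : {l : List X | l.length = m}.Finite := List.finite_length_eq X m
  obtain ⟨C, hC⟩ := liftR_aux hB hS Sv hSv (m := m) fW.toFinset.toList
    (fun v hv => by
      have := Finset.mem_toList.1 hv
      simpa using this) (Finset.nodup_toList _)
  refine ⟨C, fun M d g h1 hi => hC M d g ?_ ?_ hi⟩
  · intro v hv
    have := Finset.mem_toList.1 hv
    exact h1 v (by simpa using this)
  · intro v hv hvl
    exact absurd (Finset.mem_toList.2 (by simpa using hv)) hvl

end lift

end Pool.Agent.CB71
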