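import Mathlib
import Pool.Agent.CB71.GR

set_option autoImplicit false
set_option linter.unusedSectionVars false

/-!
The subgroup of elements inserted at a level, the theorem of Schur and the vanishing of the total
classes.
-/

namespace Pool.Agent.CB71

open scoped commutatorElement
open Pool.Agent.CW71

section schur

variable {Γ : Type*} [Group Γ]

/-- Schur: a central subgroup of finite index makes the derived subgroup finite -/
lemma schur_finite (P : Subgroup Γ) (hfin : P.FiniteIndex) (hc : ∀ p ∈ P, ∀ g : Γ, g * p = p * g) :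
    Finite (commutator Γ) := by
  have hQ : Finite (Γ ⧸ P) := Subgroup.finite_quotient_of_finiteIndex
  have h1 : (commutatorSet Γ).Finite := by
    refine (Set.finite_range (fun q : (Γ ⧸ P) × (Γ ⧸ P) => ⁅q.1.out, q.2.out⁆)).subset ?_
    rintro x ⟨g, h, rfl⟩
    refine ⟨(QuotientGroup.mk g, QuotientGroup.mk h), ?_⟩
    obtain ⟨p, hp⟩ := QuotientGroup.mk_out_eq_mul P g
    obtain ⟨p', hp'⟩ := QuotientGroup.mk_out_eq_mul P h
    show ⁅(QuotientGroup.mk g : Γ ⧸ P).out, (QuotientGroup.mk h : Γ ⧸ P).out⁆ = ⁅g, h⁆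
    rw [hp, hp']
    have c1 := hc p.1 p.2
    have c2 := hc p'.1 p'.2
    have c1' : ∀ x : Γ, x * (p : Γ)⁻¹ = (p : Γ)⁻¹ * x := fun x => by
      have := c1 x
      rw [eq_inv_mul_iff_mul_eq, ← mul_assoc, ← this, mul_assoc, mul_inv_cancel, mul_one]
    have c2' : ∀ x : Γ, x * (p' : Γ)⁻¹ = (p' : Γ)⁻¹ * x := fun x => by
      have := c2 x
      rw [eq_inv_mul_iff_mul_eq, ← mul_assoc, ← this, mul_assoc, mul_inv_cancel, mul_one]
    simp only [commutatorElement_def, mul_inv_rev]
    calc g * (p : Γ) * (h * (p' : Γ)) * ((p : Γ)⁻¹ * g⁻¹) * ((p' : Γ)⁻¹ * h⁻¹)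
        = g * ((p : Γ) * h) * ((p' : Γ) * (p : Γ)⁻¹) * g⁻¹ * (p' : Γ)⁻¹ * h⁻¹ := by group
      _ = g * (h * (p : Γ)) * ((p : Γ)⁻¹ * (p' : Γ)) * g⁻¹ * (p' : Γ)⁻¹ * h⁻¹ := by
          rw [← c1 h, c1' (p' : Γ)]
      _ = g * h * ((p' : Γ) * g⁻¹) * (p' : Γ)⁻¹ * h⁻¹ := by group
      _ = g * h * (g⁻¹ * (p' : Γ)) * (p' : Γ)⁻¹ * h⁻¹ := by rw [← c2 g⁻¹]
      _ = g * h * g⁻¹ * h⁻¹ := by group
  have : Finite (commutatorSet Γ) := h1
  infer_instance

/-- powers of elements of `[H, H]` fall into `[H, P]` -/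
lemma pow_mem_comm {H P : Subgroup Γ} [hP : P.Normal]
    (hfin : (P.subgroupOf H).FiniteIndex) {y : Γ} (hy : y ∈ ⁅H, H⁆) :
    ∃ N, 0 < N ∧ y ^ N ∈ ⁅H, P⁆ := by
  set P' : Subgroup H := P.subgroupOf H with hP'
  have hP'n : P'.Normal := hP.subgroupOf H
  set E : Subgroup H := ⁅(⊤ : Subgroup H), P'⁆ with hE
  have hEn : E.Normal := Subgroup.commutator_normal _ _
  have h1 : Finite (commutator (H ⧸ E)) := by
    refine schur_finite (P'.map (QuotientGroup.mk' E)) ⟨?_⟩ ?_
    · have h2 := Subgroup.index_map_dvd P' (QuotientGroup.mk'_surjective E)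
      intro h3
      rw [h3] at h2
      exact hfin.index_ne_zero (Nat.eq_zero_of_zero_dvd h2)
    · rintro p ⟨p', hp', rfl⟩ g
      obtain ⟨g', rfl⟩ := QuotientGroup.mk'_surjective E g
      have h2 : QuotientGroup.mk' E ⁅g', p'⁆ = 1 :=
        (QuotientGroup.eq_one_iff _).2 (Subgroup.commutator_mem_commutator (Subgroup.mem_top _) hp')
      rw [map_commutatorElement] at h2
      exact commutatorElement_eq_one_iff_mul_comm.1 h2
  rw [← Subgroup.map_subtype_commutator] at hy
  obtain ⟨y', hy', rfl⟩ := hy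
  have h2 : QuotientGroup.mk' E y' ∈ commutator (H ⧸ E) := by
    have h3 : (commutator H).map (QuotientGroup.mk' E) ≤ commutator (H ⧸ E) := by
      rw [commutator_def, commutator_def, Subgroup.map_commutator]
      exact Subgroup.commutator_mono le_top le_top
    exact h3 ⟨y', hy', rfl⟩
  obtain ⟨N, hN, h3⟩ := isOfFinOrder_iff_pow_eq_one.1
    (isOfFinOrder_of_finite (⟨QuotientGroup.mk' E y', h2⟩ : commutator (H ⧸ E)))
  refine ⟨N, hN, ?_⟩
  have h4 : QuotientGroup.mk' E (y' ^ N) = 1 := by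
    rw [map_pow]
    exact congrArg Subtype.val h3
  have h5 : y' ^ N ∈ E := (QuotientGroup.eq_one_iff _).1 h4
  have h6 : E.map H.subtype ≤ ⁅H, P⁆ := by
    rw [hE, Subgroup.map_commutator]
    apply Subgroup.commutator_mono
    · rintro x ⟨z, _, rfl⟩; exact z.2
    · rintro x ⟨z, hz, rfl⟩; exact hz
  have h7 := h6 ⟨y' ^ N, h5, rfl⟩
  rwa [map_pow] at h7

end schur

variable {X : Type} {G : Subgroup (Tr X)} {K : Subgroup G} [hKn : K.Normal]

/-- the elements inserted at level `m` with values in `K` -/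
def PG (K : Subgroup G) (m : ℕ) : Subgroup G where
  carrier := {g | ∃ k : List X → G, (∀ v, k v ∈ K) ∧ InsG m k g}
  one_mem' := ⟨fun _ => 1, fun _ => K.one_mem, insG_one m⟩
  mul_mem' := by
    rintro g g' ⟨k, hk, h⟩ ⟨k', hk', h'⟩
    exact ⟨_, fun v => K.mul_mem (hk v) (hk' v), h.mul h'⟩
  inv_mem' := by
    rintro g ⟨k, hk, h⟩
    exact ⟨_, fun v => K.inv_mem (hk v), h.inv⟩

lemma PG_normal (hG : SelfSimilar G) (m : ℕ) : (PG K m).Normal := by
  constructor
  rintro g ⟨k, hk, h⟩ a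
  exact ⟨_, fun v => hKn.conj_mem _ (hk _) _, h.conj hG a⟩

lemma PG_le [Nonempty X] (hB : Br G K) (m : ℕ) : PG K m ≤ K := by
  rintro g ⟨k, hk, h⟩
  obtain ⟨g', hg', h'⟩ := hB.ins m k hk
  rw [insG_unique hB.self h h' fun _ _ => rfl]
  exact hg'

lemma PG_fix (hG : SelfSimilar G) {m : ℕ} {g : G} (hg : g ∈ PG K m) {v : List X}
    (hv : v.length = m) : g • v = v := by
  obtain ⟨k, hk, h⟩ := hg
  exact h.fix hG hv

lemma PG_sec (hG : SelfSimilar G) {m : ℕ} {g : G} (hg : g ∈ PG K m) {v : List X}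
    (hv : v.length = m) : sec hG g v ∈ K := by
  obtain ⟨k, hk, h⟩ := hg
  rw [h.sec hG hv]; exact hk v

lemma PG_finiteIndex [Finite X] (hB : Br G K) (hK : K.FiniteIndex) (m : ℕ) :
    (PG K m).FiniteIndex := by
  classical
  let W : Type := {v : List X // v.length = m}
  have fW : Finite W := (List.finite_length_eq X m : {l : List X | l.length = m}.Finite)
  have fQ : Finite (G ⧸ K) := Subgroup.finite_quotient_of_finiteIndex
  let F : G → (W → W × (G ⧸ K)) := fun g v =>
    (⟨g • v.1, by rw [len_act hB.self, v.2]⟩, QuotientGroup.mk (sec hB.self g v.1))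
  have key : ∀ g g' : G, F g = F g' → g⁻¹ * g' ∈ PG K m := by
    intro g g' h
    have h1 : ∀ v : List X, v.length = m → g • v = g' • v := fun v hv =>
      congrArg Subtype.val (congrArg Prod.fst (congrFun h ⟨v, hv⟩))
    have h2 : ∀ v : List X, v.length = m → (sec hB.self g v)⁻¹ * sec hB.self g' v ∈ K := by
      intro v hv
      have h3 := congrArg Prod.snd (congrFun h ⟨v, hv⟩)
      exact QuotientGroup.eq.1 h3
    have h4 : ∀ v : List X, v.length = m →
        sec hB.self (g⁻¹ * g') v = (sec hB.self g v)⁻¹ * sec hB.self g' v := by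
      intro v hv
      rw [sec_mul, ← h1 v hv, sec_inv]
    refine ⟨fun v => if v.length = m then (sec hB.self g v)⁻¹ * sec hB.self g' v else 1, ?_, ?_⟩
    · intro v
      show (if v.length = m then (sec hB.self g v)⁻¹ * sec hB.self g' v else 1) ∈ K
      split
      · rename_i hv; exact h2 v hv
      · exact K.one_mem
    · apply insG_of_sec hB.self
      · intro v hv
        rw [mul_smul, ← h1 v hv, inv_smul_smul]
      · intro v hv
        rw [h4 v hv]
        show _ = if v.length = m then _ else _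
        rw [if_pos hv]
  have h5 : Function.Injective (fun q : G ⧸ PG K m => F q.out) := by
    intro q q' h
    have h6 := key _ _ h
    rw [← QuotientGroup.out_eq' q, ← QuotientGroup.out_eq' q']
    exact QuotientGroup.eq.2 h6
  have : Finite (G ⧸ PG K m) := Finite.of_injective _ h5
  exact Subgroup.finiteIndex_of_finite_quotient

/-- the total class at the orbit of `r` -/
noncomputable def Psi {A : Type*} [AddCommGroup A] (hG : SelfSimilar G) (H : Subgroup G)
    (W : Finset (List X)) (a : List X → G) (φ : G → A) (r : List X) (g : G) : A :=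
  open Classical in
  ∑ v ∈ W.filter (fun v => rtG H v = r),
    φ (sec hG (a v) v * sec hG g v * (sec hG (a v) v)⁻¹)

section vanish

variable {A : Type*} [AddCommGroup A] [Nonempty X] (hB : Br G K) {H : Subgroup G} (hKH : K ≤ H)
  {m : ℕ} {W : Finset (List X)} (hW : ∀ v : List X, v ∈ W ↔ v.length = m) {a : List X → G}
  (ha : ∀ v, a v ∈ H) (hav : ∀ v, a v • v = rtG H v) {r : List X} {φ : G → A}
  (hφ : ∀ x ∈ K, ∀ y ∈ K, φ (x * y) = φ x + φ y)
  (hkill : ∀ x ∈ ⁅secG hB.self H r, K⁆, φ x = 0)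

include hB hW hφ

lemma Psi_mul {g g' : G} (hg : g ∈ PG K m) (hg' : g' ∈ PG K m) :
    Psi hB.self H W a φ r (g * g') = Psi hB.self H W a φ r g + Psi hB.self H W a φ r g' := by
  classical
  unfold Psi
  rw [← Finset.sum_add_distrib]
  refine Finset.sum_congr rfl fun v hv => ?_
  have hv' : v.length = m := (hW v).1 (Finset.mem_filter.1 hv).1
  rw [← hφ _ (hKn.conj_mem _ (PG_sec hB.self hg hv') _) _
    (hKn.conj_mem _ (PG_sec hB.self hg' hv') _), sec_mul, PG_fix hB.self hg' hv']
  congr 1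
  group

lemma Psi_one : Psi hB.self H W a φ r 1 = 0 := by
  have h := Psi_mul hB (H := H) hW (a := a) (r := r) hφ (PG K m).one_mem (PG K m).one_mem
  rw [one_mul] at h
  exact left_eq_add.1 h

lemma Psi_inv {g : G} (hg : g ∈ PG K m) :
    Psi hB.self H W a φ r g⁻¹ = - Psi hB.self H W a φ r g := by
  have h := Psi_mul hB (H := H) hW (a := a) (r := r) hφ hg ((PG K m).inv_mem hg)
  rw [mul_inv_cancel, Psi_one hB hW hφ] at h
  exact (neg_eq_of_add_eq_zero_right h.symm).symm

lemma Psi_pow {g : G} (hg : g ∈ PG K m) (n : ℕ) :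
    Psi hB.self H W a φ r (g ^ n) = n • Psi hB.self H W a φ r g := by
  induction n with
  | zero => rw [pow_zero, Psi_one hB hW hφ, zero_smul]
  | succ n ih =>
    rw [pow_succ, Psi_mul hB hW hφ ((PG K m).pow_mem hg n) hg, ih, succ_nsmul]

include ha hav hkill

lemma Psi_conj {g p : G} (hg : g ∈ H) (hp : p ∈ PG K m) :
    Psi hB.self H W a φ r (g * p * g⁻¹) = Psi hB.self H W a φ r p := by
  classical
  unfold Psi
  refine Finset.sum_nbij' (fun v => g⁻¹ • v) (fun v => g • v) ?_ ?_ ?_ ?_ ?_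
  · intro v hv
    rw [Finset.mem_filter, hW] at hv ⊢
    exact ⟨by rw [len_act hB.self, hv.1], by rw [rtG_act (H.inv_mem hg), hv.2]⟩
  · intro v hv
    rw [Finset.mem_filter, hW] at hv ⊢
    exact ⟨by rw [len_act hB.self, hv.1], by rw [rtG_act hg, hv.2]⟩
  · intro v _; exact smul_inv_smul _ _
  · intro v _; exact inv_smul_smul _ _
  · intro u hu
    rw [Finset.mem_filter, hW] at hu
    set v := g⁻¹ • u with hv
    have huv : u = g • v := by rw [hv, smul_inv_smul]
    have hvl : v.length = m := by rw [hv, len_act hB.self, hu.1]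
    have hvr : rtG H v = r := by rw [hv, rtG_act (H.inv_mem hg), hu.2]
    have e1 : sec hB.self (g * p * g⁻¹) u = sec hB.self g v * sec hB.self p v *
        (sec hB.self g v)⁻¹ := by
      rw [sec_mul, sec_mul, ← hv, PG_fix hB.self hp hvl, huv, sec_inv]
    -- the element of the section group
    have e2 : a v • v = r := by rw [hav, hvr]
    have e2' : (a v)⁻¹ • r = v := by rw [← e2, inv_smul_smul]
    have e3 : a u • u = r := by rw [hav, hu.2]
    set η := sec hB.self (a u) u * sec hB.self g v * (sec hB.self (a v) v)⁻¹ with hη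
    have hηm : η ∈ secG hB.self H r := by
      refine ⟨a u * g * (a v)⁻¹, H.mul_mem (H.mul_mem (ha u) hg) (H.inv_mem (ha v)), ?_, ?_⟩
      · rw [mul_smul, mul_smul, e2', ← huv, e3]
      · rw [sec_mul, sec_mul, e2', ← huv, hη]
        congr 1
        have := sec_inv hB.self (a v) v
        rwa [e2] at this
    set x := sec hB.self (a v) v * sec hB.self p v * (sec hB.self (a v) v)⁻¹ with hx
    have hxK : x ∈ K := hKn.conj_mem _ (PG_sec hB.self hp hvl) _
    have e4 : sec hB.self (a u) u * sec hB.self (g * p * g⁻¹) u * (sec hB.self (a u) u)⁻¹ =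
        ⁅η, x⁆ * x := by
      rw [e1, hη, hx]
      simp only [commutatorElement_def]
      group
    rw [e4, hφ _ (comm_mem_of_normal η hxK) _ hxK,
      hkill _ (Subgroup.commutator_mem_commutator hηm hxK), zero_add]

/-- the total classes vanish -/
theorem Psi_zero (htf : ∀ (n : ℕ) (x : A), 0 < n → n • x = 0 → x = 0) [Finite X]
    (hK : K.FiniteIndex) (hKH : K ≤ H) {y : G} (hy : y ∈ ⁅H, K⁆) (hyP : y ∈ PG K m) :
    Psi hB.self H W a φ r y = 0 := by
  have hPn := PG_normal (K := K) hB.self m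
  have hPfin := PG_finiteIndex hB hK m
  have h1 : ∀ x ∈ ⁅H, PG K m⁆, x ∈ PG K m ∧ Psi hB.self H W a φ r x = 0 := by
    intro x hx
    rw [Subgroup.commutator_def] at hx
    induction hx using Subgroup.closure_induction with
    | mem x hx =>
      obtain ⟨g, hg, p, hp, rfl⟩ := hx
      have hgp : g * p * g⁻¹ ∈ PG K m := hPn.conj_mem p hp g
      refine ⟨?_, ?_⟩
      · rw [commutatorElement_def]
        exact (PG K m).mul_mem hgp ((PG K m).inv_mem hp)
      · rw [commutatorElement_def, Psi_mul hB hW hφ hgp ((PG K m).inv_mem hp),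
          Psi_conj hB hW ha hav hφ hkill hg hp, Psi_inv hB hW hφ hp, add_neg_cancel]
    | one => exact ⟨(PG K m).one_mem, Psi_one hB hW hφ⟩
    | mul x y _ _ hx hy =>
      exact ⟨(PG K m).mul_mem hx.1 hy.1, by
        rw [Psi_mul hB hW hφ hx.1 hy.1, hx.2, hy.2, add_zero]⟩
    | inv x _ hx =>
      exact ⟨(PG K m).inv_mem hx.1, by rw [Psi_inv hB hW hφ hx.1, hx.2, neg_zero]⟩
  have h2 : ((PG K m).subgroupOf H).FiniteIndex := by
    constructor
    intro h3
    have h4 : (PG K m).relIndex H ∣ (PG K m).index := Subgroup.relIndex_dvd_index_of_normal _ _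
    have h5 : (PG K m).relIndex H = 0 := h3
    rw [h5] at h4
    exact hPfin.index_ne_zero (Nat.eq_zero_of_zero_dvd h4)
  have hyH : y ∈ ⁅H, H⁆ := Subgroup.commutator_mono le_rfl hKH hy
  obtain ⟨N, hN, h3⟩ := pow_mem_comm h2 hyH
  have h4 := (h1 _ h3).2
  rw [Psi_pow hB hW hφ hyP] at h4
  exact htf N _ hN h4

end vanish

end Pool.Agent.CB71
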