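import Mathlib
import Pool.Agent.CB71.GP

set_option autoImplicit false
set_option linter.unusedSectionVars false

/-!
The torsion-free part of `K / [H, K]`: a surjection `φ` of `K` onto `ℤ^r` and representatives.
-/

namespace Pool.Agent.CB71

open scoped commutatorElement
open Pool.Agent.CW71

/-- A homomorphism of `K` onto `ℤ^r` killing `[H, K]`, with kernel finite modulo `[H, K]`. -/
structure Phi {Γ : Type*} [Group Γ] (K H : Subgroup Γ) where
  r : ℕ
  φ : Γ → Fin r → ℤ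
  mul : ∀ x ∈ K, ∀ y ∈ K, φ (x * y) = φ x + φ y
  kill : ∀ x ∈ ⁅H, K⁆, φ x = 0
  a : Fin r → Γ
  ha : ∀ i, a i ∈ K
  φa : ∀ i, φ (a i) = Pi.single i 1
  F : Set Γ
  Ffin : F.Finite
  FK : ∀ f ∈ F, f ∈ K
  rep : ∀ x ∈ K, φ x = 0 → ∃ f ∈ F, f⁻¹ * x ∈ ⁅H, K⁆

section exist

variable {Γ : Type*} [Group Γ] {K H : Subgroup Γ} [hKn : K.Normal]

lemma comm_sub_K (A : Subgroup Γ) : ⁅A, K⁆ ≤ K := by
  rw [Subgroup.commutator_le]
  intro g _ k hk
  exact comm_mem_of_normal g hk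

lemma comm_conj_mem (hKH : K ≤ H) {k x : Γ} (hk : k ∈ K) (hx : x ∈ ⁅H, K⁆) :
    k * x * k⁻¹ ∈ ⁅H, K⁆ := by
  have h1 : (⁅H, K⁆ : Subgroup Γ).map (MulAut.conj k).toMonoidHom ≤ ⁅H, K⁆ := by
    rw [Subgroup.map_commutator]
    apply Subgroup.commutator_mono
    · rintro y ⟨z, hz, rfl⟩
      exact H.mul_mem (H.mul_mem (hKH hk) hz) (H.inv_mem (hKH hk))
    · rintro y ⟨z, hz, rfl⟩
      exact hKn.conj_mem z hz k
  exact h1 ⟨x, hx, rfl⟩

theorem exists_Phi (hKH : K ≤ H) (hfg : Group.FG K) : Nonempty (Phi K H) := by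
  classical
  set D : Subgroup K := (⁅H, K⁆ : Subgroup Γ).subgroupOf K with hD
  have hDn : D.Normal := by
    constructor
    intro x hx k
    exact comm_conj_mem hKH k.2 hx
  have hcomm : ∀ x y : K ⧸ D, x * y = y * x := by
    intro x y
    obtain ⟨x, rfl⟩ := QuotientGroup.mk'_surjective D x
    obtain ⟨y, rfl⟩ := QuotientGroup.mk'_surjective D y
    have h1 : ⁅x, y⁆ ∈ D := by
      show ((⁅x, y⁆ : K) : Γ) ∈ ⁅H, K⁆
      exact Subgroup.commutator_mem_commutator (hKH x.2) y.2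
    have h2 : QuotientGroup.mk' D ⁅x, y⁆ = 1 := (QuotientGroup.eq_one_iff _).2 h1
    rw [map_commutatorElement] at h2
    exact commutatorElement_eq_one_iff_mul_comm.1 h2
  let _ : CommGroup (K ⧸ D) := { (inferInstance : Group (K ⧸ D)) with mul_comm := hcomm }
  have hQfg : Group.FG (K ⧸ D) := inferInstance
  have hMfg : AddGroup.FG (Additive (K ⧸ D)) := inferInstance
  have hM : Module.Finite ℤ (Additive (K ⧸ D)) := Module.Finite.iff_addGroup_fg.2 hMfg
  set T := Submodule.torsion ℤ (Additive (K ⧸ D)) with hT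
  have hfree : Module.Free ℤ (Additive (K ⧸ D) ⧸ T) := inferInstance
  set b := Module.finBasis ℤ (Additive (K ⧸ D) ⧸ T) with hb
  have hTt : Module.IsTorsion ℤ T := Submodule.torsion_isTorsion
  have hTfin : Finite T := Module.finite_of_fg_torsion T hTt
  let q : K → Additive (K ⧸ D) ⧸ T := fun x => T.mkQ (Additive.ofMul (QuotientGroup.mk' D x))
  have hq : ∀ x y : K, q (x * y) = q x + q y := by
    intro x y
    show T.mkQ (Additive.ofMul (QuotientGroup.mk' D (x * y))) = _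
    rw [map_mul, ofMul_mul, map_add]
  have hqs : Function.Surjective q := by
    intro z
    obtain ⟨y, rfl⟩ := T.mkQ_surjective z
    obtain ⟨x, hx⟩ := QuotientGroup.mk'_surjective D (Additive.toMul y)
    exact ⟨x, by show T.mkQ (Additive.ofMul (QuotientGroup.mk' D x)) = _; rw [hx]; rfl⟩
  choose a ha using fun i => hqs (b i)
  let φ : Γ → Fin (Module.finrank ℤ (Additive (K ⧸ D) ⧸ T)) → ℤ := fun x =>
    if h : x ∈ K then b.equivFun (q ⟨x, h⟩) else 0
  have hφ : ∀ x : K, φ x = b.equivFun (q x) := fun x => dif_pos x.2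
  refine ⟨⟨_, φ, ?_, ?_, fun i => (a i : Γ), fun i => (a i).2, ?_,
    Set.range (fun t : T => ((Additive.toMul (t : Additive (K ⧸ D))).out : Γ)),
    Set.finite_range _, ?_, ?_⟩⟩
  · intro x hx y hy
    have h1 := hφ (⟨x, hx⟩ * ⟨y, hy⟩ : K)
    have h2 := hφ ⟨x, hx⟩
    have h3 := hφ ⟨y, hy⟩
    rw [hq, map_add] at h1
    rw [show φ (x * y) = _ from h1, show φ x = _ from h2, show φ y = _ from h3]
  · intro x hx
    have hxK : x ∈ K := comm_sub_K H hx
    have h1 := hφ ⟨x, hxK⟩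
    have h2 : q ⟨x, hxK⟩ = 0 := by
      have h3 : QuotientGroup.mk' D ⟨x, hxK⟩ = 1 := (QuotientGroup.eq_one_iff _).2 hx
      show T.mkQ (Additive.ofMul (QuotientGroup.mk' D ⟨x, hxK⟩)) = 0
      rw [h3]; rfl
    rw [h2, map_zero] at h1
    exact h1
  · intro i
    show φ (a i : Γ) = _
    rw [hφ (a i), ha]
    ext j
    rw [Module.Basis.equivFun_self, Pi.single_apply]
    by_cases hij : i = j
    · subst hij; simp
    · rw [if_neg hij, if_neg (Ne.symm hij)]
  · rintro f ⟨t, rfl⟩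
    exact Subtype.property _
  · intro x hx h0
    have h1 := hφ ⟨x, hx⟩
    rw [show φ x = 0 from h0] at h1
    have h2 : q ⟨x, hx⟩ = 0 := by
      have := b.equivFun.map_eq_zero_iff.1 h1.symm
      exact this
    have h3 : Additive.ofMul (QuotientGroup.mk' D ⟨x, hx⟩) ∈ T :=
      (Submodule.Quotient.mk_eq_zero T).1 h2
    refine ⟨_, ⟨⟨_, h3⟩, rfl⟩, ?_⟩
    have h4 : (QuotientGroup.mk (QuotientGroup.mk' D ⟨x, hx⟩).out : K ⧸ D) =
        QuotientGroup.mk ⟨x, hx⟩ := QuotientGroup.out_eq' _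
    have h5 := QuotientGroup.eq.1 h4
    exact h5

end exist

section kap

variable {Γ : Type*} [Group Γ] {K H : Subgroup Γ} [hKn : K.Normal]

lemma Phi.one (P : Phi K H) : P.φ 1 = 0 := P.kill 1 (Subgroup.one_mem _)

lemma Phi.inv (P : Phi K H) {x : Γ} (hx : x ∈ K) : P.φ x⁻¹ = - P.φ x := by
  have h := P.mul x hx x⁻¹ (K.inv_mem hx)
  rw [mul_inv_cancel, P.one] at h
  exact (neg_eq_of_add_eq_zero_right h.symm).symm

lemma Phi.pow (P : Phi K H) {x : Γ} (hx : x ∈ K) (n : ℕ) : P.φ (x ^ n) = n • P.φ x := by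
  induction n with
  | zero => rw [pow_zero, P.one, zero_smul]
  | succ n ih => rw [pow_succ, P.mul _ (K.pow_mem hx n) _ hx, ih, succ_nsmul]

lemma Phi.zpow (P : Phi K H) {x : Γ} (hx : x ∈ K) (n : ℤ) : P.φ (x ^ n) = n • P.φ x := by
  cases n with
  | ofNat n => rw [Int.ofNat_eq_natCast, zpow_natCast, P.pow hx, natCast_zsmul]
  | negSucc n =>
    rw [zpow_negSucc, P.inv (K.pow_mem hx _), P.pow hx, negSucc_zsmul]

/-- the product of the powers of the elements `P.a i` along a list of indices -/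
def kapL (P : Phi K H) (e : Fin P.r → ℤ) (l : List (Fin P.r)) : Γ :=
  (l.map fun i => P.a i ^ e i).prod

lemma kapL_mem (P : Phi K H) (e : Fin P.r → ℤ) (l : List (Fin P.r)) : kapL P e l ∈ K := by
  refine K.list_prod_mem fun x hx => ?_
  obtain ⟨i, _, rfl⟩ := List.mem_map.1 hx
  exact K.zpow_mem (P.ha i) _

lemma kapL_mul (P : Phi K H) (e e' : Fin P.r → ℤ) (l : List (Fin P.r)) :
    ∃ c ∈ CK K l.length, kapL P e l * kapL P e' l = kapL P (e + e') l * c := by
  induction l with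
  | nil => exact ⟨1, rfl, by simp [kapL]⟩
  | cons i l ih =>
    obtain ⟨c, hc, h⟩ := ih
    have e1 : ∀ e : Fin P.r → ℤ, kapL P e (i :: l) = P.a i ^ e i * kapL P e l := fun e => rfl
    set Q := kapL P e l with hQ
    set Q' := kapL P e' l with hQ'
    have hQK : Q ∈ K := kapL_mem P e l
    have hQ'K : Q' ∈ K := kapL_mem P e' l
    have h1 : ⁅Q⁻¹, (P.a i ^ e' i)⁻¹⁆ ∈ CK K 1 :=
      comm_mem_CK (K.inv_mem hQK) (K.inv_mem (K.zpow_mem (P.ha i) _))
    have h2 := CK_conj h1 Q'⁻¹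
    refine ⟨c * (Q'⁻¹ * ⁅Q⁻¹, (P.a i ^ e' i)⁻¹⁆ * Q'⁻¹⁻¹), ?_, ?_⟩
    · rw [List.length_cons]; exact CK_mul hc h2
    · rw [e1, e1, e1, Pi.add_apply, zpow_add, ← hQ, ← hQ']
      have h3 : P.a i ^ e i * P.a i ^ e' i * kapL P (e + e') l *
          (c * (Q'⁻¹ * ⁅Q⁻¹, (P.a i ^ e' i)⁻¹⁆ * Q'⁻¹⁻¹)) =
          P.a i ^ e i * P.a i ^ e' i * (kapL P (e + e') l * c) *
            (Q'⁻¹ * ⁅Q⁻¹, (P.a i ^ e' i)⁻¹⁆ * Q'⁻¹⁻¹) := by group
      rw [h3, ← h]
      simp only [commutatorElement_def]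
      group

/-- the product of the powers of the elements `P.a i` -/
def kap (P : Phi K H) (e : Fin P.r → ℤ) : Γ := kapL P e (List.finRange P.r)

lemma kap_mem (P : Phi K H) (e : Fin P.r → ℤ) : kap P e ∈ K := kapL_mem P e _

lemma kap_mul (P : Phi K H) (e e' : Fin P.r → ℤ) :
    ∃ c ∈ CK K P.r, kap P e * kap P e' = kap P (e + e') * c := by
  obtain ⟨c, hc, h⟩ := kapL_mul P e e' (List.finRange P.r)
  rw [List.length_finRange] at hc
  exact ⟨c, hc, h⟩

lemma kap_zero (P : Phi K H) : kap P 0 = 1 := by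
  unfold kap kapL
  simp

lemma φ_kap (P : Phi K H) (e : Fin P.r → ℤ) : P.φ (kap P e) = e := by
  have h1 : ∀ l : List (Fin P.r), P.φ (kapL P e l) = (l.map fun i => e i • P.φ (P.a i)).sum := by
    intro l
    induction l with
    | nil => exact P.one
    | cons i l ih =>
      have e1 : kapL P e (i :: l) = P.a i ^ e i * kapL P e l := rfl
      rw [e1, P.mul _ (K.zpow_mem (P.ha i) _) _ (kapL_mem P e l), P.zpow (P.ha i), ih]
      rfl
  unfold kap
  rw [h1, ← Fin.sum_univ_def]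
  ext j
  rw [Finset.sum_apply]
  simp only [P.φa, Pi.smul_apply, Pi.single_apply, smul_eq_mul, mul_ite, mul_one, mul_zero]
  rw [Finset.sum_ite_eq]
  simp

end kap

section bound

variable {X : Type} {G : Subgroup (Tr X)} {K H : Subgroup G} [hKn : K.Normal]
  {B : Set (Tr X)} {k₀ : ℕ}

/-- Schreier: elements of `K` of length `n` are products of at most `n + 2` elements of a finite
subset of `K` -/
lemma schreier (hB : Base G B k₀) (hK : K.FiniteIndex) : ∃ S : Set G, S.Finite ∧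
    (∀ s ∈ S, s ∈ K) ∧ ∀ (n : ℕ) (x : G), x ∈ K → Len B n (x : Tr X) →
      ∃ σ : List G, (∀ s ∈ σ, s ∈ S) ∧ σ.length ≤ n + 2 ∧ σ.prod = x := by
  classical
  have hQ : Finite (G ⧸ K) := Subgroup.finite_quotient_of_finiteIndex
  let rep : G → G := fun g => (QuotientGroup.mk g : G ⧸ K).out
  have hrep : ∀ g, (rep g)⁻¹ * g ∈ K := fun g => QuotientGroup.eq.1 (QuotientGroup.out_eq' _)
  let R : Set G := Set.range (fun q : G ⧸ K => q.out)
  have hR : R.Finite := Set.finite_range _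
  have hrR : ∀ g, rep g ∈ R := fun g => ⟨_, rfl⟩
  let BG : Set G := {g | (g : Tr X) ∈ B}
  have hBG : BG.Finite := hB.fin.preimage Subtype.val_injective.injOn
  let S₀ : Set G := (fun p : G × G × G => p.1⁻¹ * p.2.1 * p.2.2) '' (R ×ˢ BG ×ˢ R)
  have hS₀ : S₀.Finite := (hR.prod (hBG.prod hR)).image _
  let S : Set G := (S₀ ∪ (R ∪ R⁻¹)) ∩ K
  refine ⟨S, (hS₀.union (hR.union hR.inv)).inter_of_left _, fun s hs => hs.2, ?_⟩
  have key : ∀ l : List (Tr X), (∀ x ∈ l, x ∈ B) → ∀ x : G, l.prod = (x : Tr X) →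
      ∃ σ : List G, (∀ s ∈ σ, s ∈ S) ∧ σ.length ≤ l.length + 1 ∧ x = rep x * σ.prod := by
    intro l
    induction l with
    | nil =>
      intro _ x hx
      have hx1 : x = 1 := Subtype.ext (by rw [← hx]; rfl)
      refine ⟨[(rep x)⁻¹], ?_, by simp, by rw [List.prod_singleton, mul_inv_cancel, hx1]⟩
      intro s hs
      rw [List.mem_singleton] at hs
      rw [hs]
      refine ⟨Or.inr (Or.inr (Set.inv_mem_inv.2 (hrR x))), ?_⟩
      have := hrep x
      rw [hx1, mul_one] at this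
      rw [hx1]
      exact this
    | cons b l ih =>
      intro hl x hx
      have hb : b ∈ B := hl b List.mem_cons_self
      have hbG : b ∈ G := hB.sub hb
      have hlG : l.prod ∈ G := G.list_prod_mem fun y hy => hB.sub (hl y (List.mem_cons_of_mem _ hy))
      obtain ⟨σ, h1, h2, h3⟩ := ih (fun y hy => hl y (List.mem_cons_of_mem _ hy)) ⟨l.prod, hlG⟩ rfl
      set y : G := ⟨l.prod, hlG⟩ with hy
      set b' : G := ⟨b, hbG⟩ with hb'
      have hxy : x = b' * y := Subtype.ext (by rw [← hx, List.prod_cons]; rfl)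
      have h4 : (rep x)⁻¹ * b' * rep y ∈ K := by
        have h5 := hrep x
        have h6 : (rep x)⁻¹ * b' * rep y = ((rep x)⁻¹ * x) * ((rep y)⁻¹ * y)⁻¹ := by
          rw [hxy]; group
        rw [h6]
        exact K.mul_mem h5 (K.inv_mem (hrep y))
      refine ⟨((rep x)⁻¹ * b' * rep y) :: σ, ?_, by simp only [List.length_cons]; omega, ?_⟩
      · intro s hs
        rcases List.mem_cons.1 hs with rfl | hs
        · exact ⟨Or.inl ⟨(rep x, b', rep y), ⟨hrR x, hb, hrR y⟩, rfl⟩, h4⟩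
        · exact h1 s hs
      · rw [List.prod_cons]
        calc x = b' * y := hxy
          _ = b' * (rep y * σ.prod) := by rw [← h3]
          _ = rep x * ((rep x)⁻¹ * b' * rep y * σ.prod) := by group
  intro n x hx hlen
  obtain ⟨l, h1, h2, h3⟩ := hlen
  obtain ⟨σ, h4, h5, h6⟩ := key l h1 x h3
  have h7 : σ.prod ∈ K := K.list_prod_mem fun s hs => (h4 s hs).2
  have h8 : rep x ∈ K := by
    have : rep x = x * (σ.prod)⁻¹ := by rw [eq_mul_inv_iff_mul_eq]; exact h6.symm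
    rw [this]
    exact K.mul_mem hx (K.inv_mem h7)
  refine ⟨rep x :: σ, ?_, by simp only [List.length_cons]; omega, by rw [List.prod_cons, ← h6]⟩
  intro s hs
  rcases List.mem_cons.1 hs with rfl | hs
  · exact ⟨Or.inr (Or.inl (hrR x)), h8⟩
  · exact h4 s hs

/-- linear bound for the values of `φ` -/
lemma φ_bound (hB : Base G B k₀) (hK : K.FiniteIndex) (P : Phi K H) :
    ∃ c : ℕ, ∀ x ∈ K, ∀ i, (P.φ x i).natAbs ≤ c * (L B (x : Tr X) + 2) := by
  classical
  obtain ⟨S, hS, hSK, hSl⟩ := schreier hB hK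
  obtain ⟨c, hc⟩ : ∃ c, ∀ s ∈ S, ∀ i, (P.φ s i).natAbs ≤ c := by
    obtain ⟨c, hc⟩ := (hS.image fun s => ∑ i, (P.φ s i).natAbs).bddAbove
    refine ⟨c, fun s hs i => ?_⟩
    have h1 : (P.φ s i).natAbs ≤ ∑ i, (P.φ s i).natAbs :=
      Finset.single_le_sum (f := fun i => (P.φ s i).natAbs) (fun _ _ => Nat.zero_le _)
        (Finset.mem_univ i)
    exact h1.trans (hc ⟨s, hs, rfl⟩)
  refine ⟨c, fun x hx i => ?_⟩
  obtain ⟨σ, h1, h2, h3⟩ := hSl _ x hx (len_L hB x.2)
  have h4 : ∀ σ : List G, (∀ s ∈ σ, s ∈ S) → (P.φ σ.prod i).natAbs ≤ c * σ.length := by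
    intro σ
    induction σ with
    | nil =>
      intro _
      rw [List.prod_nil, P.one]; simp
    | cons s σ ih =>
      intro hσ
      have hσK : σ.prod ∈ K :=
        K.list_prod_mem fun y hy => hSK y (hσ y (List.mem_cons_of_mem _ hy))
      rw [List.prod_cons, P.mul _ (hSK s (hσ s List.mem_cons_self)) _ hσK, Pi.add_apply]
      have h5 := ih fun y hy => hσ y (List.mem_cons_of_mem _ hy)
      have h6 := hc s (hσ s List.mem_cons_self) i
      have h7 := Int.natAbs_add_le (P.φ s i) (P.φ σ.prod i)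
      rw [List.length_cons, mul_add, mul_one]
      omega
  rw [← h3]
  refine (h4 σ h1).trans ?_
  rw [h3]
  exact Nat.mul_le_mul_left _ h2

lemma L_pow (hB : Base G B k₀) (x : G) (n : ℕ) :
    L B ((x ^ n : G) : Tr X) ≤ n * L B (x : Tr X) := by
  induction n with
  | zero =>
    rw [pow_zero, Nat.zero_mul]
    exact le_of_eq L_one
  | succ n ih =>
    rw [pow_succ]
    have h1 := L_mul hB (x ^ n : G).2 x.2
    have h2 : (((x ^ n * x : G)) : Tr X) = ((x ^ n : G) : Tr X) * (x : Tr X) := rfl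
    rw [h2, Nat.succ_mul]
    omega

lemma L_zpow (hB : Base G B k₀) (x : G) (n : ℤ) :
    L B ((x ^ n : G) : Tr X) ≤ n.natAbs * L B (x : Tr X) := by
  cases n with
  | ofNat n =>
    rw [Int.ofNat_eq_natCast, zpow_natCast, Int.natAbs_natCast]
    exact L_pow hB x n
  | negSucc n =>
    rw [zpow_negSucc, Int.natAbs_negSucc]
    have h1 := L_inv hB (x ^ (n + 1) : G).2
    exact h1.trans (L_pow hB x (n + 1))

/-- linear bound for the length of the representative of the class -/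
lemma kap_bound (hB : Base G B k₀) (hK : K.FiniteIndex) (P : Phi K H) :
    ∃ c : ℕ, ∀ x ∈ K, L B ((kap P (P.φ x) : G) : Tr X) ≤ c * (L B (x : Tr X) + 2) := by
  obtain ⟨c, hc⟩ := φ_bound hB hK P
  refine ⟨((List.finRange P.r).map fun i => c * L B (P.a i : Tr X)).sum, fun x hx => ?_⟩
  unfold kap
  generalize List.finRange P.r = l
  induction l with
  | nil =>
    have : kapL P (P.φ x) [] = 1 := rfl
    rw [this]
    have h1 : L B ((1 : G) : Tr X) = 0 := L_one
    rw [h1]; exact Nat.zero_le _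
  | cons i l ih =>
    have e1 : kapL P (P.φ x) (i :: l) = P.a i ^ (P.φ x i) * kapL P (P.φ x) l := rfl
    rw [e1]
    have h1 := L_mul hB (P.a i ^ (P.φ x i) : G).2 (kapL P (P.φ x) l : G).2
    have h2 := L_zpow hB (P.a i) (P.φ x i)
    have h3 := Nat.mul_le_mul_right (L B (P.a i : Tr X)) (hc x hx i)
    rw [List.map_cons, List.sum_cons, add_mul]
    have h4 : c * (L B (x : Tr X) + 2) * L B (P.a i : Tr X) =
        c * L B (P.a i : Tr X) * (L B (x : Tr X) + 2) := by ring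
    have h5 : ((P.a i ^ (P.φ x i) * kapL P (P.φ x) l : G) : Tr X) =
        ((P.a i ^ (P.φ x i) : G) : Tr X) * ((kapL P (P.φ x) l : G) : Tr X) := rfl
    rw [h5]
    omega

end bound

end Pool.Agent.CB71
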