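import Mathlib
import Pool.Agent.CB71.GPhi

set_option autoImplicit false
set_option linter.unusedSectionVars false

/-!
Moving elements to the representatives of the orbits; correction of the classes.
-/

namespace Pool.Agent.CB71

open scoped commutatorElement
open Pool.Agent.CW71

section kapprod

variable {Γ : Type*} [Group Γ] {K H : Subgroup Γ} [hKn : K.Normal]

lemma kap_prod (P : Phi K H) {ι : Type*} (e : ι → Fin P.r → ℤ) (l : List ι) :
    ∃ c ∈ CK K (l.length * P.r),
      (l.map fun v => kap P (e v)).prod = kap P (l.map e).sum * c := by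
  induction l with
  | nil =>
    refine ⟨1, one_mem_CK _, ?_⟩
    rw [List.map_nil, List.map_nil, List.prod_nil, List.sum_nil, kap_zero, one_mul]
  | cons v l ih =>
    obtain ⟨c, hc, h⟩ := ih
    obtain ⟨c', hc', h'⟩ := kap_mul P (e v) (l.map e).sum
    refine ⟨c' * c, ?_, ?_⟩
    · rw [List.length_cons, Nat.succ_mul, Nat.add_comm]
      exact CK_mul hc' hc
    · rw [List.map_cons, List.map_cons, List.prod_cons, List.sum_cons, h, ← mul_assoc, h',
        mul_assoc]

/-- a finite transversal inside a subgroup -/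
lemma exists_transversal (D P : Subgroup Γ) (hP : P.FiniteIndex) :
    ∃ T : Set Γ, T.Finite ∧ (∀ t ∈ T, t ∈ D) ∧ ∀ y ∈ D, ∃ t ∈ T, t⁻¹ * y ∈ P := by
  classical
  have hQ : Finite (Γ ⧸ P) := Subgroup.finite_quotient_of_finiteIndex
  let f : Γ ⧸ P → Γ := fun q => if h : ∃ t ∈ D, (QuotientGroup.mk t : Γ ⧸ P) = q then h.choose else 1
  have hf : ∀ q, f q ∈ D := by
    intro q
    by_cases h : ∃ t ∈ D, (QuotientGroup.mk t : Γ ⧸ P) = q
    · have : f q = h.choose := dif_pos h
      rw [this]; exact h.choose_spec.1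
    · have : f q = 1 := dif_neg h
      rw [this]; exact D.one_mem
  refine ⟨Set.range f, Set.finite_range _, ?_, ?_⟩
  · rintro t ⟨q, rfl⟩
    exact hf q
  · intro y hy
    refine ⟨f (QuotientGroup.mk y), ⟨_, rfl⟩, ?_⟩
    have h : ∃ t ∈ D, (QuotientGroup.mk t : Γ ⧸ P) = QuotientGroup.mk y := ⟨y, hy, rfl⟩
    have h1 : f (QuotientGroup.mk y) = h.choose := dif_pos h
    rw [h1]
    exact QuotientGroup.eq.1 h.choose_spec.2

end kapprod

variable {X : Type} {G : Subgroup (Tr X)} {K : Subgroup G} [hKn : K.Normal]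

open Classical in
/-- the words of the list in the orbit of `r`, other than `r` -/
noncomputable def orbL (H : Subgroup G) (l : List (List X)) (r : List X) : List (List X) :=
  l.filter (fun v => decide (rtG H v = r ∧ v ≠ r))

lemma orbL_cons_pos (H : Subgroup G) {v r : List X} (l : List (List X)) (h : rtG H v = r)
    (h' : v ≠ r) : orbL H (v :: l) r = v :: orbL H l r := by
  unfold orbL
  rw [List.filter_cons_of_pos]
  simp [h, h']

lemma orbL_cons_neg (H : Subgroup G) {v r : List X} (l : List (List X))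
    (h : ¬ (rtG H v = r ∧ v ≠ r)) : orbL H (v :: l) r = orbL H l r := by
  unfold orbL
  rw [List.filter_cons_of_neg]
  simpa using h

/-- moving elements of `K` to the representatives of the orbits -/
lemma moveAll (hB : Br G K) {H : Subgroup G} {S : List G} (hS : GenList H S) {m : ℕ}
    (a : List X → G) (ha : ∀ v, a v ∈ H) (hav : ∀ v, a v • v = rtG H v) (l : List (List X)) :
    (∀ v ∈ l, v.length = m) → l.Nodup →
    ∃ C, ∀ (κ h : List X → G) (g : G), (∀ v, κ v ∈ K) → (∀ v, h v ∈ K) → g ∈ K → InsG m h g →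
      ∃ h' : List X → G, ∃ g' ∈ K, ∃ w ∈ R K S C, g = g' * w ∧ InsG m h' g' ∧ (∀ v, h' v ∈ K) ∧
        (∀ v, rtG H v ≠ v → v ∈ l →
          h' v = h v * ((sec hB.self (a v) v)⁻¹ * κ v * sec hB.self (a v) v)⁻¹) ∧
        (∀ v, rtG H v ≠ v → v ∉ l → h' v = h v) ∧
        (∀ r, rtG H r = r → h' r = h r * ((orbL H l r).map κ).prod) := by
  classical
  induction l with
  | nil =>
    intro _ _
    refine ⟨0, fun κ h g _ hh hg hi => ⟨h, g, hg, 1, one_mem_R S 0, by rw [mul_one], hi, hh,
      ?_, fun _ _ _ => rfl, ?_⟩⟩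
    · intro v _ hv
      exact absurd hv List.not_mem_nil
    · intro r _
      have : orbL H ([] : List (List X)) r = [] := rfl
      rw [this, List.map_nil, List.prod_nil, mul_one]
  | cons v l ih =>
    intro hl hnd
    obtain ⟨hvl, hnd'⟩ := List.nodup_cons.1 hnd
    obtain ⟨C, hC⟩ := ih (fun u hu => hl u (List.mem_cons_of_mem _ hu)) hnd'
    obtain ⟨C', hC'⟩ := R_word (K := K) hS (H.inv_mem (ha v))
    refine ⟨C + C' + S.length * S.length, fun κ h g hκ hh hg hi => ?_⟩
    by_cases hr : rtG H v = v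
    · obtain ⟨h', g', hg', w, hw, e, hi', hh', h1, h2, h3⟩ := hC κ h g hκ hh hg hi
      refine ⟨h', g', hg', w, R_mono (by omega) hw, e, hi', hh', ?_, ?_, ?_⟩
      · intro u hu hul
        rcases List.mem_cons.1 hul with rfl | hul
        · exact absurd hr hu
        · exact h1 u hu hul
      · intro u hu hul
        exact h2 u hu fun h => hul (List.mem_cons_of_mem _ h)
      · intro r hrr
        rw [h3 r hrr, orbL_cons_neg]
        rintro ⟨h4, h5⟩
        exact h5 (hr.symm.trans h4)
    · have hne : a v • v ≠ v := by rw [hav]; exact hr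
      set s := sec hB.self (a v) v with hs
      have hμ : s⁻¹ * κ v * s ∈ K := by
        have := hKn.conj_mem _ (hκ v) s⁻¹
        rwa [inv_inv] at this
      obtain ⟨g₁, hg₁, k, hk, e₁, hi₁⟩ := moveG hB hg hi hne hμ
      obtain ⟨h', g', hg', w, hw, e, hi', hh', h1, h2, h3⟩ :=
        hC κ _ g₁ hκ (mv_mem hB.self hh (a v) v hμ) hg₁ hi₁
      refine ⟨h', g', hg', w * ⁅(a v)⁻¹, k⁆, R_mul hw (hC' k hk), by rw [e₁, e, mul_assoc], hi', hh',
        ?_, ?_, ?_⟩
      · intro u hu hul
        by_cases huv : u = v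
        · rw [huv] at hu ⊢
          rw [h2 v hu hvl, mv_source _ _ hne, hs]
        · rcases List.mem_cons.1 hul with h4 | h4
          · exact absurd h4 huv
          · rw [h1 u hu h4, mv_other _ _ _ huv]
            rw [hav]
            intro h5
            exact hu (by rw [h5, rtG_rtG])
      · intro u hu hul
        rw [List.mem_cons, not_or] at hul
        rw [h2 u hu hul.2, mv_other _ _ _ hul.1]
        rw [hav]
        intro h5
        exact hu (by rw [h5, rtG_rtG])
      · intro r hrr
        rw [h3 r hrr]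
        by_cases h4 : r = rtG H v
        · have h5 : v ≠ r := fun h => hr (by rw [← h4, h])
          rw [orbL_cons_pos H l h4.symm h5, List.map_cons, List.prod_cons]
          have h6 : mv hB.self h (a v) v (s⁻¹ * κ v * s) r = h r * κ v := by
            have h7 := mv_target hB.self h (a v) v (s⁻¹ * κ v * s)
            rw [hav, ← h4] at h7
            rw [h7, ← hs]
            group
          rw [h6, mul_assoc]
        · have h5 : r ≠ v := fun h => hr (by rw [← h, hrr])
          rw [orbL_cons_neg H l (fun h => h4 h.1.symm), mv_other _ _ _ h5]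
          rw [hav]; exact h4

/-- the elements inserted at a level with values in a finite set form a finite set -/
lemma finite_ins [Finite X] [Nonempty X] (hG : SelfSimilar G) (m : ℕ) {F : Set G} (hF : F.Finite) :
    {g : G | ∃ k : List X → G, (∀ v : List X, v.length = m → k v ∈ F) ∧ InsG m k g}.Finite := by
  classical
  let W : Type := {v : List X // v.length = m}
  have fW : Finite W := (List.finite_length_eq X m : {l : List X | l.length = m}.Finite)
  have fF : Finite F := hF
  let ext : (W → F) → List X → G := fun f v => if hv : v.length = m then (f ⟨v, hv⟩ : G) else 1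
  let Φ : (W → F) → G := fun f => if h : ∃ g : G, InsG m (ext f) g then h.choose else 1
  refine (Set.finite_range Φ).subset ?_
  rintro g ⟨k, hk, hi⟩
  refine ⟨fun v => ⟨k v.1, hk v.1 v.2⟩, ?_⟩
  set f : W → F := fun v => ⟨k v.1, hk v.1 v.2⟩ with hf
  have h1 : InsG m (ext f) g := hi.congr fun v hv => by
    show k v = if hv : v.length = m then (f ⟨v, hv⟩ : G) else 1
    rw [dif_pos hv]
  have h2 : ∃ g : G, InsG m (ext f) g := ⟨g, h1⟩
  have h3 : Φ f = h2.choose := dif_pos h2
  rw [h3]
  exact insG_unique hG h2.choose_spec h1 fun _ _ => rfl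

/-- all the data used in the recursion -/
structure Dat (G : Subgroup (Tr X)) (K : Subgroup G) [K.Normal] where
  br : Br G K
  fin : K.FiniteIndex
  B : Set (Tr X)
  k₀ : ℕ
  base : Base G B k₀
  Sg : Subgroup G → List G
  gen : ∀ H, K ≤ H → GenList H (Sg H)
  P : ∀ H, K ≤ H → Phi K H
  c₁ : ℕ
  bd : ∀ H (h : K ≤ H), ∀ x ∈ K,
    L B ((kap (P H h) ((P H h).φ x) : G) : Tr X) ≤ c₁ * (L B (x : Tr X) + 2)

lemma ins_comm [Finite X] [Nonempty X] (D : Dat G K) {H : Subgroup G} (hKH : K ≤ H) {m : ℕ}
    {d : List X → G} {i : G} (hi : InsG m d i)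
    (hd : ∀ v : List X, v.length = m → d v ∈ ⁅secG D.br.self H v, K⁆) : i ∈ ⁅H, K⁆ := by
  classical
  have fW : {l : List X | l.length = m}.Finite := List.finite_length_eq X m
  have hle : ∀ v, K ≤ secG D.br.self H v := fun v => K_le_secG D.br hKH v
  have h1 : ∀ v : List X, ∃ M, v.length = m → d v ∈ R K (D.Sg (secG D.br.self H v)) M := by
    intro v
    by_cases hv : v.length = m
    · obtain ⟨M, hM⟩ := exists_RH (D.gen _ (hle v)) (hd v hv)
      exact ⟨M, fun _ => hM⟩
    · exact ⟨0, fun h => absurd h hv⟩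
  choose M hM using h1
  obtain ⟨M₁, hM₁⟩ := (fW.image M).bddAbove
  obtain ⟨C, hC⟩ := liftR D.br (D.gen H hKH) (fun v => D.Sg (secG D.br.self H v))
    (fun v => (D.gen _ (hle v)).sub) m
  exact R_comm hKH (D.gen H hKH).sub
    (hC M₁ d i (fun v hv => R_mono (hM₁ ⟨v, hv, rfl⟩) (hM v hv)) hi)

end Pool.Agent.CB71
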