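import Mathlib
import Pool.Agent.CB71.GC

set_option autoImplicit false
set_option linter.unusedSectionVars false

/-!
Correction of the classes of the sections of an element of `[H, K]`.
-/

namespace Pool.Agent.CB71

open scoped commutatorElement
open Pool.Agent.CW71

variable {X : Type} {G : Subgroup (Tr X)} {K : Subgroup G} [hKn : K.Normal]

/-- the sum of the classes over an orbit -/
lemma orbL_sum {A : Type*} [AddCommGroup A] (H : Subgroup G) {l : List (List X)} (hl : l.Nodup)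
    {r : List X} (hr : r ∈ l) (hrr : rtG H r = r) (e : List X → A) :
    open Classical in
    ((orbL H l r).map e).sum + e r = ∑ v ∈ l.toFinset.filter (fun v => rtG H v = r), e v := by
  classical
  have h1 : (orbL H l r).Nodup := hl.filter _
  rw [← List.sum_toFinset e h1]
  have h2 : (orbL H l r).toFinset = (l.toFinset.filter (fun v => rtG H v = r)).erase r := by
    ext v
    unfold orbL
    simp only [List.toFinset_filter, Finset.mem_filter, List.mem_toFinset, decide_eq_true_eq,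
      Finset.mem_erase, ne_eq]
    tauto
  rw [h2]
  exact Finset.sum_erase_add _ _ (by
    rw [Finset.mem_filter, List.mem_toFinset]
    exact ⟨hr, hrr⟩)

/-- the representative of an element of `K` with vanishing class -/
lemma rep_exists {Γ : Type*} [Group Γ] {K H : Subgroup Γ} (P : Phi K H) {x : Γ} (hx : x ∈ K)
    (h0 : P.φ x = 0) : ∃ f ∈ P.F, ∃ d ∈ ⁅H, K⁆, x = f * d := by
  obtain ⟨f, hf, h⟩ := P.rep x hx h0
  exact ⟨f, hf, _, h, by group⟩

theorem classCorr [Finite X] [Nonempty X] (D : Dat G K) {H : Subgroup G} (hKH : K ≤ H) (m : ℕ) :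
    ∃ C, ∀ y ∈ ⁅H, K⁆, ∃ d : List X → G, ∃ i ∈ K, ∃ z ∈ R K (D.Sg H) C, ∃ w ∈ R K (D.Sg H) C,
      y = z * i * w ∧ InsG m d i ∧
      ∀ v : List X, v.length = m → d v ∈ ⁅secG D.br.self H v, K⁆ ∧
        L D.B (d v : Tr X) ≤ (D.c₁ + 1) * L D.B (sec D.br.self y v : Tr X) + C := by
  classical
  have hG := D.br.self
  have hBB := D.base
  have hS := D.gen H hKH
  have hle : ∀ v, K ≤ secG D.br.self H v := fun v => K_le_secG D.br hKH v
  set S := D.Sg H with hSdef
  have fW : {l : List X | l.length = m}.Finite := List.finite_length_eq X m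
  set l : List (List X) := fW.toFinset.toList with hl
  have hlm : ∀ v, v ∈ l ↔ v.length = m := by
    intro v
    rw [hl, Finset.mem_toList, Set.Finite.mem_toFinset]
    exact Iff.rfl
  have hlnd : l.Nodup := Finset.nodup_toList _
  obtain ⟨a, ha, hav, har⟩ := exists_mover (X := X) H
  set s : List X → G := fun v => sec D.br.self (a v) v with hs
  -- the transversal
  obtain ⟨T, hTf, hTD, hT⟩ := exists_transversal ⁅H, K⁆ (PG K m) (PG_finiteIndex D.br D.fin m)
  obtain ⟨CT, hCT⟩ : ∃ CT, ∀ t ∈ T, L D.B (t : Tr X) ≤ CT := by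
    obtain ⟨c, hc⟩ := (hTf.image fun t : G => L D.B (t : Tr X)).bddAbove
    exact ⟨c, fun t ht => hc ⟨t, ht, rfl⟩⟩
  obtain ⟨Cs, hCs⟩ : ∃ Cs, ∀ v : List X, v.length = m → L D.B (s v : Tr X) ≤ Cs := by
    obtain ⟨c, hc⟩ := (fW.image fun v => L D.B (s v : Tr X)).bddAbove
    exact ⟨c, fun v hv => hc ⟨v, hv, rfl⟩⟩
  -- the finite set of representatives
  set 𝓕 : Set G := ⋃ v ∈ {l : List X | l.length = m},
    (fun f => (s v)⁻¹ * f * s v) '' (D.P _ (hle (rtG H v))).F with h𝓕
  have f𝓕 : 𝓕.Finite := fW.biUnion fun v _ => (D.P _ (hle (rtG H v))).Ffin.image _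
  obtain ⟨Cf, hCf⟩ : ∃ Cf, ∀ v : List X, v.length = m →
      ∀ f ∈ (D.P _ (hle (rtG H v))).F, L D.B (f : Tr X) ≤ Cf := by
    have h1 : (⋃ v ∈ {l : List X | l.length = m}, (D.P _ (hle (rtG H v))).F).Finite :=
      fW.biUnion fun v _ => (D.P _ (hle (rtG H v))).Ffin
    obtain ⟨c, hc⟩ := (h1.image fun f : G => L D.B (f : Tr X)).bddAbove
    refine ⟨c, fun v hv f hf => hc ⟨f, ?_, rfl⟩⟩
    simp only [Set.mem_iUnion]
    exact ⟨v, hv, hf⟩
  have fZ := finite_ins hG m f𝓕
  set Z : Set G := {g : G | ∃ k : List X → G, (∀ v : List X, v.length = m → k v ∈ 𝓕) ∧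
    InsG m k g} with hZ
  -- the bound for the finite set
  have fTZ : ((fun p : G × G => p.1 * p.2) '' (T ×ˢ Z) ∩ {x | x ∈ ⁅H, K⁆}).Finite :=
    ((hTf.prod fZ).image _).inter_of_left _
  obtain ⟨C₀, hC₀⟩ := finite_R hS fTZ fun t ht => ht.2
  -- the moves
  obtain ⟨C₁, hC₁⟩ := moveAll D.br hS a ha hav l (fun v hv => (hlm v).1 hv) hlnd
  -- the commutators from the classes
  obtain ⟨Cr, hCr⟩ : ∃ Cr, ∀ v : List X, v.length = m → (D.P _ (hle (rtG H v))).r ≤ Cr := by
    obtain ⟨c, hc⟩ := (fW.image fun v => (D.P _ (hle (rtG H v))).r).bddAbove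
    exact ⟨c, fun v hv => hc ⟨v, hv, rfl⟩⟩
  set C₂ := l.length * Cr + Cr with hC₂
  set C₃ := C₂ + C₁ with hC₃
  set C₄ := CT * (D.c₁ + 1) + 4 * Cs + D.c₁ * (2 * Cs + 2) + Cf with hC₄
  refine ⟨C₀ + C₃ + C₄, fun y hy => ?_⟩
  obtain ⟨t, htT, htP⟩ := hT y hy
  set x := t⁻¹ * y with hx
  have hxHK : x ∈ ⁅H, K⁆ := Subgroup.mul_mem _ (Subgroup.inv_mem _ (hTD t htT)) hy
  have hxK : x ∈ K := comm_le_self H hxHK
  set h : List X → G := fun v => if v.length = m then sec D.br.self x v else 1 with hh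
  have hhm : ∀ v : List X, v.length = m → h v = sec D.br.self x v := fun v hv => if_pos hv
  have hhK : ∀ v, h v ∈ K := by
    intro v
    by_cases hv : v.length = m
    · rw [hhm v hv]; exact PG_sec hG htP hv
    · have : h v = 1 := if_neg hv
      rw [this]; exact K.one_mem
  have hxi : InsG m h x := insG_of_sec hG (fun v hv => PG_fix hG htP hv)
    (fun v hv => (hhm v hv).symm)
  have hLh : ∀ v : List X, v.length = m →
      L D.B (h v : Tr X) ≤ L D.B (sec D.br.self y v : Tr X) + CT := by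
    intro v hv
    rw [hhm v hv, hx, sec_mul]
    have h1 := L_mul hBB (sec D.br.self t⁻¹ (y • v)).2 (sec D.br.self y v).2
    have h2 := L_sec hG hBB (t⁻¹ : G).2 (sec_spec D.br.self t⁻¹ (y • v))
    have h3 := L_inv hBB t.2
    have h4 := hCT t htT
    have h5 : ((t⁻¹ : G) : Tr X) = (t : Tr X)⁻¹ := rfl
    rw [h5] at h2
    have h6 : ((sec D.br.self t⁻¹ (y • v) * sec D.br.self y v : G) : Tr X) =
      (sec D.br.self t⁻¹ (y • v) : Tr X) * (sec D.br.self y v : Tr X) := rfl
    rw [h6]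
    omega
  -- the classes
  have hcK : ∀ v, s v * h v * (s v)⁻¹ ∈ K := fun v => hKn.conj_mem _ (hhK v) _
  set κ' : List X → List X → G := fun r v =>
    kap (D.P _ (hle r)) ((D.P _ (hle r)).φ (s v * h v * (s v)⁻¹)) with hκ'
  have hκ'K : ∀ r v, κ' r v ∈ K := fun r v => kap_mem _ _
  obtain ⟨h', g', hg', w, hw, e, hi', hh', p1, p2, p3⟩ :=
    hC₁ (fun v => κ' (rtG H v) v) h x (fun v => hκ'K _ v) hhK hxK hxi
  -- the decomposition at every word
  have key : ∀ v : List X, ∃ F d c : G, v.length = m → h' v = F * d * c ∧ F ∈ 𝓕 ∧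
      d ∈ ⁅secG D.br.self H v, K⁆ ∧ c ∈ CK K C₂ ∧
      L D.B (d : Tr X) ≤ (D.c₁ + 1) * L D.B (sec D.br.self y v : Tr X) + C₄ := by
    intro v
    by_cases hv : v.length = m
    swap
    · exact ⟨1, 1, 1, fun hv' => absurd hv' hv⟩
    set P := D.P _ (hle (rtG H v)) with hP
    have hrv : rtG H v ∈ l := (hlm _).2 (by rw [rtG_length hG, hv])
    -- conjugation into the group at `v`
    have hconj : ∀ u ∈ ⁅secG D.br.self H (rtG H v), K⁆,
        (s v)⁻¹ * u * s v ∈ ⁅secG D.br.self H v, K⁆ := by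
      intro u hu
      have h1 := secG_comm_conj D.br.self (K := K) (H.inv_mem (ha v)) hu
      rw [← hav v, sec_inv, inv_smul_smul, inv_inv] at h1
      exact h1
    have hbdd : ∀ u : G, L D.B ((s v)⁻¹ * u * s v : G) ≤ L D.B (u : Tr X) + 2 * Cs := by
      intro u
      have h1 := L_mul hBB ((s v)⁻¹ * u : G).2 (s v).2
      have h2 := L_mul hBB ((s v)⁻¹ : G).2 u.2
      have h3 := L_inv hBB (s v).2
      have h4 := hCs v hv
      have h5 : (((s v)⁻¹ * u * s v : G) : Tr X) =
        (((s v)⁻¹ * u : G) : Tr X) * (s v : Tr X) := rfl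
      have h6 : (((s v)⁻¹ * u : G) : Tr X) = (((s v)⁻¹ : G) : Tr X) * (u : Tr X) := rfl
      have h7 : (((s v)⁻¹ : G) : Tr X) = (s v : Tr X)⁻¹ := rfl
      rw [h5]
      rw [h6] at h1 ⊢
      rw [h7] at h1 h2 ⊢
      omega
    have hbdd' : ∀ u : G, L D.B ((s v) * u * (s v)⁻¹ : G) ≤ L D.B (u : Tr X) + 2 * Cs := by
      intro u
      have h1 := L_mul hBB (s v * u : G).2 ((s v)⁻¹ : G).2
      have h2 := L_mul hBB (s v : G).2 u.2
      have h3 := L_inv hBB (s v).2
      have h4 := hCs v hv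
      have h5 : ((s v * u * (s v)⁻¹ : G) : Tr X) =
        ((s v * u : G) : Tr X) * (((s v)⁻¹ : G) : Tr X) := rfl
      have h6 : ((s v * u : G) : Tr X) = (s v : Tr X) * (u : Tr X) := rfl
      have h7 : (((s v)⁻¹ : G) : Tr X) = (s v : Tr X)⁻¹ := rfl
      rw [h5]
      rw [h6, h7] at h1 ⊢
      omega
    -- the part with vanishing class
    have hx₀ : ∃ x₀ ∈ K, P.φ x₀ = 0 ∧ (∃ c ∈ CK K C₂, h' v = (s v)⁻¹ * x₀ * s v * c) ∧
        L D.B (x₀ : Tr X) ≤ L D.B ((s v * h v * (s v)⁻¹ : G) : Tr X) +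
          D.c₁ * (L D.B ((s v * h v * (s v)⁻¹ : G) : Tr X) + 2) := by
      set E := s v * h v * (s v)⁻¹ with hE
      have hEK : E ∈ K := hcK v
      have hkap : κ' (rtG H v) v = kap P (P.φ E) := rfl
      have hbdκ := D.bd _ (hle (rtG H v)) E hEK
      rw [← hP] at hbdκ
      by_cases hr : rtG H v = v
      · -- a representative
        have hsv : s v = 1 := by
          show sec D.br.self (a v) v = 1
          rw [har v hr, sec_one]
        have hEh : E = h v := by rw [hE, hsv]; group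
        refine ⟨E * kap P (-(P.φ E)), K.mul_mem hEK (kap_mem _ _), ?_, ?_, ?_⟩
        · rw [P.mul _ hEK _ (kap_mem _ _), φ_kap, add_neg_cancel]
        · have h1 := p3 v hr
          have h2 : (orbL H l v).map (fun u => κ' (rtG H u) u) =
              (orbL H l v).map (fun u => kap P (P.φ (s u * h u * (s u)⁻¹))) := by
            refine List.map_congr_left fun u hu => ?_
            have h3 : rtG H u = v := by
              unfold orbL at hu
              have := (List.mem_filter.1 hu).2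
              simp only [decide_eq_true_eq] at this
              exact this.1
            show κ' (rtG H u) u = _
            rw [h3]
            show kap (D.P _ (hle v)) ((D.P _ (hle v)).φ (s u * h u * (s u)⁻¹)) = _
            have h4 : ∀ r r' : List X, r = r' →
              kap (D.P _ (hle r)) ((D.P _ (hle r)).φ (s u * h u * (s u)⁻¹)) =
              kap (D.P _ (hle r')) ((D.P _ (hle r')).φ (s u * h u * (s u)⁻¹)) := by
              rintro r r' rfl; rfl
            exact h4 _ _ hr.symm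
          rw [h2] at h1
          obtain ⟨c, hc, h5⟩ := kap_prod P (fun u => P.φ (s u * h u * (s u)⁻¹)) (orbL H l v)
          rw [h5] at h1
          -- the vanishing
          have h6 := orbL_sum H hlnd ((hlm v).2 hv) hr (fun u => P.φ (s u * h u * (s u)⁻¹))
          have h7 : Psi hG H l.toFinset a P.φ v x = 0 := by
            refine Psi_zero D.br (fun u => by rw [List.mem_toFinset]; exact hlm u) ha hav P.mul
              ?_ ?_ D.fin hKH hxHK htP
            · intro u hu
              apply P.kill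
              rwa [hr]
            · intro n u hn hnu
              exact (smul_eq_zero.1 hnu).resolve_left (by omega)
          have h8 : ∑ u ∈ l.toFinset.filter (fun u => rtG H u = v),
              P.φ (s u * h u * (s u)⁻¹) = 0 := by
            rw [← h7]
            unfold Psi
            refine Finset.sum_congr rfl fun u hu => ?_
            have hu' : u.length = m := by
              rw [Finset.mem_filter, List.mem_toFinset, hlm] at hu
              exact hu.1
            rw [hhm u hu']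
          rw [h8] at h6
          have h9 : ((orbL H l v).map fun u => P.φ (s u * h u * (s u)⁻¹)).sum = -(P.φ E) :=
            eq_neg_of_add_eq_zero_left h6
          rw [h9] at h1
          refine ⟨c, CK_mono ?_ hc, ?_⟩
          · have h10 : (orbL H l v).length ≤ l.length := List.length_filter_le _ _
            calc (orbL H l v).length * P.r ≤ l.length * Cr :=
                  Nat.mul_le_mul h10 (hCr v hv)
              _ ≤ C₂ := by rw [hC₂]; omega
          · rw [h1, hsv, hEh]; group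
        · have h1 : -(P.φ E) = P.φ E⁻¹ := (P.inv hEK).symm
          rw [h1]
          have h2 := D.bd _ (hle (rtG H v)) E⁻¹ (K.inv_mem hEK)
          rw [← hP] at h2
          have h3 := L_inv hBB E.2
          have h4 := L_mul hBB E.2 (kap P (P.φ E⁻¹)).2
          have h5 : ((E * kap P (P.φ E⁻¹) : G) : Tr X) =
            (E : Tr X) * ((kap P (P.φ E⁻¹) : G) : Tr X) := rfl
          rw [h5]
          have h6 : ((E⁻¹ : G) : Tr X) = (E : Tr X)⁻¹ := rfl
          rw [h6] at h2
          have h7 : D.c₁ * (L D.B (E : Tr X)⁻¹ + 2) ≤ D.c₁ * (L D.B (E : Tr X) + 2) :=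
            Nat.mul_le_mul_left _ (by omega)
          omega
      · refine ⟨E * (kap P (P.φ E))⁻¹, K.mul_mem hEK (K.inv_mem (kap_mem _ _)), ?_, ?_, ?_⟩
        · rw [P.mul _ hEK _ (K.inv_mem (kap_mem _ _)), P.inv (kap_mem _ _), φ_kap,
            add_neg_cancel]
        · refine ⟨1, one_mem_CK _, ?_⟩
          rw [p1 v hr ((hlm v).2 hv), hkap, hE]
          show h v * ((s v)⁻¹ * _ * s v)⁻¹ = _
          group
        · have h3 := L_inv hBB (kap P (P.φ E)).2
          have h4 := L_mul hBB E.2 ((kap P (P.φ E))⁻¹ : G).2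
          have h5 : ((E * (kap P (P.φ E))⁻¹ : G) : Tr X) =
            (E : Tr X) * (((kap P (P.φ E))⁻¹ : G) : Tr X) := rfl
          have h6 : (((kap P (P.φ E))⁻¹ : G) : Tr X) = ((kap P (P.φ E) : G) : Tr X)⁻¹ := rfl
          rw [h5]
          rw [h6] at h4 ⊢
          omega
    obtain ⟨x₀, hx₀K, hx₀φ, ⟨c, hc, hc'⟩, hx₀L⟩ := hx₀
    obtain ⟨f, hf, δ, hδ, hfδ⟩ := rep_exists P hx₀K hx₀φ
    refine ⟨(s v)⁻¹ * f * s v, (s v)⁻¹ * δ * s v, c, fun _ => ⟨?_, ?_, hconj δ hδ, hc, ?_⟩⟩
    · rw [hc', hfδ]; group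
    · rw [h𝓕]
      simp only [Set.mem_iUnion]
      exact ⟨v, hv, f, hf, rfl⟩
    · have b1 := hbdd δ
      have b2 : L D.B (δ : Tr X) ≤ Cf + L D.B (x₀ : Tr X) := by
        have h1 : δ = f⁻¹ * x₀ := by rw [hfδ]; group
        have h2 := L_mul hBB (f⁻¹ : G).2 x₀.2
        have h3 := L_inv hBB f.2
        have h4 := hCf v hv f hf
        have h5 : ((f⁻¹ * x₀ : G) : Tr X) = ((f⁻¹ : G) : Tr X) * (x₀ : Tr X) := rfl
        have h6 : ((f⁻¹ : G) : Tr X) = (f : Tr X)⁻¹ := rfl
        rw [h1, h5]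
        rw [h6] at h2 ⊢
        omega
      have b3 := hbdd' (h v)
      have b4 := hLh v hv
      set n := L D.B (sec D.br.self y v : Tr X) with hn
      set E := L D.B ((s v * h v * (s v)⁻¹ : G) : Tr X) with hE
      have b5 : E ≤ n + CT + 2 * Cs := by omega
      have b6 : D.c₁ * (E + 2) ≤ D.c₁ * (n + CT + 2 * Cs + 2) := Nat.mul_le_mul_left _ (by omega)
      have b7 : D.c₁ * (n + CT + 2 * Cs + 2) = D.c₁ * n + D.c₁ * CT + D.c₁ * (2 * Cs + 2) := by
        ring
      have b8 : (D.c₁ + 1) * n = D.c₁ * n + n := by ring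
      have b9 : CT * (D.c₁ + 1) = D.c₁ * CT + CT := by ring
      rw [b8, hC₄, b9]
      omega
  choose F d c hkey using key
  -- the pieces
  obtain ⟨iF, hiF, hiF'⟩ : ∃ i ∈ K, InsG m F i := by
    obtain ⟨F', hF', hF''⟩ := exists_restrict m F (fun x => x ∈ K) K.one_mem (fun v hv => by
      have h1 := (hkey v hv).2.1
      rw [h𝓕] at h1
      simp only [Set.mem_iUnion] at h1
      obtain ⟨u, _, f, hf, e'⟩ := h1
      have h2 := hKn.conj_mem f ((D.P _ (hle (rtG H u))).FK f hf) (s u)⁻¹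
      rw [inv_inv] at h2
      rw [← e']
      exact h2)
    obtain ⟨i, hi, hi'⟩ := D.br.ins m F' hF'
    exact ⟨i, hi, hi'.congr hF''⟩
  obtain ⟨id, hid, hid'⟩ : ∃ i ∈ K, InsG m d i := by
    obtain ⟨F', hF', hF''⟩ := exists_restrict m d (fun x => x ∈ K) K.one_mem (fun v hv =>
      comm_le_self _ (hkey v hv).2.2.1)
    obtain ⟨i, hi, hi'⟩ := D.br.ins m F' hF'
    exact ⟨i, hi, hi'.congr hF''⟩
  obtain ⟨ic, hic, hic'⟩ : ∃ i ∈ K, InsG m c i := by
    obtain ⟨F', hF', hF''⟩ := exists_restrict m c (fun x => x ∈ K) K.one_mem (fun v hv =>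
      CK_sub (hkey v hv).2.2.2.1)
    obtain ⟨i, hi, hi'⟩ := D.br.ins m F' hF'
    exact ⟨i, hi, hi'.congr hF''⟩
  have hicC : ic ∈ CK K C₂ := CK_parG D.br hic' fun v hv => (hkey v hv).2.2.2.1
  have hg'eq : g' = iF * id * ic :=
    insG_unique hG hi' ((hiF'.mul hid').mul hic') fun v hv => (hkey v hv).1
  have hidC : id ∈ ⁅H, K⁆ := ins_comm D hKH hid' fun v hv => (hkey v hv).2.2.1
  have hw' : ic * w ∈ R K S C₃ := by
    have := CK_mul_R hicC hw
    exact R_mono (by omega) this
  have hyeq : y = (t * iF) * id * (ic * w) := by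
    have h1 : y = t * x := by rw [hx]; group
    rw [h1, e, hg'eq]; group
  have hzm : t * iF ∈ ⁅H, K⁆ := by
    have h1 : t * iF = y * (ic * w)⁻¹ * id⁻¹ := by rw [hyeq]; group
    rw [h1]
    exact Subgroup.mul_mem _ (Subgroup.mul_mem _ hy
      (Subgroup.inv_mem _ (R_comm hKH hS.sub hw'))) (Subgroup.inv_mem _ hidC)
  have hz : t * iF ∈ R K S C₀ := by
    refine hC₀ _ ⟨⟨(t, iF), ⟨htT, F, fun v hv => (hkey v hv).2.1, hiF'⟩, rfl⟩, hzm⟩
  refine ⟨d, id, hid, t * iF, R_mono (by omega) hz, ic * w, R_mono (by omega) hw', hyeq, hid',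
    fun v hv => ⟨(hkey v hv).2.2.1, ?_⟩⟩
  have := (hkey v hv).2.2.2.2
  omega

end Pool.Agent.CB71
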