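import Mathlib
import Pool.Agent.CB71.GD

set_option autoImplicit false
set_option linter.unusedSectionVars false

/-!
The recursion for all subgroups between `K` and `G` simultaneously.
-/

namespace Pool.Agent.CB71

open scoped commutatorElement
open Pool.Agent.CW71

variable {X : Type} {G : Subgroup (Tr X)} {K : Subgroup G} [hKn : K.Normal]

/-- splitting the products at the representatives into halves -/
lemma splitAll (hB : Br G K) {H : Subgroup G} (hKH : K ≤ H) {m M : ℕ} (b : List X → G)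
    (hb : ∀ v, b v ∈ K) (hbv : ∀ v : List X, v.length = m → b v • v ≠ v) (κ : List X → G)
    (hκ : ∀ v, κ v ∈ CK K M) (h : List X → G) (g : G) (hg : g ∈ K) (hi : InsG m h g)
    (hh : ∀ v, h v ∈ K) (hh1 : ∀ v, rtG H v ≠ v → h v = 1) (l : List (List X)) :
    (∀ v ∈ l, v.length = m) → l.Nodup →
      ∃ q : List X → G, ∃ g' ∈ K, ∃ c ∈ CK K l.length, g = g' * c ∧ InsG m q g' ∧
        (∀ v, q v ∈ K) ∧ (∀ v ∈ l, rtG H v = v → q v = h v * (κ v)⁻¹) ∧
        (∀ v, v ∉ l → rtG H v = v → q v = h v) ∧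
        (∀ v, rtG H v ≠ v → q v ∈ CK K M) ∧ (∀ v, rtG H v ≠ v → rtG H v ∉ l → q v = 1) := by
  classical
  induction l with
  | nil =>
    intro _ _
    exact ⟨h, g, hg, 1, rfl, by simp, hi, hh, by simp, fun v _ _ => rfl,
      fun v hv => by rw [hh1 v hv]; exact one_mem_CK M, fun v hv _ => hh1 v hv⟩
  | cons r l ih =>
    intro hl hnd
    have hl' : ∀ v ∈ l, v.length = m := fun v hv => hl v (List.mem_cons_of_mem _ hv)
    obtain ⟨hrl, hnd'⟩ := List.nodup_cons.1 hnd
    obtain ⟨q, g₁, hg₁, c₁, hc₁, e₁, hi₁, q0, q1, q2, q3, q4⟩ := ih hl' hnd'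
    by_cases hr : rtG H r = r
    · have hbr' : b r • r ≠ r := hbv r (hl r List.mem_cons_self)
      obtain ⟨g₂, hg₂, k, hk, e₂, hi₂⟩ := moveG hB hg₁ hi₁ hbr' (CK_sub (hκ r))
      have hbr : rtG H (b r • r) = r := by rw [rtG_act (hKH (hb r)), hr]
      have hnr : rtG H (b r • r) ≠ b r • r := by rw [hbr]; exact Ne.symm hbr'
      refine ⟨_, g₂, hg₂, ⁅(b r)⁻¹, k⁆ * c₁, ?_, ?_, hi₂, mv_mem hB.self q0 _ _ (CK_sub (hκ r)),
        ?_, ?_, ?_, ?_⟩
      · rw [List.length_cons, add_comm]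
        exact CK_mul (comm_mem_CK (K.inv_mem (hb r)) hk) hc₁
      · rw [e₁, e₂, mul_assoc]
      · intro v hv hv'
        have hvb : v ≠ b r • r := by
          rintro rfl
          exact hnr hv'
        rcases List.mem_cons.1 hv with hvr | hv2
        · rw [hvr, mv_source _ _ hbr', q2 r hrl hr]
        · have hne : v ≠ r := fun h' => hrl (h' ▸ hv2)
          rw [mv_other _ _ hvb hne]
          exact q1 v hv2 hv'
      · intro v hv hv'
        rw [List.mem_cons, not_or] at hv
        have hvb : v ≠ b r • r := by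
          rintro rfl
          exact hnr hv'
        rw [mv_other _ _ hvb hv.1]
        exact q2 v hv.2 hv'
      · intro v hv
        by_cases hvb : v = b r • r
        · rw [hvb, mv_target, q4 _ hnr (by rw [hbr]; exact hrl), one_mul]
          exact CK_conj (hκ r) _
        · have : v ≠ r := by
            rintro rfl
            exact hv hr
          rw [mv_other _ _ hvb this]
          exact q3 v hv
      · intro v hv hv'
        rw [List.mem_cons, not_or] at hv'
        have hvb : v ≠ b r • r := by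
          rintro rfl
          exact hv'.1 hbr
        have : v ≠ r := by
          rintro rfl
          exact hv hr
        rw [mv_other _ _ hvb this]
        exact q4 v hv hv'.2
    · refine ⟨q, g₁, hg₁, c₁, CK_mono (by simp) hc₁, e₁, hi₁, q0, ?_, ?_, q3, ?_⟩
      · intro v hv hv'
        rcases List.mem_cons.1 hv with rfl | hv
        · exact absurd hv' hr
        · exact q1 v hv hv'
      · intro v hv hv'
        exact q2 v (fun h' => hv (List.mem_cons_of_mem _ h')) hv'
      · intro v hv hv'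
        exact q4 v hv (fun h' => hv' (List.mem_cons_of_mem _ h'))

/-- `N` bounds the numbers of commutators for the elements of length at most `n` -/
def Bd (D : Dat G K) (n N : ℕ) : Prop :=
  ∀ H : Subgroup G, K ≤ H → ∀ y ∈ ⁅H, K⁆, L D.B (y : Tr X) ≤ n → y ∈ R K (D.Sg H) N

lemma Bd.mono {D : Dat G K} {n n' N N' : ℕ} (h : Bd D n N) (hn : n' ≤ n) (hN : N ≤ N') :
    Bd D n' N' := fun H hKH y hy hl => R_mono hN (h H hKH y hy (hl.trans hn))

lemma finite_over (hK : K.FiniteIndex) : {H : Subgroup G | K ≤ H}.Finite := by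
  have hQ : Finite (G ⧸ K) := Subgroup.finite_quotient_of_finiteIndex
  have h1 : Finite (Subgroup (G ⧸ K)) :=
    Finite.of_injective (fun H : Subgroup (G ⧸ K) => (H : Set (G ⧸ K))) SetLike.coe_injective
  have h2 : Finite {H : Subgroup G // K ≤ H} :=
    Finite.of_equiv _ (QuotientGroup.comapMk'OrderIso K).toEquiv
  exact h2

lemma Bd_exists (D : Dat G K) (n : ℕ) : ∃ N, Bd D n N := by
  classical
  have h1 : {y : G | L D.B (y : Tr X) ≤ n}.Finite := by
    have h2 := (len_finite D.base n).preimage (Subtype.val_injective (p := fun x => x ∈ G)).injOn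
    refine h2.subset fun y hy => ?_
    exact (len_L D.base y.2).mono hy
  have h3 : ∀ H : Subgroup G, ∃ C, K ≤ H → ∀ y ∈ ⁅H, K⁆, L D.B (y : Tr X) ≤ n →
      y ∈ R K (D.Sg H) C := by
    intro H
    by_cases hKH : K ≤ H
    · obtain ⟨C, hC⟩ := finite_R (K := K) (D.gen H hKH) (h1.inter_of_left {y | y ∈ ⁅H, K⁆})
        fun t ht => ht.2
      exact ⟨C, fun _ y hy hl => hC y ⟨hl, hy⟩⟩
    · exact ⟨0, fun h => absurd h hKH⟩
  choose C hC using h3
  obtain ⟨N, hN⟩ := ((finite_over D.fin).image C).bddAbove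
  exact ⟨N, fun H hKH y hy hl => R_mono (hN ⟨H, hKH, rfl⟩) (hC H hKH y hy hl)⟩

/-- a uniform constant for all subgroups containing `K` -/
lemma uniform (hK : K.FiniteIndex) (P : Subgroup G → ℕ → Prop)
    (hmono : ∀ H n n', n ≤ n' → P H n → P H n') (h : ∀ H, K ≤ H → ∃ n, P H n) :
    ∃ n, ∀ H, K ≤ H → P H n := by
  classical
  have h3 : ∀ H : Subgroup G, ∃ n, K ≤ H → P H n := by
    intro H
    by_cases hKH : K ≤ H
    · obtain ⟨n, hn⟩ := h H hKH
      exact ⟨n, fun _ => hn⟩
    · exact ⟨0, fun h => absurd h hKH⟩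
  choose C hC using h3
  obtain ⟨N, hN⟩ := ((finite_over hK).image C).bddAbove
  exact ⟨N, fun H hKH => hmono H _ _ (hN ⟨H, hKH, rfl⟩) (hC H hKH)⟩

/-- first lemma: the sections on level `q k₀` -/
lemma lem1 [Finite X] [Nonempty X] (D : Dat G K) (q : ℕ) :
    ∃ C, ∀ n n₁ N, (∀ n', 2 ^ q * n' ≤ n + 2 ^ q → (D.c₁ + 1) * n' + C ≤ n₁) →
      Bd D n₁ N → Bd D n (C + N) := by
  have key : ∀ H : Subgroup G, K ≤ H → ∃ C, ∀ n n₁ N,
      (∀ n', 2 ^ q * n' ≤ n + 2 ^ q → (D.c₁ + 1) * n' + C ≤ n₁) → Bd D n₁ N →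
        ∀ y ∈ ⁅H, K⁆, L D.B (y : Tr X) ≤ n → y ∈ R K (D.Sg H) (C + N) := by
    intro H hKH
    obtain ⟨C₁, h1⟩ := classCorr D hKH (q * D.k₀)
    obtain ⟨C₂, h2⟩ := liftR D.br (D.gen H hKH) (fun v => D.Sg (secG D.br.self H v))
      (fun v => (D.gen _ (K_le_secG D.br hKH v)).sub) (q * D.k₀)
    refine ⟨C₁ + C₁ + C₂ + 2 * ((D.Sg H).length * (D.Sg H).length), fun n n₁ N hn hN y hy hl => ?_⟩
    obtain ⟨d, i, hi, z, hz, w, hw, e, hdi, hd⟩ := h1 y hy
    have h3 : i ∈ R K (D.Sg H) (C₂ + N) := by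
      refine h2 N d i ?_ hdi
      intro v hv
      obtain ⟨h4, h5⟩ := hd v hv
      refine hN _ (K_le_secG D.br hKH v) _ h4 ?_
      obtain ⟨n', h6, h7⟩ := ((len_L D.base y.2).mono hl).level D.br.self D.base q hv
        (sec_spec D.br.self y v)
      have h8 := hn n' h7
      have h9 : L D.B (sec D.br.self y v : Tr X) ≤ n' := L_le h6
      have h10 : (D.c₁ + 1) * L D.B (sec D.br.self y v : Tr X) ≤ (D.c₁ + 1) * n' :=
        Nat.mul_le_mul_left _ h9
      omega
    rw [e]
    refine R_mono ?_ (R_mul (R_mul hz h3) hw)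
    omega
  obtain ⟨C, hC⟩ := uniform D.fin (fun H C => ∀ n n₁ N,
      (∀ n', 2 ^ q * n' ≤ n + 2 ^ q → (D.c₁ + 1) * n' + C ≤ n₁) → Bd D n₁ N →
        ∀ y ∈ ⁅H, K⁆, L D.B (y : Tr X) ≤ n → y ∈ R K (D.Sg H) (C + N)) (by
    intro H C C' hCC h n n₁ N hn hN y hy hl
    refine R_mono (by omega) (h n n₁ N (fun n' hn' => ?_) hN y hy hl)
    have := hn n' hn'
    omega) key
  exact ⟨C, fun n n₁ N hn hN H hKH y hy hl => hC H hKH n n₁ N hn hN y hy hl⟩

/-- second lemma: merging and splitting on level `m` -/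
lemma lem2 [Finite X] [Nonempty X] (D : Dat G K) (m : ℕ)
    (hm : ∀ v : List X, v.length = m → ∃ b ∈ K, b • v ≠ v) :
    ∃ A C, ∀ n M, Bd D (A * n + C) (M + M) → Bd D n (C + M) := by
  classical
  have hG := D.br.self
  have hBB := D.base
  have fW : {l : List X | l.length = m}.Finite := List.finite_length_eq X m
  set l : List (List X) := fW.toFinset.toList with hl
  have hlm : ∀ v, v ∈ l ↔ v.length = m := by
    intro v
    rw [hl, Finset.mem_toList, Set.Finite.mem_toFinset]
    exact Iff.rfl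
  have hlnd : l.Nodup := Finset.nodup_toList _
  -- the elements moving the words
  have hb : ∀ v : List X, ∃ b ∈ K, v.length = m → b • v ≠ v := by
    intro v
    by_cases hv : v.length = m
    · obtain ⟨b, hb, h⟩ := hm v hv
      exact ⟨b, hb, fun _ => h⟩
    · exact ⟨1, K.one_mem, fun h => absurd h hv⟩
  choose b hbK hbv using hb
  set A := (l.length + 1) * (D.c₁ + 1) with hA
  have key : ∀ H : Subgroup G, K ≤ H → ∃ C, ∀ n M, Bd D (A * n + C) (M + M) →
        ∀ y ∈ ⁅H, K⁆, L D.B (y : Tr X) ≤ n → y ∈ R K (D.Sg H) (C + M) := by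
    intro H hKH
    have hle : ∀ v, K ≤ secG D.br.self H v := fun v => K_le_secG D.br hKH v
    obtain ⟨C₁, h1⟩ := classCorr D hKH m
    obtain ⟨C₂, h2⟩ := liftR D.br (D.gen H hKH) (fun v => D.Sg (secG D.br.self H v))
      (fun v => (D.gen _ (hle v)).sub) m
    obtain ⟨a, ha, hav, har⟩ := exists_mover (X := X) H
    set s : List X → G := fun v => sec D.br.self (a v) v with hs
    obtain ⟨Cs, hCs⟩ : ∃ Cs, ∀ v : List X, v.length = m → L D.B (s v : Tr X) ≤ Cs := by
      obtain ⟨c, hc⟩ := (fW.image fun v => L D.B (s v : Tr X)).bddAbove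
      exact ⟨c, fun v hv => hc ⟨v, hv, rfl⟩⟩
    obtain ⟨C₃, h3⟩ := moveAll D.br (D.gen H hKH) a ha hav l (fun v hv => (hlm v).1 hv) hlnd
    set σ := (D.Sg H).length * (D.Sg H).length with hσ
    set C₄ := (l.length + 1) * (C₁ + 2 * Cs) with hC₄
    refine ⟨C₁ + C₁ + C₂ + C₃ + l.length + 4 * σ + C₄, fun n M hM y hy hl' => ?_⟩
    obtain ⟨d, i, hi, z, hz, w, hw, e, hdi, hd⟩ := h1 y hy
    -- lengths
    have hdL : ∀ v : List X, v.length = m → L D.B (d v : Tr X) ≤ (D.c₁ + 1) * n + C₁ := by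
      intro v hv
      have h4 := (hd v hv).2
      have h5 := L_sec hG hBB y.2 (sec_spec D.br.self y v)
      have h6 : (D.c₁ + 1) * L D.B (sec D.br.self y v : Tr X) ≤ (D.c₁ + 1) * n :=
        Nat.mul_le_mul_left _ (h5.trans hl')
      omega
    -- the restriction of `d`
    obtain ⟨d', hd'K, hd'⟩ := exists_restrict m d (fun x => x ∈ K) K.one_mem
      (fun v hv => comm_le_self _ (hd v hv).1)
    have hd'i : InsG m d' i := hdi.congr fun v hv => (hd' v hv).symm
    -- merging
    obtain ⟨h', g', hg', w', hw', e', hi', hh', p1, p2, p3⟩ :=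
      h3 (fun v => s v * d' v * (s v)⁻¹) d' i (fun v => hKn.conj_mem _ (hd'K v) _) hd'K hi hd'i
    have p1' : ∀ v : List X, v.length = m → rtG H v ≠ v → h' v = 1 := by
      intro v hv hr
      rw [p1 v hr ((hlm v).2 hv)]
      show d' v * ((s v)⁻¹ * (s v * d' v * (s v)⁻¹) * s v)⁻¹ = 1
      group
    -- membership and length for conjugates
    have hconj : ∀ u : List X, u.length = m →
        s u * d u * (s u)⁻¹ ∈ ⁅secG D.br.self H (rtG H u), K⁆ := by
      intro u hu
      have h4 := secG_comm_conj D.br.self (K := K) (ha u) (hd u hu).1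
      rw [hav] at h4
      exact h4
    have hconjL : ∀ u : List X, u.length = m →
        L D.B ((s u * d u * (s u)⁻¹ : G) : Tr X) ≤ (D.c₁ + 1) * n + C₁ + 2 * Cs := by
      intro u hu
      have h1 := L_mul hBB (s u * d u : G).2 ((s u)⁻¹ : G).2
      have h2 := L_mul hBB (s u : G).2 (d u).2
      have h3 := L_inv hBB (s u).2
      have h4 := hCs u hu
      have h5 : ((s u * d u * (s u)⁻¹ : G) : Tr X) =
        ((s u * d u : G) : Tr X) * (((s u)⁻¹ : G) : Tr X) := rfl
      have h6 : ((s u * d u : G) : Tr X) = (s u : Tr X) * (d u : Tr X) := rfl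
      have h7 : (((s u)⁻¹ : G) : Tr X) = (s u : Tr X)⁻¹ := rfl
      have h8 := hdL u hu
      rw [h5]
      rw [h6, h7] at h1 ⊢
      omega
    -- the representatives
    have hroot : ∀ r : List X, r.length = m → rtG H r = r →
        h' r ∈ ⁅secG D.br.self H r, K⁆ ∧ L D.B (h' r : Tr X) ≤ A * n + C₄ := by
      intro r hr hrr
      have h4 : ∀ l' : List (List X), (∀ u ∈ l', u.length = m ∧ rtG H u = r) →
          (l'.map fun v => s v * d' v * (s v)⁻¹).prod ∈ ⁅secG D.br.self H r, K⁆ ∧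
          L D.B ((l'.map fun v => s v * d' v * (s v)⁻¹).prod : G) ≤
            l'.length * ((D.c₁ + 1) * n + C₁ + 2 * Cs) := by
        intro l'
        induction l' with
        | nil =>
          intro _
          refine ⟨Subgroup.one_mem _, ?_⟩
          rw [List.map_nil, List.prod_nil]
          have : L D.B ((1 : G) : Tr X) = 0 := L_one
          rw [this]; exact Nat.zero_le _
        | cons u l' ih =>
          intro hl'
          obtain ⟨h5, h6⟩ := ih fun v hv => hl' v (List.mem_cons_of_mem _ hv)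
          obtain ⟨hu, hur⟩ := hl' u List.mem_cons_self
          have h7 := hconj u hu
          have h8 := hconjL u hu
          rw [hur] at h7
          rw [List.map_cons, List.prod_cons, hd' u hu]
          refine ⟨Subgroup.mul_mem _ h7 h5, ?_⟩
          have h9 := L_mul hBB (s u * d u * (s u)⁻¹ : G).2
            ((l'.map fun v => s v * d' v * (s v)⁻¹).prod : G).2
          have h10 : ((s u * d u * (s u)⁻¹ * (l'.map fun v => s v * d' v * (s v)⁻¹).prod : G) :
              Tr X) = ((s u * d u * (s u)⁻¹ : G) : Tr X) *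
                (((l'.map fun v => s v * d' v * (s v)⁻¹).prod : G) : Tr X) := rfl
          rw [h10, List.length_cons, Nat.succ_mul]
          omega
      have h5 := h4 (orbL H l r) (by
        intro u hu
        unfold orbL at hu
        obtain ⟨h6, h7⟩ := List.mem_filter.1 hu
        simp only [decide_eq_true_eq] at h7
        exact ⟨(hlm u).1 h6, h7.1⟩)
      rw [p3 r hrr, hd' r hr]
      refine ⟨Subgroup.mul_mem _ (hd r hr).1 h5.1, ?_⟩
      have h6 := L_mul hBB (d r).2
        (((orbL H l r).map fun v => s v * d' v * (s v)⁻¹).prod : G).2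
      have h7 : ((d r * ((orbL H l r).map fun v => s v * d' v * (s v)⁻¹).prod : G) : Tr X) =
        (d r : Tr X) * ((((orbL H l r).map fun v => s v * d' v * (s v)⁻¹).prod : G) : Tr X) := rfl
      rw [h7]
      have h8 := hdL r hr
      have h9 : (orbL H l r).length ≤ l.length := List.length_filter_le _ _
      have h10 := Nat.mul_le_mul_right ((D.c₁ + 1) * n + C₁ + 2 * Cs) h9
      have h11 : A * n + C₄ = l.length * ((D.c₁ + 1) * n + C₁ + 2 * Cs) +
          ((D.c₁ + 1) * n + C₁ + 2 * Cs) := by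
        rw [hA, hC₄]; ring
      omega
    -- splitting
    have hsp : ∀ r : List X, ∃ y₀ κ₁ κ₂ : G, κ₁ ∈ CK K M ∧ κ₂ ∈ CK K M ∧
        (r.length = m → rtG H r = r → y₀ ∈ R K (D.Sg (secG D.br.self H r)) 0 ∧
          h' r = y₀ * (κ₁ * κ₂)) := by
      intro r
      by_cases hr : r.length = m ∧ rtG H r = r
      · obtain ⟨h4, h5⟩ := hroot r hr.1 hr.2
        have h6 := hM _ (hle r) _ h4 (h5.trans (by omega))
        obtain ⟨y₀, hy₀, κ, hκ, h7⟩ := R_split h6
        obtain ⟨κ₁, hκ₁, κ₂, hκ₂, h8⟩ := CK_split hκ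
        exact ⟨y₀, κ₁, κ₂, hκ₁, hκ₂, fun _ _ => ⟨hy₀, by rw [h7, h8]⟩⟩
      · exact ⟨1, 1, 1, one_mem_CK M, one_mem_CK M, fun h4 h5 => absurd ⟨h4, h5⟩ hr⟩
    choose y₀ κ₁ κ₂ hκ₁ hκ₂ hsplit using hsp
    -- the restriction of `h'`
    obtain ⟨h'', hh''P, hh''⟩ := exists_restrict m h' (fun x => x ∈ K) K.one_mem
      (fun v _ => hh' v)
    have hh''2 : ∃ h'' : List X → G, (∀ v, h'' v ∈ K) ∧
        (∀ v : List X, v.length = m → h'' v = h' v) ∧ ∀ v, rtG H v ≠ v → h'' v = 1 := by
      refine ⟨fun v => if v.length = m then h' v else 1, ?_, ?_, ?_⟩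
      · intro v
        show (if v.length = m then h' v else 1) ∈ K
        split
        · exact hh' v
        · exact K.one_mem
      · intro v hv
        exact if_pos hv
      · intro v hv
        show (if v.length = m then h' v else 1) = 1
        split
        · rename_i hvm; exact p1' v hvm hv
        · rfl
    obtain ⟨h'', hh''K, hh''m, hh''1⟩ := hh''2
    have hi'' : InsG m h'' g' := hi'.congr fun v hv => (hh''m v hv).symm
    obtain ⟨q, g₂, hg₂, c₂, hc₂, e₂, hi₂, q0, q1, q2, q3, q4⟩ :=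
      splitAll D.br hKH b hbK hbv κ₂ hκ₂ h'' g' hg' hi'' hh''K hh''1 l
        (fun v hv => (hlm v).1 hv) hlnd
    have hfinal : g₂ ∈ R K (D.Sg H) (C₂ + M) := by
      refine h2 M q g₂ ?_ hi₂
      intro v hv
      by_cases hr : rtG H v = v
      · rw [q1 v ((hlm v).2 hv) hr, hh''m v hv]
        obtain ⟨h4, h5⟩ := hsplit v hv hr
        rw [h5, ← mul_assoc, mul_inv_cancel_right]
        exact R_join h4 (hκ₁ v)
      · exact CK_R (q3 v hr)
    have heq : y = z * (g₂ * c₂ * w') * w := by rw [e, e', e₂]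
    rw [heq]
    refine R_mono ?_ (R_mul (R_mul hz (R_mul (R_mul_CK hfinal hc₂) hw')) hw)
    omega
  obtain ⟨C, hC⟩ := uniform D.fin (fun H C => ∀ n M, Bd D (A * n + C) (M + M) →
        ∀ y ∈ ⁅H, K⁆, L D.B (y : Tr X) ≤ n → y ∈ R K (D.Sg H) (C + M)) (by
    intro H C C' hCC h n M hM y hy hl
    exact R_mono (by omega) (h n M (hM.mono (by omega) le_rfl) y hy hl)) key
  exact ⟨A, C, fun n M hM H hKH y hy hl => hC H hKH n M hM y hy hl⟩

/-- the bound for `[H, K]` -/
theorem bound_HK [Finite X] [Nonempty X] (D : Dat G K) (m : ℕ)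
    (hm : ∀ v : List X, v.length = m → ∃ b ∈ K, b • v ≠ v) :
    ∃ N, ∀ H : Subgroup G, K ≤ H → ∀ y ∈ ⁅H, K⁆, y ∈ R K (D.Sg H) N := by
  obtain ⟨A, C₂, h2⟩ := lem2 D m hm
  obtain ⟨q, hq⟩ : ∃ q, 2 * A * (D.c₁ + 1) ≤ 2 ^ q :=
    ⟨2 * A * (D.c₁ + 1), Nat.lt_two_pow_self.le⟩
  obtain ⟨C₁, h1⟩ := lem1 D q
  set C₅ := 2 ^ q + 2 * (A * C₁ + C₂) with hC₅
  set C₆ := C₁ + C₂ with hC₆
  obtain ⟨N₀, hN₀⟩ := Bd_exists D C₅
  set N := N₀ + 2 * C₆ + 1 with hN
  have main : ∀ n, Bd D n N := by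
    intro n
    induction n using Nat.strong_induction_on with
    | _ n ih =>
      by_cases hn : n ≤ C₅
      · exact hN₀.mono hn (by omega)
      · -- the length of the sections
        set n' := (n + 2 ^ q) / 2 ^ q with hn'
        have hpos : 0 < 2 ^ q := by positivity
        have h3 : ∀ n'', 2 ^ q * n'' ≤ n + 2 ^ q → n'' ≤ n' := by
          intro n'' h4
          rw [hn', Nat.le_div_iff_mul_le hpos, mul_comm]
          exact h4
        have h4 : 2 ^ q * n' ≤ n + 2 ^ q := Nat.mul_div_le _ _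
        set n₁ := (D.c₁ + 1) * n' + C₁ with hn₁
        have h5 : 2 * (A * n₁ + C₂) ≤ n + C₅ := by
          have h6 : 2 * (A * n₁ + C₂) = 2 * A * (D.c₁ + 1) * n' + 2 * (A * C₁ + C₂) := by
            rw [hn₁]; ring
          have h7 : 2 * A * (D.c₁ + 1) * n' ≤ 2 ^ q * n' := Nat.mul_le_mul_right _ hq
          omega
        have h6 : A * n₁ + C₂ < n := by omega
        have h7 : Bd D (A * n₁ + C₂) ((N + 1) / 2 + (N + 1) / 2) :=
          (ih _ h6).mono le_rfl (by omega)
        have h8 : Bd D n₁ (C₂ + (N + 1) / 2) := h2 n₁ _ h7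
        have h9 : Bd D n (C₁ + (C₂ + (N + 1) / 2)) :=
          h1 n n₁ _ (fun n'' h10 => by
            have := Nat.mul_le_mul_left (D.c₁ + 1) (h3 n'' h10)
            omega) h8
        exact h9.mono le_rfl (by omega)
  exact ⟨N, fun H hKH y hy => main _ H hKH y hy le_rfl⟩

end Pool.Agent.CB71
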