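import Mathlib
import Pool.Agent.CB71.GM

set_option autoImplicit false
set_option linter.unusedSectionVars false

/-!
Commutator width of the groups between `K` and `G`.
-/

namespace Pool.Agent.CB71

open scoped commutatorElement
open Pool.Agent.CW71

section general

variable {Γ : Type*} [Group Γ]

lemma exists_CK (H : Subgroup Γ) {x : Γ} (hx : x ∈ ⁅H, H⁆) : ∃ n, x ∈ CK H n := by
  rw [Subgroup.commutator_def] at hx
  induction hx using Subgroup.closure_induction'' with
  | mem x hx =>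
    obtain ⟨p, hp, q, hq, rfl⟩ := hx
    exact ⟨1, comm_mem_CK hp hq⟩
  | inv_mem x hx =>
    obtain ⟨p, hp, q, hq, rfl⟩ := hx
    rw [commutatorElement_inv]
    exact ⟨1, comm_mem_CK hq hp⟩
  | one => exact ⟨0, rfl⟩
  | mul x y _ _ hx hy =>
    obtain ⟨n, hn⟩ := hx
    obtain ⟨m, hm⟩ := hy
    exact ⟨n + m, CK_mul hn hm⟩

lemma CK_le {K H : Subgroup Γ} (hKH : K ≤ H) {n : ℕ} {x : Γ} (hx : x ∈ CK K n) : x ∈ CK H n := by
  induction n generalizing x with
  | zero => exact hx
  | succ n ih =>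
    obtain ⟨p, hp, q, hq, z, hz, rfl⟩ := hx
    exact ⟨p, hKH hp, q, hKH hq, z, ih hz, rfl⟩

lemma R_CK {K H : Subgroup Γ} (hKH : K ≤ H) {S : List Γ} (hS : ∀ s ∈ S, s ∈ H) {M : ℕ} {x : Γ}
    (hx : x ∈ R K S M) : x ∈ CK H (S.length + M) := by
  induction S generalizing x with
  | nil => exact CK_mono (by simp) (CK_le hKH hx)
  | cons s S ih =>
    obtain ⟨m, hm, y, hy, rfl⟩ := hx
    have h1 := CK_mul (comm_mem_CK (hS s List.mem_cons_self) (hKH hm))
      (ih (fun t ht => hS t (List.mem_cons_of_mem _ ht)) hy)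
    exact CK_mono (by rw [List.length_cons]; omega) h1

lemma subgroupOf_finiteIndex {K : Subgroup Γ} [hK : K.Normal] (hfin : K.FiniteIndex)
    (H : Subgroup Γ) : (K.subgroupOf H).FiniteIndex := by
  constructor
  intro h3
  have h4 : K.relIndex H ∣ K.index := Subgroup.relIndex_dvd_index_of_normal _ _
  have h5 : K.relIndex H = 0 := h3
  rw [h5] at h4
  exact hfin.index_ne_zero (Nat.eq_zero_of_zero_dvd h4)

/-- finitely many representatives of `[H, H]` modulo `[H, K]` -/
lemma transversal_HH {H K : Subgroup Γ} [hK : K.Normal] (hfin : K.FiniteIndex) :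
    ∃ T : Set Γ, T.Finite ∧ (∀ t ∈ T, t ∈ ⁅H, H⁆) ∧ ∀ y ∈ ⁅H, H⁆, ∃ t ∈ T, t⁻¹ * y ∈ ⁅H, K⁆ := by
  classical
  have hfin' := subgroupOf_finiteIndex hfin H
  set P' : Subgroup H := K.subgroupOf H with hP'
  have hP'n : P'.Normal := hK.subgroupOf H
  set E : Subgroup H := ⁅(⊤ : Subgroup H), P'⁆ with hE
  have hEn : E.Normal := Subgroup.commutator_normal _ _
  have h1 : Finite (commutator (H ⧸ E)) := by
    refine schur_finite (P'.map (QuotientGroup.mk' E)) ⟨?_⟩ ?_
    · have h2 := Subgroup.index_map_dvd P' (QuotientGroup.mk'_surjective E)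
      intro h3
      rw [h3] at h2
      exact hfin'.index_ne_zero (Nat.eq_zero_of_zero_dvd h2)
    · rintro p ⟨p', hp', rfl⟩ g
      obtain ⟨g', rfl⟩ := QuotientGroup.mk'_surjective E g
      have h2 : QuotientGroup.mk' E ⁅g', p'⁆ = 1 :=
        (QuotientGroup.eq_one_iff _).2 (Subgroup.commutator_mem_commutator (Subgroup.mem_top _) hp')
      rw [map_commutatorElement] at h2
      exact commutatorElement_eq_one_iff_mul_comm.1 h2
  have hQ : ((commutator (H ⧸ E) : Subgroup (H ⧸ E)) : Set (H ⧸ E)).Finite := h1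
  let f : H ⧸ E → Γ := fun q =>
    if h : ∃ t ∈ commutator H, QuotientGroup.mk' E t = q then ((h.choose : H) : Γ) else 1
  have hmap : ∀ t ∈ commutator H, (t : Γ) ∈ ⁅H, H⁆ := by
    intro t ht
    rw [← Subgroup.map_subtype_commutator]
    exact ⟨t, ht, rfl⟩
  refine ⟨f '' (commutator (H ⧸ E) : Subgroup (H ⧸ E)), hQ.image f, ?_, ?_⟩
  · rintro t ⟨q, _, rfl⟩
    by_cases h : ∃ t ∈ commutator H, QuotientGroup.mk' E t = q
    · have : f q = ((h.choose : H) : Γ) := dif_pos h
      rw [this]; exact hmap _ h.choose_spec.1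
    · have : f q = 1 := dif_neg h
      rw [this]; exact Subgroup.one_mem _
  · intro y hy
    rw [← Subgroup.map_subtype_commutator] at hy
    obtain ⟨y', hy', rfl⟩ := hy
    have h2 : QuotientGroup.mk' E y' ∈ commutator (H ⧸ E) := by
      have h3 : (commutator H).map (QuotientGroup.mk' E) ≤ commutator (H ⧸ E) := by
        rw [commutator_def, commutator_def, Subgroup.map_commutator]
        exact Subgroup.commutator_mono le_top le_top
      exact h3 ⟨y', hy', rfl⟩
    have h : ∃ t ∈ commutator H, QuotientGroup.mk' E t = QuotientGroup.mk' E y' := ⟨y', hy', rfl⟩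
    have h3 : f (QuotientGroup.mk' E y') = ((h.choose : H) : Γ) := dif_pos h
    refine ⟨f (QuotientGroup.mk' E y'), ⟨_, h2, rfl⟩, ?_⟩
    rw [h3]
    have h4 : (h.choose)⁻¹ * y' ∈ E := QuotientGroup.eq.1 h.choose_spec.2
    have h6 : E.map H.subtype ≤ ⁅H, K⁆ := by
      rw [hE, Subgroup.map_commutator]
      apply Subgroup.commutator_mono
      · rintro x ⟨z, _, rfl⟩; exact z.2
      · rintro x ⟨z, hz, rfl⟩; exact hz
    exact h6 ⟨_, h4, rfl⟩

end general

variable {X : Type}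

section inner

variable {G : Subgroup (Tr X)} {K : Subgroup G} [hKn : K.Normal]

theorem bound_HH [Finite X] [Nonempty X] (D : Dat G K) (m : ℕ)
    (hm : ∀ v : List X, v.length = m → ∃ b ∈ K, b • v ≠ v) (H : Subgroup G) (hKH : K ≤ H) :
    ∃ N, ∀ y ∈ ⁅H, H⁆, y ∈ CK H N := by
  classical
  obtain ⟨N, hN⟩ := bound_HK D m hm
  obtain ⟨T, hT, hTH, hT'⟩ := transversal_HH (H := H) D.fin
  have h1 : ∀ t : G, ∃ n, t ∈ T → t ∈ CK H n := by
    intro t
    by_cases ht : t ∈ T
    · obtain ⟨n, hn⟩ := exists_CK H (hTH t ht)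
      exact ⟨n, fun _ => hn⟩
    · exact ⟨0, fun h => absurd h ht⟩
  choose f hf using h1
  obtain ⟨C, hC⟩ := (hT.image f).bddAbove
  refine ⟨C + ((D.Sg H).length + N), fun y hy => ?_⟩
  obtain ⟨t, ht, h2⟩ := hT' y hy
  have h3 := R_CK hKH (D.gen H hKH).sub (hN H hKH _ h2)
  have h4 := CK_mul (CK_mono (hC ⟨t, ht, rfl⟩) (hf t ht)) h3
  rwa [mul_inv_cancel_left] at h4

theorem exists_Dat [Finite X] [Nonempty X] (hfg : G.FG) (hc : Contracting G) (hbr : Br G K)
    (hK : K.FiniteIndex) : Nonempty (Dat G K) := by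
  classical
  obtain ⟨B, k₀, hB⟩ := exists_base hbr.self hfg hc
  have hGfg : Group.FG G := (Group.fg_iff_subgroup_fg G).2 hfg
  have hHfg : ∀ H : Subgroup G, K ≤ H → Group.FG H := by
    intro H hKH
    have : H.FiniteIndex := Subgroup.finiteIndex_of_le hKH
    exact Subgroup.fg_of_index_ne_zero H
  have hgen : ∀ H : Subgroup G, ∃ S : List G, K ≤ H → GenList H S := by
    intro H
    by_cases hKH : K ≤ H
    · obtain ⟨S, hS⟩ := exists_genList H ((Group.fg_iff_subgroup_fg H).1 (hHfg H hKH))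
      exact ⟨S, fun _ => hS⟩
    · exact ⟨[], fun h => absurd h hKH⟩
  choose Sg hSg using hgen
  have hKfg : Group.FG K := hHfg K le_rfl
  have hP : ∀ H : Subgroup G, K ≤ H → Nonempty (Phi K H) := fun H hKH => exists_Phi hKH hKfg
  let P : ∀ H : Subgroup G, K ≤ H → Phi K H := fun H hKH => (hP H hKH).some
  obtain ⟨c, hc'⟩ := uniform hK (fun H n => ∀ (h : K ≤ H), ∀ x ∈ K,
    L B ((kap (P H h) ((P H h).φ x) : G) : Tr X) ≤ n * (L B (x : Tr X) + 2)) (by
      intro H n n' hn h hKH x hx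
      exact (h hKH x hx).trans (Nat.mul_le_mul_right _ hn)) (by
      intro H hKH
      obtain ⟨c, hc⟩ := kap_bound hB hK (P H hKH)
      exact ⟨c, fun _ => hc⟩)
  exact ⟨⟨hbr, hK, B, k₀, hB, Sg, hSg, P, c, fun H h x hx => hc' H h h x hx⟩⟩

/-- `K` has no fixed words on some level -/
lemma exists_levelG [Finite X] [Nontrivial X] (ht : LevelTransitive G) (hK : K.FiniteIndex) :
    ∃ m, ∀ v : List X, v.length = m → ∃ b ∈ K, b • v ≠ v := by
  classical
  refine ⟨K.index, ?_⟩
  by_contra hcon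
  push Not at hcon
  obtain ⟨v, hv, hfix⟩ := hcon
  set m := K.index with hm
  have : Fintype X := Fintype.ofFinite X
  choose g hg hgv using fun (w : List.Vector X m) => ht v w.1 (by rw [hv, w.2])
  let f : List.Vector X m → G ⧸ K := fun w => QuotientGroup.mk ⟨g w, hg w⟩
  have hf : Function.Injective f := by
    intro w w' h
    have h1 := QuotientGroup.eq.1 h
    have h3 := hfix _ h1
    rw [mul_smul, inv_smul_eq_iff] at h3
    have h4 : g w' v = g w v := h3
    rw [hgv, hgv] at h4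
    exact (Subtype.ext h4).symm
  have : Finite (G ⧸ K) := Subgroup.finite_quotient_of_finiteIndex
  have hcard := Nat.card_le_card_of_injective f hf
  rw [Nat.card_eq_fintype_card, card_vector] at hcard
  have h5 : Nat.card (G ⧸ K) = m := rfl
  rw [h5] at hcard
  have h6 : 2 ^ m ≤ Fintype.card X ^ m :=
    Nat.pow_le_pow_left Fintype.one_lt_card m
  have h7 : m < 2 ^ m := Nat.lt_two_pow_self
  omega

end inner

section outer

/-- the normal core still contains its power -/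
lemma br_core [Nonempty X] {G K : Subgroup (Tr X)} (hss : SelfSimilar G) (hKG : K ≤ G)
    (hp : ContainsPower K) : Br G (K.subgroupOf G).normalCore := by
  refine ⟨hss, fun m k hk => ?_⟩
  set N := (K.subgroupOf G).normalCore with hN
  have hNn : N.Normal := Subgroup.normalCore_normal _
  have hNK : ∀ x ∈ N, (x : Tr X) ∈ K := fun x hx => Subgroup.normalCore_le (K.subgroupOf G) hx
  have key : ∀ k : List X → G, (∀ v, k v ∈ N) → ∃ g : G, (g : Tr X) ∈ K ∧ InsG m k g := by
    intro k hk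
    obtain ⟨g, hg, hi⟩ := ins_exists hp m (fun v => (k v : Tr X)) fun v => hNK _ (hk v)
    exact ⟨⟨g, hKG hg⟩, hg, hi⟩
  obtain ⟨g, hg, hi⟩ := key k hk
  refine ⟨g, ?_, hi⟩
  intro a
  show ((a * g * a⁻¹ : G) : Tr X) ∈ K
  have h1 := hi.conj hss a
  obtain ⟨g', hg', hi'⟩ := key _ fun v => hNn.conj_mem _ (hk (a⁻¹ • v)) (sec hss a (a⁻¹ • v))
  rw [insG_unique hss h1 hi' fun _ _ => rfl]
  exact hg'

lemma CK_listH {G H : Subgroup (Tr X)} {n : ℕ} {x : G} (hx : x ∈ CK (H.subgroupOf G) n) :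
    ∃ l : List (H × H), l.length ≤ n ∧
      (x : Tr X) = (((l.map fun p => ⁅p.1, p.2⁆).prod : H) : Tr X) := by
  induction n generalizing x with
  | zero =>
    have : x = 1 := hx
    exact ⟨[], le_rfl, by rw [this]; rfl⟩
  | succ n ih =>
    obtain ⟨p, hp, q, hq, y, hy, rfl⟩ := hx
    obtain ⟨l, hl, e⟩ := ih hy
    refine ⟨(⟨p, hp⟩, ⟨q, hq⟩) :: l, by simpa using hl, ?_⟩
    rw [List.map_cons, List.prod_cons]
    have h1 : ((⁅p, q⁆ * y : G) : Tr X) = ⁅(p : Tr X), (q : Tr X)⁆ * (y : Tr X) := rfl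
    rw [h1, e]
    rfl

theorem main_CB [Finite X] [Nontrivial X] {G K H : Subgroup (Tr X)} (hfg : G.FG)
    (hss : SelfSimilar G) (hc : Contracting G) (ht : LevelTransitive G) (hKH : K ≤ H) (hHG : H ≤ G)
    (hKi : (K.subgroupOf G).FiniteIndex) (hKp : ContainsPower K) :
    ∃ N : ℕ, ∀ g ∈ commutator H, ∃ l : List (H × H),
      l.length ≤ N ∧ g = (l.map fun p => ⁅p.1, p.2⁆).prod := by
  have hbr := br_core hss (hKH.trans hHG) hKp
  set K₁ := (K.subgroupOf G).normalCore with hK₁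
  have hK₁n : K₁.Normal := Subgroup.normalCore_normal _
  have hK₁i : K₁.FiniteIndex := by
    rw [hK₁]; infer_instance
  obtain ⟨D⟩ := exists_Dat hfg hc hbr hK₁i
  obtain ⟨m, hm⟩ := exists_levelG ht hK₁i
  have hle : K₁ ≤ H.subgroupOf G := (Subgroup.normalCore_le _).trans fun x hx => hKH hx
  obtain ⟨N, hN⟩ := bound_HH D m hm (H.subgroupOf G) hle
  refine ⟨N, fun g hg => ?_⟩
  have h1 : (commutator H).map (Subgroup.inclusion hHG) ≤ ⁅H.subgroupOf G, H.subgroupOf G⁆ := by
    rw [commutator_def, Subgroup.map_commutator]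
    apply Subgroup.commutator_mono
    · rintro x ⟨z, _, rfl⟩; exact z.2
    · rintro x ⟨z, _, rfl⟩; exact z.2
  obtain ⟨l, hl, e⟩ := CK_listH (hN _ (h1 ⟨g, hg, rfl⟩))
  exact ⟨l, hl, Subtype.ext e⟩

end outer

end Pool.Agent.CB71
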