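import Mathlib
import Pool.Agent.CB71.GN

set_option autoImplicit false
set_option linter.unusedSectionVars false

/-!
Every subgroup of finite index contains a subgroup of finite index containing its power.
-/

namespace Pool.Agent.CB71

open scoped commutatorElement
open Pool.Agent.CW71

variable {X : Type} {G : Subgroup (Tr X)}

lemma del_mul (v : List X) (x y : G) (u : List X) : del v x u * del v y u = del v (x * y) u := by
  by_cases hu : u = v
  · rw [hu, del_self, del_self, del_self]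
  · rw [del_ne _ hu, del_ne _ hu, del_ne _ hu, one_mul]

lemma del_inv (v : List X) (x : G) (u : List X) : (del v x u)⁻¹ = del v x⁻¹ u := by
  by_cases hu : u = v
  · rw [hu, del_self, del_self]
  · rw [del_ne _ hu, del_ne _ hu, inv_one]

lemma del_one (v : List X) (u : List X) : del v (1 : G) u = 1 := by
  by_cases hu : u = v
  · rw [hu, del_self]
  · rw [del_ne _ hu]

/-- the elements whose insertion at `v` belongs to `A` -/
def delSub (A : Subgroup G) (m : ℕ) (v : List X) : Subgroup G where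
  carrier := {x | ∃ g ∈ A, InsG m (del v x) g}
  one_mem' := ⟨1, A.one_mem, (insG_one m).congr fun u _ => (del_one v u).symm⟩
  mul_mem' := by
    rintro x y ⟨g, hg, h⟩ ⟨g', hg', h'⟩
    exact ⟨g * g', A.mul_mem hg hg', (h.mul h').congr fun u _ => del_mul v x y u⟩
  inv_mem' := by
    rintro x ⟨g, hg, h⟩
    exact ⟨g⁻¹, A.inv_mem hg, h.inv.congr fun u _ => del_inv v x u⟩

lemma insG_pow {m : ℕ} {k : List X → G} {g : G} (h : InsG m k g) (n : ℕ) :
    InsG m (fun v => k v ^ n) (g ^ n) := by
  induction n with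
  | zero =>
    rw [pow_zero]
    exact (insG_one m).congr fun v _ => (pow_zero _).symm
  | succ n ih =>
    rw [pow_succ]
    exact (ih.mul h).congr fun v _ => (pow_succ _ _).symm

lemma del_pow (v : List X) (x : G) (n : ℕ) (u : List X) : (del v x u) ^ n = del v (x ^ n) u := by
  by_cases hu : u = v
  · rw [hu, del_self, del_self]
  · rw [del_ne _ hu, del_ne _ hu, one_pow]

/-- insertion from the insertion at single words -/
lemma ins_of_del [Finite X] (A : Subgroup G) (m : ℕ) (k : List X → G)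
    (hk : ∀ v : List X, v.length = m → k v ∈ delSub A m v) : ∃ g ∈ A, InsG m k g := by
  classical
  have fW : {l : List X | l.length = m}.Finite := List.finite_length_eq X m
  have key : ∀ l : List (List X), (∀ v ∈ l, v.length = m) → l.Nodup →
      ∃ g ∈ A, InsG m (fun u => if u ∈ l then k u else 1) g := by
    intro l
    induction l with
    | nil =>
      intro _ _
      exact ⟨1, A.one_mem, (insG_one m).congr fun u _ => by simp⟩
    | cons v l ih =>
      intro hl hnd
      obtain ⟨hvl, hnd'⟩ := List.nodup_cons.1 hnd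
      obtain ⟨g, hg, hi⟩ := ih (fun u hu => hl u (List.mem_cons_of_mem _ hu)) hnd'
      obtain ⟨g', hg', hi'⟩ := hk v (hl v List.mem_cons_self)
      refine ⟨g' * g, A.mul_mem hg' hg, (hi'.mul hi).congr fun u _ => ?_⟩
      by_cases hu : u = v
      · rw [hu, del_self, if_neg hvl, if_pos List.mem_cons_self, mul_one]
      · rw [del_ne _ hu, one_mul]
        by_cases hul : u ∈ l
        · rw [if_pos hul, if_pos (List.mem_cons_of_mem _ hul)]
        · rw [if_neg hul, if_neg]
          rw [List.mem_cons, not_or]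
          exact ⟨hu, hul⟩
  obtain ⟨g, hg, hi⟩ := key fW.toFinset.toList
    (fun v hv => by
      have := Finset.mem_toList.1 hv
      simpa using this) (Finset.nodup_toList _)
  refine ⟨g, hg, hi.congr fun u hu => ?_⟩
  rw [if_pos]
  exact Finset.mem_toList.2 (by simpa using hu)

section powers

variable (K : Subgroup G) (n : ℕ)

/-- the subgroup generated by the `n`-th powers and the commutators of elements of `K` -/
def powSub : Subgroup G :=
  Subgroup.closure ({x | ∃ k ∈ K, x = k ^ n} ∪ {x | ∃ k ∈ K, ∃ l ∈ K, x = ⁅k, l⁆})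

variable {K n}

lemma pow_mem_powSub {k : G} (hk : k ∈ K) : k ^ n ∈ powSub K n :=
  Subgroup.subset_closure (Or.inl ⟨k, hk, rfl⟩)

lemma comm_mem_powSub {k l : G} (hk : k ∈ K) (hl : l ∈ K) : ⁅k, l⁆ ∈ powSub K n :=
  Subgroup.subset_closure (Or.inr ⟨k, hk, l, hl, rfl⟩)

lemma powSub_le_iff {A : Subgroup G} : powSub K n ≤ A ↔
    (∀ k ∈ K, k ^ n ∈ A) ∧ ∀ k ∈ K, ∀ l ∈ K, ⁅k, l⁆ ∈ A := by
  constructor
  · intro h
    exact ⟨fun k hk => h (pow_mem_powSub hk), fun k hk l hl => h (comm_mem_powSub hk hl)⟩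
  · rintro ⟨h1, h2⟩
    refine (Subgroup.closure_le _).2 ?_
    rintro x (⟨k, hk, rfl⟩ | ⟨k, hk, l, hl, rfl⟩)
    · exact h1 k hk
    · exact h2 k hk l hl

variable [hKn : K.Normal]

lemma powSub_le : powSub K n ≤ K :=
  powSub_le_iff.2 ⟨fun _ hk => K.pow_mem hk n, fun k _ _ hl => comm_mem_of_normal k hl⟩

lemma powSub_normal : (powSub K n).Normal := by
  constructor
  intro x hx g
  have h1 : powSub K n ≤ (powSub K n).comap (MulAut.conj g).toMonoidHom := by
    refine powSub_le_iff.2 ⟨fun k hk => ?_, fun k hk l hl => ?_⟩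
    · show g * k ^ n * g⁻¹ ∈ powSub K n
      rw [← conj_pow]
      exact pow_mem_powSub (hKn.conj_mem k hk g)
    · show g * ⁅k, l⁆ * g⁻¹ ∈ powSub K n
      have : g * ⁅k, l⁆ * g⁻¹ = ⁅g * k * g⁻¹, g * l * g⁻¹⁆ := by
        simp only [commutatorElement_def]; group
      rw [this]
      exact comm_mem_powSub (hKn.conj_mem k hk g) (hKn.conj_mem l hl g)
  exact h1 hx

lemma powSub_finiteIndex (hK : K.FiniteIndex) (hfg : Group.FG K) (hn : 0 < n) :
    (powSub K n).FiniteIndex := by
  have hPn := powSub_normal (K := K) (n := n)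
  have hDn : ((powSub K n).subgroupOf K).Normal := hPn.subgroupOf K
  have hcomm : ∀ x y : K ⧸ (powSub K n).subgroupOf K, x * y = y * x := by
    intro x y
    obtain ⟨x, rfl⟩ := QuotientGroup.mk'_surjective _ x
    obtain ⟨y, rfl⟩ := QuotientGroup.mk'_surjective _ y
    have h1 : ⁅x, y⁆ ∈ (powSub K n).subgroupOf K := by
      show ((⁅x, y⁆ : K) : G) ∈ powSub K n
      exact comm_mem_powSub x.2 y.2
    have h2 : QuotientGroup.mk' ((powSub K n).subgroupOf K) ⁅x, y⁆ = 1 :=
      (QuotientGroup.eq_one_iff _).2 h1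
    rw [map_commutatorElement] at h2
    exact commutatorElement_eq_one_iff_mul_comm.1 h2
  let _ : CommGroup (K ⧸ (powSub K n).subgroupOf K) :=
    { (inferInstance : Group (K ⧸ (powSub K n).subgroupOf K)) with mul_comm := hcomm }
  have hQfg : Group.FG (K ⧸ (powSub K n).subgroupOf K) := inferInstance
  have htor : IsMulTorsion (K ⧸ (powSub K n).subgroupOf K) := by
    intro x
    obtain ⟨x, rfl⟩ := QuotientGroup.mk'_surjective _ x
    rw [isOfFinOrder_iff_pow_eq_one]
    refine ⟨n, hn, ?_⟩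
    rw [← map_pow]
    refine (QuotientGroup.eq_one_iff _).2 ?_
    show ((x ^ n : K) : G) ∈ powSub K n
    exact pow_mem_powSub x.2
  have hfin : Finite (K ⧸ (powSub K n).subgroupOf K) := CommGroup.finite_of_fg_isMulTorsion _ htor
  constructor
  rw [← Subgroup.relIndex_mul_index (powSub_le (K := K) (n := n))]
  refine mul_ne_zero ?_ hK.index_ne_zero
  exact Subgroup.index_ne_zero_of_finite

/-- insertion of elements of the subgroup -/
lemma powSub_br [Finite X] (hB : Br G K) : Br G (powSub K n) := by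
  refine ⟨hB.self, fun m k hk => ins_of_del _ m k fun v hv => ?_⟩
  have h1 : powSub K n ≤ delSub (powSub K n) m v := by
    refine powSub_le_iff.2 ⟨fun k hk => ?_, fun k hk l hl => ?_⟩
    · obtain ⟨i, hi, hi'⟩ := hB.ins m (del v k) (del_mem hk)
      exact ⟨i ^ n, pow_mem_powSub hi, (insG_pow hi' n).congr fun u _ => del_pow v k n u⟩
    · obtain ⟨i, hi, hi'⟩ := hB.ins m (del v k) (del_mem hk)
      obtain ⟨j, hj, hj'⟩ := hB.ins m (del v l) (del_mem hl)
      refine ⟨⁅i, j⁆, comm_mem_powSub hi hj, ?_⟩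
      rw [commutatorElement_def]
      refine (((hi'.mul hj').mul hi'.inv).mul hj'.inv).congr fun u _ => ?_
      rw [del_inv, del_inv, del_mul, del_mul, del_mul]
  exact h1 (hk v)

/-- insertion of commutators into a normal subgroup moving a word -/
lemma comm_mem_delSub (hB : Br G K) {N : Subgroup G} [hN : N.Normal] {m : ℕ} {v : List X}
    {b : G} (hb : b ∈ N) (hbv : b • v ≠ v) {k l : G} (hk : k ∈ K) (hl : l ∈ K) :
    ⁅k, l⁆ ∈ delSub N m v := by
  obtain ⟨i, hi, hi'⟩ := hB.ins m (del v k⁻¹) (del_mem (K.inv_mem hk))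
  obtain ⟨j, hj, hj'⟩ := hB.ins m (del v l) (del_mem hl)
  have h1 := comm_del hB.self (a := b) hi'
  have h2 : ⁅b, i⁆ ∈ N := by
    rw [commutatorElement_def]
    have := hN.conj_mem _ (N.inv_mem hb) i
    have e : b * i * b⁻¹ * i⁻¹ = b * (i * b⁻¹ * i⁻¹) := by group
    rw [e]
    exact N.mul_mem hb this
  have h3 : ⁅⁅b, i⁆, j⁆ ∈ N := by
    rw [commutatorElement_def ⁅b, i⁆ j]
    have := hN.conj_mem _ (N.inv_mem h2) j
    have e : ⁅b, i⁆ * j * ⁅b, i⁆⁻¹ * j⁻¹ = ⁅b, i⁆ * (j * ⁅b, i⁆⁻¹ * j⁻¹) := by group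
    rw [e]
    exact N.mul_mem h2 this
  refine ⟨⁅⁅b, i⁆, j⁆, h3, ?_⟩
  rw [commutatorElement_def ⁅b, i⁆ j]
  refine (((h1.mul hj').mul h1.inv).mul hj'.inv).congr fun u _ => ?_
  by_cases hu : u = v
  · rw [hu, del_self, del_ne _ (Ne.symm hbv), del_self, del_self, commutatorElement_def]
    group
  · rw [del_ne l hu, del_ne ⁅k, l⁆ hu]
    group

end powers

lemma insG_append {m m' : ℕ} {k κ : List X → G} {g : G} (h : InsG m k g)
    (h' : ∀ v : List X, v.length = m → InsG m' (fun u => κ (v ++ u)) (k v)) :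
    InsG (m + m') κ g := by
  intro z hz w
  have hz1 : (z.take m).length = m := by rw [List.length_take]; omega
  have hz2 : (z.drop m).length = m' := by rw [List.length_drop]; omega
  have e : z = z.take m ++ z.drop m := (List.take_append_drop m z).symm
  have h1 := h (z.take m) hz1 (z.drop m ++ w)
  have h2 := h' (z.take m) hz1 (z.drop m) hz2 w
  have h3 : κ (z.take m ++ z.drop m) = κ z := by rw [← e]
  calc (g : Tr X) (z ++ w) = (g : Tr X) (z.take m ++ (z.drop m ++ w)) := by
        rw [← List.append_assoc, ← e]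
    _ = z.take m ++ (k (z.take m) : Tr X) (z.drop m ++ w) := h1
    _ = z.take m ++ (z.drop m ++ (κ (z.take m ++ z.drop m) : Tr X) w) := by rw [h2]
    _ = z ++ (κ z : Tr X) w := by rw [h3, ← List.append_assoc, ← e]

lemma PG_br [Nonempty X] {K : Subgroup G} [hKn : K.Normal] (hB : Br G K) (m : ℕ) :
    Br G (PG K m) := by
  refine ⟨hB.self, fun m' k hk => ?_⟩
  obtain ⟨g, hg, hi⟩ := hB.ins m' k fun v => PG_le hB m (hk v)
  refine ⟨g, ?_, hi⟩
  choose κ hκ hκ' using hk
  -- the sections on level `m' + m`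
  have h1 : InsG (m' + m) (fun z => κ (z.take m') (z.drop m')) g := by
    refine insG_append hi fun v hv => ?_
    refine (hκ' v).congr fun u _ => ?_
    rw [← hv, List.take_left, List.drop_left]
  -- regroup
  choose k' hk'K hk' using fun v : List X =>
    hB.ins m' (fun u => κ ((v ++ u).take m') ((v ++ u).drop m')) fun u => hκ _ _
  obtain ⟨g', hg', hi'⟩ := hB.ins m k' hk'K
  have h2 : InsG (m + m') (fun z => κ (z.take m') (z.drop m')) g' :=
    insG_append hi' fun v _ => hk' v
  rw [add_comm] at h1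
  have h3 : g = g' := insG_unique hB.self h1 h2 fun _ _ => rfl
  rw [h3]
  exact ⟨k', hk'K, hi'⟩

/-- normal subgroups of finite index contain branching subgroups -/
theorem exists_branching [Finite X] [Nontrivial X] {K : Subgroup G} [hKn : K.Normal]
    (hB : Br G K) (hGfg : Group.FG G) (ht : LevelTransitive G) (hK : K.FiniteIndex)
    (N : Subgroup G) [hN : N.Normal] (hNi : N.FiniteIndex) :
    ∃ L : Subgroup G, L ≤ N ∧ L.Normal ∧ L.FiniteIndex ∧ Br G L := by
  obtain ⟨m, hm⟩ := exists_levelG ht hNi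
  have hKfg : Group.FG K := Subgroup.fg_of_index_ne_zero K
  set n := N.index with hn
  have hn0 : 0 < n := Nat.pos_of_ne_zero hNi.index_ne_zero
  have hPn := powSub_normal (K := K) (n := n)
  have hPfin := powSub_finiteIndex hK hKfg hn0
  have hPbr := powSub_br (n := n) hB
  refine ⟨PG (powSub K n) m, ?_, PG_normal hB.self m, PG_finiteIndex hPbr hPfin m,
    PG_br hPbr m⟩
  rintro g ⟨k, hk, hi⟩
  obtain ⟨g', hg', hi'⟩ := ins_of_del N m k fun v hv => by
    obtain ⟨b, hb, hbv⟩ := hm v hv
    have h1 : powSub K n ≤ delSub N m v := by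
      refine powSub_le_iff.2 ⟨fun k hk => ?_, fun k hk l hl => comm_mem_delSub hB hb hbv hk hl⟩
      obtain ⟨i, hi, hi'⟩ := hB.ins m (del v k) (del_mem hk)
      exact ⟨i ^ n, Subgroup.pow_index_mem N i, (insG_pow hi' n).congr fun u _ => del_pow v k n u⟩
    exact h1 (hk v)
  rw [insG_unique hB.self hi hi' fun _ _ => rfl]
  exact hg'

theorem main_FI [Finite X] [Nontrivial X] {G K H : Subgroup (Tr X)} (hfg : G.FG)
    (hss : SelfSimilar G) (hc : Contracting G) (ht : LevelTransitive G) (hKG : K ≤ G)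
    (hKi : (K.subgroupOf G).FiniteIndex) (hKp : ContainsPower K) (hHG : H ≤ G)
    (hHi : (H.subgroupOf G).FiniteIndex) :
    ∃ N : ℕ, ∀ g ∈ commutator H, ∃ l : List (H × H),
      l.length ≤ N ∧ g = (l.map fun p => ⁅p.1, p.2⁆).prod := by
  have hbr := br_core hss hKG hKp
  set K₁ := (K.subgroupOf G).normalCore with hK₁
  have hK₁n : K₁.Normal := Subgroup.normalCore_normal _
  have hK₁i : K₁.FiniteIndex := by
    rw [hK₁]; infer_instance
  have hGfg : Group.FG G := (Group.fg_iff_subgroup_fg G).2 hfg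
  have hNn : (H.subgroupOf G).normalCore.Normal := Subgroup.normalCore_normal _
  obtain ⟨L, hLN, hLn, hLi, hLbr⟩ := exists_branching hbr hGfg ht hK₁i
    (H.subgroupOf G).normalCore inferInstance
  obtain ⟨D⟩ := exists_Dat hfg hc hLbr hLi
  obtain ⟨m, hm⟩ := exists_levelG ht hLi
  have hle : L ≤ H.subgroupOf G := hLN.trans (Subgroup.normalCore_le _)
  obtain ⟨N, hN⟩ := bound_HH D m hm (H.subgroupOf G) hle
  refine ⟨N, fun g hg => ?_⟩
  have h1 : (commutator H).map (Subgroup.inclusion hHG) ≤ ⁅H.subgroupOf G, H.subgroupOf G⁆ := by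
    rw [commutator_def, Subgroup.map_commutator]
    apply Subgroup.commutator_mono
    · rintro x ⟨z, _, rfl⟩; exact z.2
    · rintro x ⟨z, _, rfl⟩; exact z.2
  obtain ⟨l, hl, e⟩ := CK_listH (hN _ (h1 ⟨g, hg, rfl⟩))
  exact ⟨l, hl, Subtype.ext e⟩

end Pool.Agent.CB71
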